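import Pool.Agent.Lib_helper40.RND.Defs

set_option autoImplicit false

/-! Definitions for the generic freeness of two-letter bireversible transducers. -/

namespace RNF40

open Equiv Equiv.Perm RND40

/-- good pair `σ₁` (on `p`), `σ₂` (off `p`): few cycles, and a power `N` that kills `σ₂` and all
of `σ₁` except one cycle of length at most `z`, on which it still has cycles of length at least
`w` -/
def GoodSig {α : Type*} (p : α → Prop) (w z c : ℕ) (s1 : Perm {q // p q})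
    (s2 : Perm {q // ¬ p q}) : Prop :=
  ncyc s1 + ncyc s2 ≤ c ∧ ∃ (N : ℕ) (x : {q // p q}), s2 ^ N = 1 ∧
    (∀ y, (s1 ^ N) y ≠ y ↔ SameCycle s1 x y) ∧ len s1 x ≤ z ∧ w ≤ len (s1 ^ N) x

/-- the first intersection event for `C` -/
def Meets {α : Type*} [DecidableEq α] (δ : Perm α) (C : Finset α) (Φ Ψ : ℤ → Perm α) : Prop :=
  ∃ i : ℤ, (C.image (fun q => Φ i (δ q)) ∩ C.image (fun q => δ⁻¹ q)).card = 1 ∧
    _root_.Disjoint (C.image (fun q => Ψ i (δ q))) (C.image (fun q => δ⁻¹ q))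

/-- all events for `δ`, `a` (supported on `p`), `b` (supported off `p`) -/
def Evt {α : Type*} [Fintype α] [DecidableEq α] (p : α → Prop) (δ a b : Perm α) : Prop :=
  ∃ (N : ℕ) (x : α), b ^ N = 1 ∧ 2 * (a ^ N).support.card < Fintype.card α ∧
    (∀ q ∈ (a ^ N).support, p q) ∧ (∀ q ∈ (a ^ N).support, δ q ∉ (a ^ N).support) ∧
    (a ^ N) ((a ^ N) x) ≠ x ∧
    (∃ j : ℕ, p (δ⁻¹ (((a ^ N) ^ j) x))) ∧ (∃ j : ℕ, ¬ p (δ⁻¹ (((a ^ N) ^ j) x))) ∧
    Meets δ (a ^ N).support (fun i => (a * b) ^ i) (fun i => a ^ (1 - i) * b ^ i) ∧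
    Meets δ (a ^ N).support (fun i => a ^ (1 - i) * b ^ i) (fun i => (a * b) ^ i) ∧
    MulAction.IsPreprimitive (Subgroup.closure ({δ, a * b} : Set (Perm α))) α ∧
    MulAction.IsPreprimitive (Subgroup.closure ({δ * a, a⁻¹ * b} : Set (Perm α))) α

end RNF40
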