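import Mathlib
import Pool.Agent.Lib_helper40.RNF.Defs
import Pool.Agent.Lib_helper40.RND.RA

set_option autoImplicit false

/-! Block FA of RNF: a cycle length divisible by `q` is rare. -/

namespace RNF40

open Equiv Equiv.Perm RND40

section general

variable {α : Type*} [Fintype α] [DecidableEq α]

omit [DecidableEq α] in
private theorem FA_len_pos (s : Perm α) (x : α) : 0 < len s x := by
  classical
  apply Function.minimalPeriod_pos_of_mem_periodicPts
  refine Function.mk_mem_periodicPts (orderOf_pos s) ?_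
  show (⇑s)^[orderOf s] x = x
  rw [Equiv.Perm.iterate_eq_pow, pow_orderOf_eq_one]
  rfl

omit [DecidableEq α] in
private theorem FA_len_le (s : Perm α) (x : α) : len s x ≤ Fintype.card α := by
  have hinj : Function.Injective (fun i : Fin (len s x) => (s ^ (i : ℕ)) x) := by
    intro i k hik
    exact Fin.ext (RA_pow_inj s x i.2 k.2 hik)
  simpa using Fintype.card_le_of_injective _ hinj

omit [Fintype α] [DecidableEq α] in
private theorem FA_len_pow (s : Perm α) (x : α) (i : ℕ) (h : 0 < len s x) :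
    len s ((s ^ i) x) = len s x := by
  unfold len at h ⊢
  rw [← Equiv.Perm.iterate_eq_pow]
  exact Function.minimalPeriod_apply_iterate (Function.minimalPeriod_pos_iff_mem_periodicPts.1 h) i

/-- the weight of the points on cycles of length divisible by `q` -/
private noncomputable def FA_g (q m : ℕ) : ℝ := if q ∣ m then 1 / (m : ℝ) else 0

private theorem FA_g_nonneg (q m : ℕ) : 0 ≤ FA_g q m := by
  unfold FA_g
  split_ifs
  · positivity
  · exact le_refl _

private theorem FA_one_le (q : ℕ) (s : Perm α) (y : α) (h : q ∣ len s y) :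
    1 ≤ ∑ x : α, FA_g q (len s x) := by
  have hl := FA_len_pos s y
  have h1 : ∑ i ∈ Finset.range (len s y), FA_g q (len s ((s ^ i) y)) ≤
      ∑ x : α, FA_g q (len s x) := by
    have hinj : Set.InjOn (fun i : ℕ => (s ^ i) y) (Finset.range (len s y) : Set ℕ) := by
      intro i hi k hk hik
      rw [Finset.coe_range, Set.mem_Iio] at hi hk
      exact RA_pow_inj s y hi hk hik
    rw [← Finset.sum_image (f := fun x => FA_g q (len s x)) hinj]
    exact Finset.sum_le_sum_of_subset_of_nonneg (Finset.subset_univ _)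
      (fun x _ _ => FA_g_nonneg q _)
  refine le_trans (le_of_eq ?_) h1
  have h2 : ∀ i ∈ Finset.range (len s y), FA_g q (len s ((s ^ i) y)) = 1 / (len s y : ℝ) := by
    intro i _
    rw [FA_len_pow s y i hl]
    unfold FA_g
    rw [if_pos h]
  rw [Finset.sum_congr rfl h2, Finset.sum_const, Finset.card_range, nsmul_eq_mul]
  have : (len s y : ℝ) ≠ 0 := by exact_mod_cast hl.ne'
  field_simp

private theorem FA_point (q : ℕ) (x : α) :
    ∑ s : Perm α, FA_g q (len s x) =
      ((Fintype.card α - 1).factorial : ℝ) * ∑ m ∈ Finset.Icc 1 (Fintype.card α), FA_g q m := by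
  classical
  have h1 : ∑ s : Perm α, FA_g q (len s x) =
      ∑ m ∈ Finset.Icc 1 (Fintype.card α),
        ∑ s ∈ (Finset.univ : Finset (Perm α)).filter (fun s => len s x = m), FA_g q (len s x) := by
    rw [Finset.sum_fiberwise_of_maps_to]
    intro s _
    exact Finset.mem_Icc.2 ⟨FA_len_pos s x, FA_len_le s x⟩
  rw [h1, Finset.mul_sum]
  refine Finset.sum_congr rfl fun m hm => ?_
  have h2 : ∀ s ∈ (Finset.univ : Finset (Perm α)).filter (fun s => len s x = m),
      FA_g q (len s x) = FA_g q m := by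
    intro s hs
    rw [(Finset.mem_filter.1 hs).2]
  rw [Finset.sum_congr rfl h2, Finset.sum_const, nsmul_eq_mul]
  congr 1
  have h3 := card_period x m (Finset.mem_Icc.1 hm).1 (Finset.mem_Icc.1 hm).2
  rw [Nat.card_eq_fintype_card, Fintype.card_subtype] at h3
  exact_mod_cast h3

private theorem FA_harm (q n : ℕ) (hq : 1 ≤ q) (hn : 1 ≤ n) :
    ∑ m ∈ Finset.Icc 1 n, FA_g q m ≤ (1 + Real.log (n : ℝ)) / (q : ℝ) := by
  have hq0 : (0 : ℝ) < q := by exact_mod_cast hq
  have h1 : ∑ m ∈ Finset.Icc 1 n, FA_g q m =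
      ∑ m ∈ (Finset.Icc 1 n).filter (fun m => q ∣ m), (1 / (m : ℝ)) := by
    rw [Finset.sum_filter]
    rfl
  have hinj : Set.InjOn (fun m : ℕ => m / q)
      (((Finset.Icc 1 n).filter (fun m => q ∣ m) : Finset ℕ) : Set ℕ) := by
    intro a ha b hb hab
    have ha' := (Finset.mem_filter.1 (Finset.mem_coe.1 ha)).2
    have hb' := (Finset.mem_filter.1 (Finset.mem_coe.1 hb)).2
    rw [← Nat.div_mul_cancel ha', ← Nat.div_mul_cancel hb']
    have : a / q = b / q := hab
    rw [this]
  have h2 : ∑ m ∈ (Finset.Icc 1 n).filter (fun m => q ∣ m), (1 / (m : ℝ)) =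
      ∑ m ∈ (Finset.Icc 1 n).filter (fun m => q ∣ m), (1 / (q : ℝ)) * (1 / ((m / q : ℕ) : ℝ)) := by
    refine Finset.sum_congr rfl fun m hm => ?_
    have hm' := (Finset.mem_filter.1 hm).2
    have hm1 := (Finset.mem_Icc.1 (Finset.mem_filter.1 hm).1).1
    have h3 : ((m / q : ℕ) : ℝ) = (m : ℝ) / q := by
      rw [Nat.cast_div hm' hq0.ne']
    have hm0 : (m : ℝ) ≠ 0 := by
      have : 0 < m := hm1
      exact_mod_cast this.ne'
    rw [h3]
    field_simp
  rw [h1, h2, ← Finset.mul_sum,
    ← Finset.sum_image (f := fun j : ℕ => 1 / (j : ℝ)) (g := fun m : ℕ => m / q) hinj]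
  have h4 : ∑ j ∈ ((Finset.Icc 1 n).filter (fun m => q ∣ m)).image (fun m => m / q),
      (1 / (j : ℝ)) ≤ ∑ j ∈ Finset.Icc 1 n, (1 / (j : ℝ)) := by
    refine Finset.sum_le_sum_of_subset_of_nonneg ?_ (fun j _ _ => by positivity)
    intro j hj
    obtain ⟨m, hm, rfl⟩ := Finset.mem_image.1 hj
    have hm' := (Finset.mem_filter.1 hm).2
    have hm1 := Finset.mem_Icc.1 (Finset.mem_filter.1 hm).1
    rw [Finset.mem_Icc]
    refine ⟨?_, (Nat.div_le_self _ _).trans hm1.2⟩
    exact Nat.div_pos (Nat.le_of_dvd hm1.1 hm') hq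
  have h5 : ∑ j ∈ Finset.Icc 1 n, (1 / (j : ℝ)) ≤ 1 + Real.log (n : ℝ) := by
    have h6 := harmonic_le_one_add_log n
    rw [harmonic_eq_sum_Icc] at h6
    push_cast at h6
    simpa only [one_div] using h6
  have h7 := mul_le_mul_of_nonneg_left (h4.trans h5) (show (0 : ℝ) ≤ 1 / (q : ℝ) by positivity)
  refine h7.trans (le_of_eq ?_)
  ring

theorem card_dvd_len (q w : ℕ) (hw : 1 ≤ w) (hq : w ≤ q) (h : 1 ≤ Fintype.card α) :
    (Nat.card {s : Perm α // ∃ y, q ∣ len s y} : ℝ) ≤
      ((Fintype.card α).factorial : ℝ) * ((1 + Real.log (Fintype.card α : ℝ)) / (w : ℝ)) := by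
  classical
  have hw0 : (0 : ℝ) < w := by exact_mod_cast hw
  have hwq : (w : ℝ) ≤ q := by exact_mod_cast hq
  have hlog : 0 ≤ 1 + Real.log (Fintype.card α : ℝ) := by
    have : 0 ≤ Real.log (Fintype.card α : ℝ) := Real.log_natCast_nonneg _
    linarith
  rw [Nat.card_eq_fintype_card, Fintype.card_subtype]
  have h1 : (((Finset.univ : Finset (Perm α)).filter (fun s => ∃ y, q ∣ len s y)).card : ℝ) ≤
      ∑ s : Perm α, ∑ x : α, FA_g q (len s x) := by
    calc (((Finset.univ : Finset (Perm α)).filter (fun s => ∃ y, q ∣ len s y)).card : ℝ)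
        = ∑ _s ∈ (Finset.univ : Finset (Perm α)).filter (fun s => ∃ y, q ∣ len s y), (1 : ℝ) := by
          rw [Finset.sum_const, nsmul_eq_mul, mul_one]
      _ ≤ ∑ s ∈ (Finset.univ : Finset (Perm α)).filter (fun s => ∃ y, q ∣ len s y),
            ∑ x : α, FA_g q (len s x) := by
          refine Finset.sum_le_sum fun s hs => ?_
          obtain ⟨y, hy⟩ := (Finset.mem_filter.1 hs).2
          exact FA_one_le q s y hy
      _ ≤ _ := Finset.sum_le_sum_of_subset_of_nonneg (Finset.filter_subset _ _)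
          (fun s _ _ => Finset.sum_nonneg fun x _ => FA_g_nonneg q _)
  refine h1.trans ?_
  rw [Finset.sum_comm]
  calc ∑ x : α, ∑ s : Perm α, FA_g q (len s x)
      = (Fintype.card α : ℝ) * (((Fintype.card α - 1).factorial : ℝ) *
          ∑ m ∈ Finset.Icc 1 (Fintype.card α), FA_g q m) := by
        rw [Finset.sum_congr rfl fun x _ => FA_point q x, Finset.sum_const, nsmul_eq_mul,
          Finset.card_univ]
    _ = ((Fintype.card α).factorial : ℝ) * ∑ m ∈ Finset.Icc 1 (Fintype.card α), FA_g q m := by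
        rw [← mul_assoc]
        congr 1
        have := Nat.mul_factorial_pred (n := Fintype.card α) (by omega)
        exact_mod_cast this
    _ ≤ ((Fintype.card α).factorial : ℝ) * ((1 + Real.log (Fintype.card α : ℝ)) / (q : ℝ)) :=
        mul_le_mul_of_nonneg_left (FA_harm q _ (hw.trans hq) h) (by positivity)
    _ ≤ _ := by
        apply mul_le_mul_of_nonneg_left _ (by positivity)
        exact div_le_div_of_nonneg_left hlog hw0 hwq

end general

end RNF40
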