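import Mathlib
import Pool.Agent.Lib_helper40.RNF.Defs
import Pool.Agent.Lib_helper40.RND.RD

set_option autoImplicit false

/-! Block FB of RNF (helper85): cycles of a glued permutation, of the inverse, and a killing
power. -/

namespace RNF40

open Equiv Equiv.Perm RND40

section general

variable {α : Type*} [Fintype α] [DecidableEq α]

omit [Fintype α] [DecidableEq α] in
private theorem FB_zpow (p : α → Prop) [DecidablePred p] (s1 : Perm {q // p q})
    (s2 : Perm {q // ¬ p q}) (i : ℤ) :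
    (Perm.subtypeCongr s1 s2) ^ i = Perm.subtypeCongr (s1 ^ i) (s2 ^ i) :=
  (map_zpow (Perm.subtypeCongrHom p) (s1, s2) i).symm

theorem ncyc_congr (p : α → Prop) [DecidablePred p] (s1 : Perm {q // p q})
    (s2 : Perm {q // ¬ p q}) : ncyc (Perm.subtypeCongr s1 s2) ≤ ncyc s1 + ncyc s2 := by
  classical
  unfold ncyc
  rw [← Nat.card_sum]
  let s := Perm.subtypeCongr s1 s2
  have h1 : ∀ x y : {q // p q}, SameCycle s1 x y → SameCycle s x.1 y.1 := by
    rintro x y ⟨i, hi⟩
    refine ⟨i, ?_⟩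
    rw [FB_zpow, Perm.subtypeCongr.left_apply_subtype, hi]
  have h2 : ∀ x y : {q // ¬ p q}, SameCycle s2 x y → SameCycle s x.1 y.1 := by
    rintro x y ⟨i, hi⟩
    refine ⟨i, ?_⟩
    rw [FB_zpow, Perm.subtypeCongr.right_apply_subtype, hi]
  let f : Quotient (SameCycle.setoid s1) ⊕ Quotient (SameCycle.setoid s2) →
      Quotient (SameCycle.setoid s) :=
    Sum.elim
      (Quotient.lift (fun x => Quotient.mk (SameCycle.setoid s) x.1)
        (fun x y h => Quotient.sound (h1 x y h)))
      (Quotient.lift (fun x => Quotient.mk (SameCycle.setoid s) x.1)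
        (fun x y h => Quotient.sound (h2 x y h)))
  refine Nat.card_le_card_of_surjective f ?_
  intro c
  induction c using Quotient.inductionOn with
  | h x =>
    by_cases hx : p x
    · exact ⟨Sum.inl (Quotient.mk _ ⟨x, hx⟩), rfl⟩
    · exact ⟨Sum.inr (Quotient.mk _ ⟨x, hx⟩), rfl⟩

theorem ncyc_inv (s : Perm α) : ncyc s⁻¹ = ncyc s := by
  unfold ncyc
  have h : SameCycle.setoid s⁻¹ = SameCycle.setoid s := by
    ext x y
    exact sameCycle_inv
  rw [h]

omit [DecidableEq α] in
private theorem FB_len_pos (s : Perm α) (x : α) : 1 ≤ len s x := by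
  classical
  rw [← card_sameCycle]
  have : Nonempty {y // SameCycle s x y} := ⟨⟨x, SameCycle.refl s x⟩⟩
  exact Nat.card_pos

omit [DecidableEq α] in
private theorem FB_len_le (s : Perm α) (x : α) : len s x ≤ Fintype.card α := by
  classical
  rw [← card_sameCycle, ← Nat.card_eq_fintype_card]
  exact Nat.card_le_card_of_injective _ Subtype.val_injective

omit [Fintype α] [DecidableEq α] in
private theorem FB_pow (s : Perm α) (x : α) (N : ℕ) : (s ^ N) x = x ↔ len s x ∣ N := by
  unfold len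
  rw [← Function.isPeriodicPt_iff_minimalPeriod_dvd, Function.IsPeriodicPt,
    Function.IsFixedPt, ← Equiv.Perm.iterate_eq_pow]

omit [DecidableEq α] in
private theorem FB_len_eq (s : Perm α) {x y : α} (h : SameCycle s x y) : len s x = len s y := by
  classical
  rw [← card_sameCycle, ← card_sameCycle]
  exact Nat.card_congr (Equiv.subtypeEquivRight fun z =>
    ⟨fun hz => h.symm.trans hz, fun hz => h.trans hz⟩)

theorem exists_pow2 {β : Type*} [Fintype β] [DecidableEq β] (s1 : Perm α) (s2 : Perm β) (x : α)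
    (q : ℕ) (hq : q.Prime) (hx : q ∣ len s1 x)
    (hy : ∀ y, ¬ SameCycle s1 x y → ¬ q ∣ len s1 y) (hy2 : ∀ y, ¬ q ∣ len s2 y) :
    ∃ N : ℕ, s2 ^ N = 1 ∧ (∀ y, (s1 ^ N) y ≠ y ↔ SameCycle s1 x y) ∧ q ≤ len (s1 ^ N) x := by
  classical
  set N : ℕ := ∏ j ∈ (Finset.Icc 1 (Fintype.card α + Fintype.card β)).filter
    (fun j => ¬ q ∣ j), j with hN
  have hqN : ¬ q ∣ N := by
    intro h
    obtain ⟨j, hj, hpj⟩ := (Prime.dvd_finsetProd_iff hq.prime _).1 h
    exact (Finset.mem_filter.1 hj).2 hpj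
  refine ⟨N, ?_, ?_, ?_⟩
  · ext y
    rw [Perm.one_apply, FB_pow]
    refine Finset.dvd_prod_of_mem _ ?_
    refine Finset.mem_filter.2 ⟨Finset.mem_Icc.2 ⟨FB_len_pos s2 y, ?_⟩, hy2 y⟩
    exact (FB_len_le s2 y).trans (Nat.le_add_left _ _)
  · intro y
    rw [Ne, FB_pow]
    constructor
    · intro h
      by_contra hc
      refine h (Finset.dvd_prod_of_mem _ ?_)
      refine Finset.mem_filter.2 ⟨Finset.mem_Icc.2 ⟨FB_len_pos s1 y, ?_⟩, hy y hc⟩
      exact (FB_len_le s1 y).trans (Nat.le_add_right _ _)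
    · intro h hd
      rw [← FB_len_eq s1 h] at hd
      exact hqN (hx.trans hd)
  · have h1 : ((s1 ^ N) ^ (len (s1 ^ N) x)) x = x := (FB_pow _ _ _).2 dvd_rfl
    rw [← pow_mul, FB_pow] at h1
    have h2 : q ∣ len (s1 ^ N) x := ((hq.dvd_mul).1 (hx.trans h1)).resolve_left hqN
    exact Nat.le_of_dvd (FB_len_pos _ _) h2

end general

end RNF40
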