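import Mathlib
import Pool.Agent.Lib_helper40.RNF.Defs

set_option autoImplicit false

/-! Block FC of RNF: hitting and position lemmas. -/

namespace RNF40

open Equiv Equiv.Perm RND40

section general

variable {α : Type*} [Fintype α] [DecidableEq α]

/-- the hit lemma -/
private theorem FC_hit (C Z : Finset α) :
    ((Finset.univ : Finset (Perm α)).filter (fun π => ∀ c ∈ C, π c ∉ Z)).card *
      (C.card * Z.card) ≤ (Fintype.card α).factorial * Fintype.card α := by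
  set B := (Finset.univ : Finset (Perm α)).filter (fun π => ∀ c ∈ C, π c ∉ Z) with hB
  have h1 : (B ×ˢ (C ×ˢ Z)).card ≤ (Finset.univ : Finset (Perm α × α)).card := by
    apply Finset.card_le_card_of_injOn
      (fun p : Perm α × (α × α) => (swap (p.1 p.2.1) p.2.2 * p.1, p.1 p.2.1))
    · intro p _
      simp
    · rintro ⟨π, c, z⟩ hp ⟨π', c', z'⟩ hp' he
      simp only [Finset.coe_product, Set.mem_prod, Finset.mem_coe, hB, Finset.mem_filter,
        Finset.mem_univ, true_and] at hp hp'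
      obtain ⟨hπ, hc, hz⟩ := hp
      obtain ⟨hπ', hc', hz'⟩ := hp'
      simp only [Prod.mk.injEq] at he
      obtain ⟨he1, he2⟩ := he
      have e1 : (swap (π c) z * π) c = z := by simp
      have e2 : (swap (π' c') z' * π') c' = z' := by simp
      have e3 : ∀ d ∈ C, d ≠ c → (swap (π c) z * π) d ∉ Z := by
        intro d hd hdc
        have : (swap (π c) z * π) d = π d := by
          rw [Perm.mul_apply, swap_apply_of_ne_of_ne]
          · exact fun h => hdc (π.injective h)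
          · exact fun h => hπ d hd (h ▸ hz)
        rw [this]
        exact hπ d hd
      have hcc : c = c' := by
        by_contra hne
        have h := e3 c' hc' (Ne.symm hne)
        rw [he1, e2] at h
        exact h hz'
      subst hcc
      have hzz : z = z' := by rw [← e1, ← e2, he1]
      subst hzz
      rw [he2] at he1
      have : π = π' := mul_left_cancel he1
      rw [this]
  rw [Finset.card_product, Finset.card_product, Finset.card_univ, Fintype.card_prod,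
    Fintype.card_perm] at h1
  exact h1

/-- the switch lemma -/
private theorem FC_switch (B : Finset (Perm α)) (a : α) (F : Perm α → α)
    (W : Perm α → Finset α) (m : ℕ) (hW : ∀ π ∈ B, (W π).card ≤ m)
    (h1 : ∀ π ∈ B, π a = F π) (h2 : ∀ π ∈ B, ∀ z ∉ W π, F (swap (F π) z * π) = F π) :
    B.card * (Fintype.card α - m) ≤ (Fintype.card α).factorial := by
  have h3 : (B.sigma (fun π => (W π)ᶜ)).card ≤ (Finset.univ : Finset (Perm α)).card := by
    apply Finset.card_le_card_of_injOn (fun p : (_ : Perm α) × α => swap (F p.1) p.2 * p.1)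
    · intro p _
      simp
    · rintro ⟨π, z⟩ hp ⟨π', z'⟩ hp' he
      simp only [Finset.coe_sigma, Set.mem_sigma_iff, Finset.mem_coe, Finset.mem_compl] at hp hp'
      simp only at he
      have e0 : F π = F π' := by
        rw [← h2 π hp.1 z hp.2, he, h2 π' hp'.1 z' hp'.2]
      have e1 : (swap (F π) z * π) a = z := by
        rw [Perm.mul_apply, h1 π hp.1, swap_apply_left]
      have e2 : (swap (F π') z' * π') a = z' := by
        rw [Perm.mul_apply, h1 π' hp'.1, swap_apply_left]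
      have hzz : z = z' := by rw [← e1, ← e2, he]
      subst hzz
      rw [e0] at he
      have : π = π' := mul_left_cancel he
      rw [this]
  rw [Finset.card_univ, Fintype.card_perm, Finset.card_sigma] at h3
  refine le_trans ?_ h3
  rw [← smul_eq_mul, ← Finset.sum_const]
  apply Finset.sum_le_sum
  intro π hπ
  rw [Finset.card_compl]
  exact Nat.sub_le_sub_left (hW π hπ) _

/-- real form of the switch lemma -/
private theorem FC_switch' (h4 : 4 ≤ Fintype.card α) (B : Finset (Perm α)) (a : α)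
    (F : Perm α → α) (W : Perm α → Finset α) (hW : ∀ π ∈ B, (W π).card ≤ 3)
    (h1 : ∀ π ∈ B, π a = F π) (h2 : ∀ π ∈ B, ∀ z ∉ W π, F (swap (F π) z * π) = F π) :
    (B.card : ℝ) ≤ ((Fintype.card α).factorial : ℝ) / ((Fintype.card α : ℝ) - 3) := by
  have h7 := FC_switch B a F W 3 hW h1 h2
  have hn3 : (0 : ℝ) < (Fintype.card α : ℝ) - 3 := by
    have : (4 : ℝ) ≤ Fintype.card α := by exact_mod_cast h4
    linarith
  rw [le_div_iff₀ hn3]
  have h8 : ((B.card * (Fintype.card α - 3) : ℕ) : ℝ) ≤ ((Fintype.card α).factorial : ℝ) := by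
    exact_mod_cast h7
  rw [Nat.cast_mul, Nat.cast_sub (by omega)] at h8
  exact_mod_cast h8

private theorem FC_hit_real (C Z : Finset α) (hC : C.Nonempty) (hZ : Z.Nonempty) :
    (((Finset.univ : Finset (Perm α)).filter (fun π => ∀ c ∈ C, π c ∉ Z)).card : ℝ) ≤
      ((Fintype.card α).factorial : ℝ) *
        ((Fintype.card α : ℝ) / ((C.card : ℝ) * (Z.card : ℝ))) := by
  have h1 := FC_hit C Z
  have hc : (0 : ℝ) < C.card := by exact_mod_cast hC.card_pos
  have hz : (0 : ℝ) < Z.card := by exact_mod_cast hZ.card_pos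
  rw [← mul_div_assoc, le_div_iff₀ (by positivity)]
  exact_mod_cast h1

private theorem FC_inv_card (P : Perm α → Prop) [DecidablePred P] :
    ((Finset.univ : Finset (Perm α)).filter (fun π => P π⁻¹)).card =
      ((Finset.univ : Finset (Perm α)).filter P).card := by
  apply Finset.card_bij (fun π _ => π⁻¹)
  · intro π hπ
    rw [Finset.mem_filter] at hπ ⊢
    exact ⟨Finset.mem_univ _, hπ.2⟩
  · intro π _ π' _ h
    exact inv_injective h
  · intro π hπ
    refine ⟨π⁻¹, ?_, inv_inv π⟩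
    rw [Finset.mem_filter] at hπ ⊢
    refine ⟨Finset.mem_univ _, ?_⟩
    rw [inv_inv]
    exact hπ.2

/-- hitting lemma, both directions -/
theorem hit (C Z : Finset α) (hC : C.Nonempty) (hZ : Z.Nonempty) :
    (Nat.card {δ : Perm α // ∀ q ∈ C, δ⁻¹ q ∉ Z} : ℝ) ≤
      ((Fintype.card α).factorial : ℝ) *
        ((Fintype.card α : ℝ) / ((C.card : ℝ) * (Z.card : ℝ))) := by
  classical
  rw [Nat.card_eq_fintype_card, Fintype.card_subtype,
    FC_inv_card (fun δ : Perm α => ∀ q ∈ C, δ q ∉ Z)]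
  exact FC_hit_real C Z hC hZ

theorem card_image_meets (C : Finset α) (h : 1 ≤ Fintype.card α) :
    (Nat.card {δ : Perm α // ¬ ∀ q ∈ C, δ q ∉ C} : ℝ) ≤
      ((Fintype.card α).factorial : ℝ) * ((C.card : ℝ) ^ 2 / (Fintype.card α : ℝ)) := by
  classical
  rw [Nat.card_eq_fintype_card, Fintype.card_subtype]
  have hn : (0 : ℝ) < Fintype.card α := by exact_mod_cast h
  let B : α × α → Finset (Perm α) := fun q =>
    (Finset.univ : Finset (Perm α)).filter (fun δ => δ q.1 = q.2)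
  have hB : ∀ q ∈ C ×ˢ C, ((B q).card : ℝ) ≤
      ((Fintype.card α).factorial : ℝ) / (Fintype.card α : ℝ) := by
    intro q _
    have h7 := FC_switch (B q) q.1 (fun _ => q.2) (fun _ => ∅) 0 (fun _ _ => by simp)
      (fun π hπ => (Finset.mem_filter.1 hπ).2) (fun _ _ _ _ => rfl)
    rw [le_div_iff₀ hn]
    rw [Nat.sub_zero] at h7
    exact_mod_cast h7
  have hsub : (Finset.univ : Finset (Perm α)).filter (fun δ => ¬ ∀ q ∈ C, δ q ∉ C) ⊆
      (C ×ˢ C).biUnion B := by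
    intro δ hδ
    have h1 := (Finset.mem_filter.1 hδ).2
    push Not at h1
    obtain ⟨q, hq, hq'⟩ := h1
    rw [Finset.mem_biUnion]
    exact ⟨(q, δ q), Finset.mem_product.2 ⟨hq, hq'⟩, Finset.mem_filter.2 ⟨Finset.mem_univ _, rfl⟩⟩
  have hc : (((Finset.univ : Finset (Perm α)).filter (fun δ => ¬ ∀ q ∈ C, δ q ∉ C)).card : ℝ) ≤
      ((∑ q ∈ C ×ˢ C, (B q).card : ℕ) : ℝ) := by
    exact_mod_cast (Finset.card_le_card hsub).trans Finset.card_biUnion_le
  refine hc.trans ?_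
  push_cast
  calc ∑ q ∈ C ×ˢ C, ((B q).card : ℝ)
      ≤ ∑ _q ∈ C ×ˢ C, ((Fintype.card α).factorial : ℝ) / (Fintype.card α : ℝ) :=
        Finset.sum_le_sum hB
    _ = ((Fintype.card α).factorial : ℝ) * ((C.card : ℝ) ^ 2 / (Fintype.card α : ℝ)) := by
        rw [Finset.sum_const, nsmul_eq_mul, Finset.card_product]
        push_cast
        ring

omit [Fintype α] in
/-- a switch changes neither `δ b` nor `δ⁻¹ b` when `b` is away from the two points -/
private theorem FC_keep (π : Perm α) (f z b : α) (hf : f ≠ π b) (hz : z ≠ π b) :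
    (swap f z * π) b = π b := by
  rw [Perm.mul_apply, swap_apply_of_ne_of_ne (Ne.symm hf) (Ne.symm hz)]

omit [Fintype α] in
private theorem FC_keep_inv (π : Perm α) (f z b : α) (hf : f ≠ b) (hz : z ≠ b) :
    (swap f z * π)⁻¹ b = π⁻¹ b := by
  rw [mul_inv_rev, swap_inv, Perm.mul_apply, swap_apply_of_ne_of_ne (Ne.symm hf) (Ne.symm hz)]

/-- events (A) and (B) -/
private theorem FC_AB {ι : Type*} (Θ : ι → Perm α) (C : Finset α) (idx : α → α → ι)
    (h4 : 4 ≤ Fintype.card α) (c1 c2 c3 c4 : α) (h31 : c3 ≠ c1) (h2 : c2 ∈ C) (h3 : c3 ∈ C)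
    (h4' : c4 ∈ C) :
    (((Finset.univ : Finset (Perm α)).filter (fun δ => (∀ q ∈ C, δ q ∉ C) ∧
      Θ (idx (δ c1) (δ⁻¹ c2)) (δ c3) = δ⁻¹ c4)).card : ℝ) ≤
      ((Fintype.card α).factorial : ℝ) / ((Fintype.card α : ℝ) - 3) := by
  refine FC_switch' h4 _ c3 (fun δ => (Θ (idx (δ c1) (δ⁻¹ c2)))⁻¹ (δ⁻¹ c4))
    (fun δ => {δ c1, c2, c4}) (fun δ _ => Finset.card_le_three) ?_ ?_
  · intro δ hδ
    have h := (Finset.mem_filter.1 hδ).2.2
    show δ c3 = (Θ (idx (δ c1) (δ⁻¹ c2)))⁻¹ (δ⁻¹ c4)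
    rw [← h]
    exact ((Θ (idx (δ c1) (δ⁻¹ c2))).symm_apply_apply (δ c3)).symm
  · intro δ hδ z hz
    have hC := (Finset.mem_filter.1 hδ).2.1
    have h := (Finset.mem_filter.1 hδ).2.2
    have hF : (Θ (idx (δ c1) (δ⁻¹ c2)))⁻¹ (δ⁻¹ c4) = δ c3 := by
      rw [← h]
      exact (Θ (idx (δ c1) (δ⁻¹ c2))).symm_apply_apply (δ c3)
    simp only [Finset.mem_insert, Finset.mem_singleton, not_or] at hz
    rw [hF]
    have e1 := FC_keep δ (δ c3) z c1 (fun h => h31 (δ.injective h)) hz.1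
    have e2 := FC_keep_inv δ (δ c3) z c2 (fun h => hC c3 h3 (h ▸ h2)) hz.2.1
    have e3 := FC_keep_inv δ (δ c3) z c4 (fun h => hC c3 h3 (h ▸ h4')) hz.2.2
    rw [e1, e2, e3, hF]

/-- event (C), in terms of `ε = δ⁻¹` -/
private theorem FC_C {ι : Type*} (Θ : ι → Perm α) (C : Finset α) (idx : α → α → ι)
    (h4 : 4 ≤ Fintype.card α) (c1 c2 c4 : α) (h42 : c4 ≠ c2) (h1 : c1 ∈ C)
    (h4' : c4 ∈ C) :
    (((Finset.univ : Finset (Perm α)).filter (fun ε => (∀ q ∈ C, ε⁻¹ q ∉ C) ∧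
      Θ (idx (ε⁻¹ c1) (ε c2)) (ε⁻¹ c1) = ε c4)).card : ℝ) ≤
      ((Fintype.card α).factorial : ℝ) / ((Fintype.card α : ℝ) - 3) := by
  refine FC_switch' h4 _ c4 (fun ε => Θ (idx (ε⁻¹ c1) (ε c2)) (ε⁻¹ c1))
    (fun ε => {ε c2, c1}) (fun δ _ => Finset.card_le_two.trans (by norm_num)) ?_ ?_
  · intro ε hε
    exact (Finset.mem_filter.1 hε).2.2.symm
  · intro ε hε z hz
    have hC := (Finset.mem_filter.1 hε).2.1
    have hF := (Finset.mem_filter.1 hε).2.2
    simp only [Finset.mem_insert, Finset.mem_singleton, not_or] at hz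
    rw [hF]
    have hne : ε c4 ≠ c1 := by
      intro h
      apply hC c1 h1
      rw [← h]
      have e0 : ε⁻¹ (ε c4) = c4 := ε.symm_apply_apply c4
      rw [e0]
      exact h4'
    have e1 := FC_keep ε (ε c4) z c2 (fun h => h42 (ε.injective h)) hz.1
    have e2 := FC_keep_inv ε (ε c4) z c1 hne hz.2
    rw [e1, e2, hF]

/-- event (D), in terms of `ε = δ⁻¹` -/
private theorem FC_D (C : Finset α) (ys : α → α)
    (h4 : 4 ≤ Fintype.card α) (c1 c2 : α) (h1 : c1 ∈ C) (h2 : c2 ∈ C) :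
    (((Finset.univ : Finset (Perm α)).filter (fun ε => (∀ q ∈ C, ε⁻¹ q ∉ C) ∧
      ε c2 = ys (ε⁻¹ c1))).card : ℝ) ≤
      ((Fintype.card α).factorial : ℝ) / ((Fintype.card α : ℝ) - 3) := by
  refine FC_switch' h4 _ c2 (fun ε => ys (ε⁻¹ c1))
    (fun ε => {c1}) (fun δ _ => by rw [Finset.card_singleton]; norm_num) ?_ ?_
  · intro ε hε
    exact (Finset.mem_filter.1 hε).2.2
  · intro ε hε z hz
    have hC := (Finset.mem_filter.1 hε).2.1
    have hF := (Finset.mem_filter.1 hε).2.2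
    simp only [Finset.mem_singleton] at hz
    rw [← hF]
    have hne : ε c2 ≠ c1 := by
      intro h
      apply hC c1 h1
      rw [← h]
      have e0 : ε⁻¹ (ε c2) = c2 := ε.symm_apply_apply c2
      rw [e0]
      exact h2
    rw [FC_keep_inv ε (ε c2) z c1 hne hz, hF]

theorem position2 {ι : Type*} (Φ Ψ : ι → Perm α) (Z C : Finset α) (idx : α → α → ι) (ys : α → α)
    (hidx : ∀ x ∈ Z, ∀ y ∈ Z, Φ (idx x y) x = y)
    (hys : ∀ x ∈ Z, ∀ y ∈ Z, Ψ (idx x y) x = y → y = ys x)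
    (hC : C.Nonempty) (hZ : Z.Nonempty) (h4 : 4 ≤ Fintype.card α) :
    (Nat.card {δ : Perm α // (∀ q ∈ C, δ q ∉ C) ∧ ¬ ∃ i : ι,
      (C.image (fun q => Φ i (δ q)) ∩ C.image (fun q => δ⁻¹ q)).card = 1 ∧
      _root_.Disjoint (C.image (fun q => Ψ i (δ q))) (C.image (fun q => δ⁻¹ q))} : ℝ) ≤
      ((Fintype.card α).factorial : ℝ) *
        (2 * (Fintype.card α : ℝ) / ((C.card : ℝ) * (Z.card : ℝ)) +
          (2 * (C.card : ℝ) ^ 4 + (C.card : ℝ) ^ 2) / ((Fintype.card α : ℝ) - 3)) := by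
  classical
  set n := Fintype.card α with hn
  have hn3 : (0 : ℝ) < (n : ℝ) - 3 := by
    have : (4 : ℝ) ≤ n := by exact_mod_cast h4
    linarith
  let K : ℝ := (n.factorial : ℝ) / ((n : ℝ) - 3)
  have hK : 0 ≤ K := by positivity
  -- the three families of events
  let BA : (α × α) × (α × α) → Finset (Perm α) := fun q =>
    (Finset.univ : Finset (Perm α)).filter (fun δ => (∀ q ∈ C, δ q ∉ C) ∧
      Φ (idx (δ q.1.1) (δ⁻¹ q.1.2)) (δ q.2.1) = δ⁻¹ q.2.2)
  let BB : (α × α) × (α × α) → Finset (Perm α) := fun q =>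
    (Finset.univ : Finset (Perm α)).filter (fun δ => (∀ q ∈ C, δ q ∉ C) ∧
      Ψ (idx (δ q.1.1) (δ⁻¹ q.1.2)) (δ q.2.1) = δ⁻¹ q.2.2)
  let BD : α × α → Finset (Perm α) := fun q =>
    (Finset.univ : Finset (Perm α)).filter (fun δ => (∀ q ∈ C, δ q ∉ C) ∧
      δ⁻¹ q.2 = ys (δ q.1))
  let QA : Finset ((α × α) × (α × α)) :=
    ((C ×ˢ C) ×ˢ (C ×ˢ C)).filter (fun q => q.2.1 ≠ q.1.1)
  let QB : Finset ((α × α) × (α × α)) :=
    ((C ×ˢ C) ×ˢ (C ×ˢ C)).filter (fun q => q.2 ≠ q.1)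
  have hBA : ∀ q ∈ QA, ((BA q).card : ℝ) ≤ K := by
    rintro ⟨⟨c1, c2⟩, ⟨c3, c4⟩⟩ hq
    simp only [QA, Finset.mem_filter, Finset.mem_product] at hq
    obtain ⟨⟨⟨h1, h2⟩, h3, h5⟩, h6⟩ := hq
    exact FC_AB Φ C idx h4 c1 c2 c3 c4 h6 h2 h3 h5
  have hBB : ∀ q ∈ QB, ((BB q).card : ℝ) ≤ K := by
    rintro ⟨⟨c1, c2⟩, ⟨c3, c4⟩⟩ hq
    simp only [QB, Finset.mem_filter, Finset.mem_product] at hq
    obtain ⟨⟨⟨h1, h2⟩, h3, h5⟩, h6⟩ := hq
    by_cases h31 : c3 = c1
    · subst h31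
      have h42 : c4 ≠ c2 := fun h => h6 (by rw [h])
      have h7 := FC_C Ψ C idx h4 c3 c2 c4 h42 h3 h5
      rw [← FC_inv_card] at h7
      simp only [inv_inv] at h7
      exact h7
    · exact FC_AB Ψ C idx h4 c1 c2 c3 c4 h31 h2 h3 h5
  have hBD : ∀ q ∈ C ×ˢ C, ((BD q).card : ℝ) ≤ K := by
    rintro ⟨c1, c2⟩ hq
    obtain ⟨h1, h2⟩ := Finset.mem_product.1 hq
    have h7 := FC_D C ys h4 c1 c2 h1 h2
    rw [← FC_inv_card] at h7
    simp only [inv_inv] at h7
    exact h7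
  have hQA : ((QA.card : ℕ) : ℝ) ≤ (C.card : ℝ) ^ 4 := by
    have h1 : QA.card ≤ (C.card * C.card) * (C.card * C.card) := by
      refine (Finset.card_filter_le _ _).trans ?_
      rw [Finset.card_product, Finset.card_product]
    calc ((QA.card : ℕ) : ℝ) ≤ (((C.card * C.card) * (C.card * C.card) : ℕ) : ℝ) := by
          exact_mod_cast h1
      _ = _ := by push_cast; ring
  have hQB : ((QB.card : ℕ) : ℝ) ≤ (C.card : ℝ) ^ 4 := by
    have h1 : QB.card ≤ (C.card * C.card) * (C.card * C.card) := by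
      refine (Finset.card_filter_le _ _).trans ?_
      rw [Finset.card_product, Finset.card_product]
    calc ((QB.card : ℕ) : ℝ) ≤ (((C.card * C.card) * (C.card * C.card) : ℕ) : ℝ) := by
          exact_mod_cast h1
      _ = _ := by push_cast; ring
  rw [Nat.card_eq_fintype_card, Fintype.card_subtype]
  have hsub : (Finset.univ : Finset (Perm α)).filter (fun δ => (∀ q ∈ C, δ q ∉ C) ∧ ¬ ∃ i : ι,
      (C.image (fun q => Φ i (δ q)) ∩ C.image (fun q => δ⁻¹ q)).card = 1 ∧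
      _root_.Disjoint (C.image (fun q => Ψ i (δ q))) (C.image (fun q => δ⁻¹ q))) ⊆
      ((Finset.univ : Finset (Perm α)).filter (fun π => ∀ c ∈ C, π c ∉ Z)) ∪
      (((Finset.univ : Finset (Perm α)).filter (fun π => ∀ c ∈ C, π⁻¹ c ∉ Z)) ∪
        (QA.biUnion BA ∪ (QB.biUnion BB ∪ (C ×ˢ C).biUnion BD))) := by
    intro δ hδ
    obtain ⟨hCδ, hbad⟩ := (Finset.mem_filter.1 hδ).2
    rw [Finset.mem_union, Finset.mem_union, Finset.mem_union, Finset.mem_union,
      Finset.mem_filter, Finset.mem_filter, Finset.mem_biUnion, Finset.mem_biUnion,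
      Finset.mem_biUnion]
    by_cases hb1 : ∀ c ∈ C, δ c ∉ Z
    · exact Or.inl ⟨Finset.mem_univ _, hb1⟩
    by_cases hb2 : ∀ c ∈ C, δ⁻¹ c ∉ Z
    · exact Or.inr (Or.inl ⟨Finset.mem_univ _, hb2⟩)
    refine Or.inr (Or.inr ?_)
    push Not at hb1 hb2
    obtain ⟨c1, h1, h1'⟩ := hb1
    obtain ⟨c2, h2, h2'⟩ := hb2
    have hi := hidx _ h1' _ h2'
    set i := idx (δ c1) (δ⁻¹ c2) with hidef
    have hmem : δ⁻¹ c2 ∈ C.image (fun q => Φ i (δ q)) ∩ C.image (fun q => δ⁻¹ q) := by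
      rw [Finset.mem_inter, Finset.mem_image, Finset.mem_image]
      exact ⟨⟨c1, h1, hi⟩, c2, h2, rfl⟩
    by_cases hcard : (C.image (fun q => Φ i (δ q)) ∩ C.image (fun q => δ⁻¹ q)).card = 1
    · have hnd : ¬ _root_.Disjoint (C.image (fun q => Ψ i (δ q))) (C.image (fun q => δ⁻¹ q)) :=
        fun hd => hbad ⟨i, hcard, hd⟩
      rw [Finset.not_disjoint_iff] at hnd
      obtain ⟨w, hw, hw'⟩ := hnd
      rw [Finset.mem_image] at hw hw'
      obtain ⟨c3, h3, h3'⟩ := hw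
      obtain ⟨c4, h5, h5'⟩ := hw'
      refine Or.inr ?_
      by_cases heq : ((c3, c4) : α × α) = (c1, c2)
      · rw [Prod.mk.injEq] at heq
        obtain ⟨rfl, rfl⟩ := heq
        refine Or.inr ⟨(c3, c4), Finset.mem_product.2 ⟨h3, h5⟩, ?_⟩
        simp only [BD, Finset.mem_filter, Finset.mem_univ, true_and]
        exact ⟨hCδ, hys _ h1' _ h2' (h3'.trans h5'.symm)⟩
      · refine Or.inl ⟨((c1, c2), (c3, c4)), ?_, ?_⟩
        · simp only [QB, Finset.mem_filter, Finset.mem_product]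
          exact ⟨⟨⟨h1, h2⟩, h3, h5⟩, heq⟩
        · simp only [BB, Finset.mem_filter, Finset.mem_univ, true_and]
          exact ⟨hCδ, h3'.trans h5'.symm⟩
    · have hcard' : 1 < (C.image (fun q => Φ i (δ q)) ∩ C.image (fun q => δ⁻¹ q)).card := by
        have h5 := Finset.card_pos.2 ⟨_, hmem⟩
        omega
      obtain ⟨w, hw, hwne⟩ := Finset.exists_mem_ne hcard' (δ⁻¹ c2)
      rw [Finset.mem_inter, Finset.mem_image, Finset.mem_image] at hw
      obtain ⟨⟨c3, h3, h3'⟩, c4, h5, h5'⟩ := hw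
      have h31 : c3 ≠ c1 := by
        rintro rfl
        exact hwne (h3'.symm.trans hi)
      refine Or.inl ⟨((c1, c2), (c3, c4)), ?_, ?_⟩
      · simp only [QA, Finset.mem_filter, Finset.mem_product]
        exact ⟨⟨⟨h1, h2⟩, h3, h5⟩, h31⟩
      · simp only [BA, Finset.mem_filter, Finset.mem_univ, true_and]
        exact ⟨hCδ, h3'.trans h5'.symm⟩
  have hc1 := (Finset.card_le_card hsub).trans ((Finset.card_union_le _ _).trans
      (Nat.add_le_add_left ((Finset.card_union_le _ _).trans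
        (Nat.add_le_add_left ((Finset.card_union_le _ _).trans
          (Nat.add_le_add Finset.card_biUnion_le ((Finset.card_union_le _ _).trans
            (Nat.add_le_add Finset.card_biUnion_le Finset.card_biUnion_le)))) _)) _))
  have hc2 := (Nat.cast_le (α := ℝ)).2 hc1
  refine hc2.trans ?_
  push_cast
  have g1 := FC_hit_real C Z hC hZ
  have g2 : (((Finset.univ : Finset (Perm α)).filter (fun π => ∀ c ∈ C, π⁻¹ c ∉ Z)).card : ℝ) ≤
      (n.factorial : ℝ) * ((n : ℝ) / ((C.card : ℝ) * (Z.card : ℝ))) := by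
    rw [FC_inv_card (fun δ : Perm α => ∀ q ∈ C, δ q ∉ Z)]
    exact g1
  have g3 : ∑ q ∈ QA, ((BA q).card : ℝ) ≤ (C.card : ℝ) ^ 4 * K := by
    calc ∑ q ∈ QA, ((BA q).card : ℝ) ≤ ∑ _q ∈ QA, K := Finset.sum_le_sum hBA
      _ = (QA.card : ℝ) * K := by rw [Finset.sum_const, nsmul_eq_mul]
      _ ≤ _ := mul_le_mul_of_nonneg_right hQA hK
  have g4 : ∑ q ∈ QB, ((BB q).card : ℝ) ≤ (C.card : ℝ) ^ 4 * K := by
    calc ∑ q ∈ QB, ((BB q).card : ℝ) ≤ ∑ _q ∈ QB, K := Finset.sum_le_sum hBB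
      _ = (QB.card : ℝ) * K := by rw [Finset.sum_const, nsmul_eq_mul]
      _ ≤ _ := mul_le_mul_of_nonneg_right hQB hK
  have g5 : ∑ q ∈ C ×ˢ C, ((BD q).card : ℝ) ≤ (C.card : ℝ) ^ 2 * K := by
    calc ∑ q ∈ C ×ˢ C, ((BD q).card : ℝ) ≤ ∑ _q ∈ C ×ˢ C, K := Finset.sum_le_sum hBD
      _ = ((C ×ˢ C).card : ℝ) * K := by rw [Finset.sum_const, nsmul_eq_mul]
      _ = _ := by rw [Finset.card_product]; push_cast; ring
  have hfin : (n.factorial : ℝ) *
        (2 * (n : ℝ) / ((C.card : ℝ) * (Z.card : ℝ)) +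
          (2 * (C.card : ℝ) ^ 4 + (C.card : ℝ) ^ 2) / ((n : ℝ) - 3)) =
      (n.factorial : ℝ) * ((n : ℝ) / ((C.card : ℝ) * (Z.card : ℝ))) +
      ((n.factorial : ℝ) * ((n : ℝ) / ((C.card : ℝ) * (Z.card : ℝ))) +
        ((C.card : ℝ) ^ 4 * K + ((C.card : ℝ) ^ 4 * K + (C.card : ℝ) ^ 2 * K))) := by
    simp only [K]
    ring
  rw [hfin]
  exact add_le_add g1 (add_le_add g2 (add_le_add g3 (add_le_add g4 g5)))

end general

end RNF40
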