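import Mathlib
import Pool.Agent.Lib_helper40.RNF.Defs
import Pool.Agent.Lib_helper40.RND.RD
import Pool.Agent.Lib_helper40.RNF.FC

set_option autoImplicit false

/-! Block FC2 of RNF (helper85): the two intersection events for commuting `a`, `b`. -/

namespace RNF40

open Equiv Equiv.Perm RND40

section general

variable {α : Type*} [Fintype α] [DecidableEq α]

omit [Fintype α] [DecidableEq α] in
private theorem FC2_maps (p : α → Prop) (a : Perm α) (ha : ∀ q, ¬ p q → a q = q) (q : α)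
    (hq : p q) : p (a q) := by
  by_contra h
  have h1 := ha _ h
  have h2 : a q = q := a.injective h1
  exact h (h2.symm ▸ hq)

omit [Fintype α] [DecidableEq α] in
private theorem FC2_comm (p : α → Prop) (a b : Perm α) (ha : ∀ q, ¬ p q → a q = q)
    (hb : ∀ q, p q → b q = q) : Commute a b := by
  have hb' : ∀ q, ¬ ¬ p q → b q = q := fun q hq => hb q (not_not.1 hq)
  ext q
  rw [Perm.mul_apply, Perm.mul_apply]
  by_cases hq : p q
  · rw [hb q hq, hb _ (FC2_maps p a ha q hq)]
  · rw [ha q hq, ha _ (FC2_maps (fun q => ¬ p q) b hb' q hq)]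

omit [Fintype α] [DecidableEq α] in
private theorem FC2_zpow_fix (b : Perm α) (x : α) (h : b x = x) (i : ℤ) : (b ^ i) x = x :=
  Perm.zpow_apply_eq_self_of_apply_eq_self h i

omit [Fintype α] [DecidableEq α] in
private theorem FC2_cyc (p : α → Prop) (a : Perm α) (ha : ∀ q, ¬ p q → a q = q) (x0 x : α)
    (hx0 : p x0) (h : SameCycle a x0 x) : p x := by
  obtain ⟨i, rfl⟩ := h
  by_contra hc
  have h1 := ha _ hc
  have h2 : (a ^ (-i)) ((a ^ i) x0) = (a ^ i) x0 := FC2_zpow_fix a _ h1 _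
  rw [← Perm.mul_apply, ← zpow_add, neg_add_cancel, zpow_zero, Perm.one_apply] at h2
  exact hc (h2 ▸ hx0)

omit [DecidableEq α] in
private theorem FC2_zpow_iff (a : Perm α) (x : α) (i : ℤ) :
    (a ^ i) x = x ↔ (len a x : ℤ) ∣ i := by
  have h := MulAction.zpow_smul_eq_iff_minimalPeriod_dvd (a := a) (b := x) (n := i)
  exact h

private theorem FC2_count (a : Perm α) (Φ Ψ : ℤ → Perm α) (C : Finset α) (x0 : α)
    (idx : α → α → ℤ) (ys : α → α)
    (hidx : ∀ x, SameCycle a x0 x → ∀ y, SameCycle a x0 y → Φ (idx x y) x = y)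
    (hys : ∀ x, SameCycle a x0 x → ∀ y, SameCycle a x0 y → Ψ (idx x y) x = y → y = ys x)
    (hC : C.Nonempty) (h4 : 4 ≤ Fintype.card α) :
    (Nat.card {δ : Perm α // (∀ q ∈ C, δ q ∉ C) ∧ ¬ Meets δ C Φ Ψ} : ℝ) ≤
      ((Fintype.card α).factorial : ℝ) *
        (2 * (Fintype.card α : ℝ) / ((C.card : ℝ) * (len a x0 : ℝ)) +
          (2 * (C.card : ℝ) ^ 4 + (C.card : ℝ) ^ 2) / ((Fintype.card α : ℝ) - 3)) := by
  classical
  set Z : Finset α := Finset.univ.filter (fun y => SameCycle a x0 y) with hZ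
  have hmem : ∀ x, x ∈ Z ↔ SameCycle a x0 x := fun x => by simp [hZ]
  have hcard : Z.card = len a x0 := by
    rw [← card_sameCycle, Nat.card_eq_fintype_card, Fintype.card_subtype]
  have hZn : Z.Nonempty := ⟨x0, (hmem x0).2 (SameCycle.refl a x0)⟩
  have h := position2 Φ Ψ Z C idx ys
    (fun x hx y hy => hidx x ((hmem x).1 hx) y ((hmem y).1 hy))
    (fun x hx y hy => hys x ((hmem x).1 hx) y ((hmem y).1 hy)) hC hZn h4
  rw [hcard] at h
  exact h

/-! ### FC2: the two intersection events for `a`, `b` -/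

theorem meets_ab (p : α → Prop) (a b : Perm α) (ha : ∀ q, ¬ p q → a q = q)
    (hb : ∀ q, p q → b q = q) (x0 : α) (hx0 : p x0) (C : Finset α) (hC : C.Nonempty)
    (h4 : 4 ≤ Fintype.card α) :
    (Nat.card {δ : Perm α // (∀ q ∈ C, δ q ∉ C) ∧
      ¬ (Meets δ C (fun i => (a * b) ^ i) (fun i => a ^ (1 - i) * b ^ i) ∧
         Meets δ C (fun i => a ^ (1 - i) * b ^ i) (fun i => (a * b) ^ i))} : ℝ) ≤
      2 * ((Fintype.card α).factorial : ℝ) *
        (2 * (Fintype.card α : ℝ) / ((C.card : ℝ) * (len a x0 : ℝ)) +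
          (2 * (C.card : ℝ) ^ 4 + (C.card : ℝ) ^ 2) / ((Fintype.card α : ℝ) - 3)) := by
  classical
  have hcomm := FC2_comm p a b ha hb
  -- on the cycle, `b` is trivial
  have hbx : ∀ x, SameCycle a x0 x → ∀ i : ℤ, (b ^ i) x = x := fun x hx i =>
    FC2_zpow_fix b x (hb x (FC2_cyc p a ha x0 x hx0 hx)) i
  have hab : ∀ x, SameCycle a x0 x → ∀ i : ℤ, ((a * b) ^ i) x = (a ^ i) x := fun x hx i => by
    rw [hcomm.mul_zpow, Perm.mul_apply, hbx x hx]
  have hab' : ∀ x, SameCycle a x0 x → ∀ i j : ℤ, (a ^ j * b ^ i) x = (a ^ j) x :=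
    fun x hx i j => by
    rw [Perm.mul_apply, hbx x hx]
  let idx : α → α → ℤ := fun x y => if h : ∃ i : ℤ, (a ^ i) x = y then h.choose else 0
  have hidx : ∀ x, SameCycle a x0 x → ∀ y, SameCycle a x0 y → (a ^ (idx x y)) x = y := by
    intro x hx y hy
    have h : ∃ i : ℤ, (a ^ i) x = y := hx.symm.trans hy
    simp only [idx, dif_pos h]
    exact h.choose_spec
  let ys : α → α := fun x => (a ^ (((len a x : ℤ) + 1) / 2)) x
  have hys : ∀ x, SameCycle a x0 x → ∀ y, SameCycle a x0 y →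
      (a ^ (1 - idx x y)) x = y → y = ys x := by
    intro x hx y hy h
    set i := idx x y with hi
    have h1 : (a ^ i) x = y := hidx x hx y hy
    have h2 : (a ^ (2 * i - 1)) x = x := by
      have h3 : (a ^ (1 - i)) ((a ^ (2 * i - 1)) x) = (a ^ (1 - i)) x := by
        rw [← Perm.mul_apply, ← zpow_add, h, ← h1]
        congr 2
        ring
      exact (a ^ (1 - i)).injective h3
    rw [FC2_zpow_iff] at h2
    obtain ⟨k, hk⟩ := h2
    have h5 : (len a x : ℤ) ∣ i - ((len a x : ℤ) + 1) / 2 := by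
      have hodd : (len a x : ℤ) % 2 = 1 := by
        rcases Int.emod_two_eq_zero_or_one (len a x : ℤ) with h0 | h0
        · exfalso
          obtain ⟨m, hm⟩ := Int.dvd_of_emod_eq_zero h0
          rw [hm] at hk
          have : 2 * i - 1 = 2 * (m * k) := by rw [hk]; ring
          omega
        · exact h0
      have hkodd : k % 2 = 1 := by
        rcases Int.emod_two_eq_zero_or_one k with h0 | h0
        · exfalso
          obtain ⟨m, hm⟩ := Int.dvd_of_emod_eq_zero h0
          rw [hm] at hk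
          have : 2 * i - 1 = 2 * ((len a x : ℤ) * m) := by rw [hk]; ring
          omega
        · exact h0
      refine ⟨k / 2, ?_⟩
      have hl : (len a x : ℤ) = 2 * ((len a x : ℤ) / 2) + 1 := by omega
      have hk2 : k = 2 * (k / 2) + 1 := by omega
      have hl2 : ((len a x : ℤ) + 1) / 2 = (len a x : ℤ) / 2 + 1 := by omega
      rw [hl2]
      set L := (len a x : ℤ) / 2 with hL
      set K := k / 2 with hK
      rw [hl, hk2] at hk
      rw [hl]
      have : 2 * (i - (L + 1)) = 2 * ((2 * L + 1) * K) := by linear_combination hk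
      linarith
    have h6 : (a ^ (i - ((len a x : ℤ) + 1) / 2)) x = x := (FC2_zpow_iff a x _).2 h5
    have h7 : (a ^ i) x = (a ^ (((len a x : ℤ) + 1) / 2)) x := by
      have h8 : (a ^ (((len a x : ℤ) + 1) / 2)) ((a ^ (i - ((len a x : ℤ) + 1) / 2)) x) =
          (a ^ i) x := by
        rw [← Perm.mul_apply, ← zpow_add]
        congr 2
        ring
      rw [h6] at h8
      exact h8.symm
    exact h1.symm.trans h7
  have hc1 := FC2_count a (fun i => (a * b) ^ i) (fun i => a ^ (1 - i) * b ^ i) C x0 idx ys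
    (fun x hx y hy => by
      show ((a * b) ^ (idx x y)) x = y
      rw [hab x hx, hidx x hx y hy])
    (fun x hx y hy h => by
      have h' : (a ^ (1 - idx x y) * b ^ (idx x y)) x = y := h
      rw [hab' x hx] at h'
      exact hys x hx y hy h') hC h4
  have hc2 := FC2_count a (fun i => a ^ (1 - i) * b ^ i) (fun i => (a * b) ^ i) C x0
    (fun x y => 1 - idx x y) ys
    (fun x hx y hy => by
      show (a ^ (1 - (1 - idx x y)) * b ^ (1 - idx x y)) x = y
      rw [hab' x hx, sub_sub_cancel, hidx x hx y hy])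
    (fun x hx y hy h => by
      have h' : ((a * b) ^ (1 - idx x y)) x = y := h
      rw [hab x hx] at h'
      exact hys x hx y hy h') hC h4
  set M1 := fun δ : Perm α => Meets δ C (fun i => (a * b) ^ i) (fun i => a ^ (1 - i) * b ^ i)
    with hM1
  set M2 := fun δ : Perm α => Meets δ C (fun i => a ^ (1 - i) * b ^ i) (fun i => (a * b) ^ i)
    with hM2
  have hle : Nat.card {δ : Perm α // (∀ q ∈ C, δ q ∉ C) ∧ ¬ (M1 δ ∧ M2 δ)} ≤
      Nat.card {δ : Perm α // (∀ q ∈ C, δ q ∉ C) ∧ ¬ M1 δ} +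
      Nat.card {δ : Perm α // (∀ q ∈ C, δ q ∉ C) ∧ ¬ M2 δ} := by
    rw [Nat.card_eq_fintype_card, Nat.card_eq_fintype_card, Nat.card_eq_fintype_card,
      Fintype.card_subtype, Fintype.card_subtype, Fintype.card_subtype]
    refine (Finset.card_le_card ?_).trans (Finset.card_union_le _ _)
    intro δ hδ
    rw [Finset.mem_filter] at hδ
    rw [Finset.mem_union, Finset.mem_filter, Finset.mem_filter]
    by_cases h1 : M1 δ
    · exact Or.inr ⟨Finset.mem_univ _, hδ.2.1, fun h2 => hδ.2.2 ⟨h1, h2⟩⟩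
    · exact Or.inl ⟨Finset.mem_univ _, hδ.2.1, h1⟩
  have hle' : (Nat.card {δ : Perm α // (∀ q ∈ C, δ q ∉ C) ∧ ¬ (M1 δ ∧ M2 δ)} : ℝ) ≤
      (Nat.card {δ : Perm α // (∀ q ∈ C, δ q ∉ C) ∧ ¬ M1 δ} : ℝ) +
      (Nat.card {δ : Perm α // (∀ q ∈ C, δ q ∉ C) ∧ ¬ M2 δ} : ℝ) := by
    exact_mod_cast hle
  refine hle'.trans ((add_le_add hc1 hc2).trans (le_of_eq ?_))
  ring

end general

end RNF40
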