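import Pool.Agent.Lib_helper40.RNF.Defs
import Pool.Agent.Lib_helper40.RND.RK
import Pool.Agent.Lib_helper40.GF.Auto

set_option autoImplicit false
set_option linter.unusedSectionVars false

/-! Block FD: the events imply the hypotheses of the criterion. -/

namespace RNF40

open Equiv Equiv.Perm RND40 GF40 GF40.Sys

lemma fd_ai {Q : Type*} (e : Perm Q) (x : Q) : e (e⁻¹ x) = x := e.apply_symm_apply x
lemma fd_ia {Q : Type*} (e : Perm Q) (x : Q) : e⁻¹ (e x) = x := e.symm_apply_apply x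

section aux

variable {F Q : Type*} [Group F] [Fintype Q] [DecidableEq Q]

lemma fd_H2_aux (h6 : 6 ≤ Fintype.card Q) (S : Sys F Q) (b : Bool) (K v : F) (x : Q)
    (G : Subgroup (Perm Q)) (hG : G ≤ (S.ρ b).range) (hprim : MulAction.IsPreprimitive G Q)
    (hK : S.ρ b K ∈ G) (hv : S.ρ b v ∈ G)
    (h3 : (S.ρ b K).support ∩ (S.ρ b (v * K * v⁻¹)).support = {x})
    (hd : Perm.Disjoint (S.ρ (!b) K) (S.ρ (!b) (v * K * v⁻¹))) :
    ∀ s ∈ alternatingGroup Q, ∃ w, S.ρ (!b) w = 1 ∧ S.ρ b w = s := by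
  have h3c := isThreeCycle_commutator _ _ x h3
  set c : F := K * (v * K * v⁻¹) * K⁻¹ * (v * K * v⁻¹)⁻¹ with hc
  have hcb : S.ρ b c = S.ρ b K * S.ρ b (v * K * v⁻¹) * (S.ρ b K)⁻¹ * (S.ρ b (v * K * v⁻¹))⁻¹ := by
    rw [hc, map_mul, map_mul, map_mul, map_inv, map_inv]
  have hcG : S.ρ b c ∈ G := by
    rw [hcb, map_mul, map_mul, map_inv]
    have h1 : S.ρ b v * S.ρ b K * (S.ρ b v)⁻¹ ∈ G := G.mul_mem (G.mul_mem hv hK) (G.inv_mem hv)
    exact G.mul_mem (G.mul_mem (G.mul_mem hK h1) (G.inv_mem hK)) (G.inv_mem h1)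
  have halt : alternatingGroup Q ≤ G := by
    apply Equiv.Perm.alternatingGroup_le_of_isPreprimitive_of_isThreeCycle_mem hprim
      (g := S.ρ b c) _ hcG
    rw [hcb]
    exact h3c
  have hcm : S.ρ (!b) c = 1 := by
    rw [hc, map_mul, map_mul, map_mul, map_inv, map_inv, hd.commute.eq]
    group
  have key := normal_alt (by omega) ((S.ρ (!b)).ker.map (S.ρ b)) (by
    intro t ht h hh
    obtain ⟨w, hw, rfl⟩ := hh
    obtain ⟨u, rfl⟩ := hG (halt ht)
    refine ⟨u * w * u⁻¹, ?_, by simp⟩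
    exact (inferInstance : (S.ρ (!b)).ker.Normal).conj_mem w hw u)
  rcases key with hb | ht
  · exfalso
    have h1 : S.ρ b c ∈ (S.ρ (!b)).ker.map (S.ρ b) := ⟨c, hcm, rfl⟩
    rw [hb, Subgroup.mem_bot] at h1
    rw [hcb] at h1
    exact h3c.ne_one h1
  · intro s hs
    obtain ⟨w, hw, hws⟩ := ht hs
    exact ⟨w, hw, hws⟩

variable (S : Sys F Q)

lemma fd_ls_inv (g : F) (y : Lt Q) : S.ls g⁻¹ y = (S.ls g (S.la g⁻¹ y))⁻¹ := by
  have h1 := S.ls_mul g g⁻¹ y
  rw [mul_inv_cancel, S.ls_one] at h1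
  exact eq_inv_of_mul_eq_one_right h1.symm

lemma fd_pow (g : F) (θ : Q → ℤ) (hs : ∀ y : Lt Q, S.ls g y = g ^ (θ y.2))
    (hθ : ∀ s q, θ (S.ρ s g q) = θ q) (n : ℕ) :
    (∀ y : Lt Q, S.ls (g ^ n) y = (g ^ n) ^ (θ y.2)) ∧ (∀ s q, θ (S.ρ s (g ^ n) q) = θ q) := by
  induction n with
  | zero => simp [S.ls_one]
  | succ n ih =>
    obtain ⟨h1, h2⟩ := ih
    refine ⟨fun y => ?_, fun s q => ?_⟩
    · rw [pow_succ, S.ls_mul, h1, hs y]
      simp only [la_snd, hθ]
      rw [← zpow_natCast g n, ← zpow_mul, ← zpow_add, ← zpow_add_one, ← zpow_mul]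
      congr 1
      ring
    · rw [pow_succ, map_mul, Perm.mul_apply, h2, hθ]

lemma fd_pow_inv (g : F) (θ : Q → ℤ) (hs : ∀ y : Lt Q, S.ls g y = g ^ (θ y.2))
    (hθ : ∀ s q, θ (S.ρ s g q) = θ q) (y : Lt Q) : S.ls g⁻¹ y = g ^ (-(θ y.2)) := by
  rw [fd_ls_inv, hs, zpow_neg]
  congr 2
  have h1 := hθ y.1 (S.ρ y.1 g⁻¹ y.2)
  rw [← Perm.mul_apply, ← map_mul, mul_inv_cancel, map_one, Perm.one_apply] at h1
  simp only [la_snd]
  exact h1.symm

end aux

section main

variable {Q : Type*} [Fintype Q] [DecidableEq Q] (p : Q → Prop) [DecidablePred p]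
  (δ a b : Perm Q)

/-- transitions -/
def Dt (δ a b : Perm Q) (x : Fin 2) : Perm Q := if x = 0 then δ else δ * (a * b)

/-- outputs -/
def Ot (q : Q) : Perm (Fin 2) := if p q then swap 0 1 else 1

variable {p δ a b}

lemma fd_pa (ha : ∀ q, ¬ p q → a q = q) (q : Q) : p (a q) ↔ p q := by
  by_cases h : p q
  · simp only [h, iff_true]
    by_contra h'
    have h1 := ha _ h'
    have h2 := a.injective h1
    rw [h2] at h'
    exact h' h
  · rw [ha q h]

lemma fd_pb (hb : ∀ q, p q → b q = q) (q : Q) : p (b q) ↔ p q := by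
  by_cases h : p q
  · rw [hb q h]
  · simp only [h, iff_false]
    intro h'
    have h1 := hb _ h'
    have h2 := b.injective h1
    rw [h2] at h'
    exact h h'

lemma fd_comm (ha : ∀ q, ¬ p q → a q = q) (hb : ∀ q, p q → b q = q) : Commute a b := by
  show a * b = b * a
  ext q
  rw [Perm.mul_apply, Perm.mul_apply]
  by_cases h : p q
  · rw [hb q h, hb _ ((fd_pa ha q).2 h)]
  · rw [ha q h, ha _ (fun h' => h ((fd_pb hb q).1 h'))]

lemma fd_m0 (hb : ∀ q, p q → b q = q) (ha : ∀ q, ¬ p q → a q = q) (q : Q) :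
    Dt δ a b ((Ot p q)⁻¹ 0) q = (δ * a) q := by
  unfold Dt Ot
  by_cases h : p q
  · simp [h, hb q h]
  · simp [h, ha q h]

lemma fd_m1 (hb : ∀ q, p q → b q = q) (ha : ∀ q, ¬ p q → a q = q) (q : Q) :
    Dt δ a b ((Ot p q)⁻¹ 1) q = (δ * b) q := by
  unfold Dt Ot
  by_cases h : p q
  · simp [h, hb q h]
  · have h1 : a (b q) = b q := ha _ (fun h' => h ((fd_pb hb q).1 h'))
    simp [h, h1]

lemma fd_bir (ha : ∀ q, ¬ p q → a q = q) (hb : ∀ q, p q → b q = q) :
    ∀ y : Fin 2, Function.Bijective (fun q => Dt δ a b ((Ot p q)⁻¹ y) q) := by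
  intro y
  fin_cases y
  · have : (fun q => Dt δ a b ((Ot p q)⁻¹ 0) q) = (δ * a : Perm Q) := by
      funext q; exact fd_m0 hb ha q
    show Function.Bijective (fun q => Dt δ a b ((Ot p q)⁻¹ 0) q)
    rw [this]
    exact Equiv.bijective _
  · have : (fun q => Dt δ a b ((Ot p q)⁻¹ 1) q) = (δ * b : Perm Q) := by
      funext q; exact fd_m1 hb ha q
    show Function.Bijective (fun q => Dt δ a b ((Ot p q)⁻¹ 1) q)
    rw [this]
    exact Equiv.bijective _

variable (ha : ∀ q, ¬ p q → a q = q) (hb : ∀ q, p q → b q = q)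

/-- the system -/
noncomputable def fdS : Sys (FreeGroup (Fin 2)) Q :=
  autoSys (Dt δ a b) (Ot p) (fd_bir (δ := δ) ha hb)

/-- the sign of a state -/
def eps (p : Q → Prop) [DecidablePred p] (q : Q) : ℤ := if p q then -1 else 1

lemma fd_r0 (s : Bool) : (fdS (δ := δ) ha hb).ρ s (FreeGroup.of 0) = if s then δ else δ * a := by
  show FreeGroup.lift _ _ = _
  rw [FreeGroup.lift_apply_of]
  cases s
  · ext q
    exact fd_m0 hb ha q
  · rfl

lemma fd_r1 (s : Bool) :
    (fdS (δ := δ) ha hb).ρ s (FreeGroup.of 1) = if s then δ * (a * b) else δ * b := by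
  show FreeGroup.lift _ _ = _
  rw [FreeGroup.lift_apply_of]
  cases s
  · ext q
    exact fd_m1 hb ha q
  · rfl

lemma fd_s0 (y : Lt Q) : (fdS (δ := δ) ha hb).ls (FreeGroup.of 0) y =
    if p y.2 then FreeGroup.of 1 else FreeGroup.of 0 := by
  have h := ls_of (Dt δ a b) (Ot p) (fd_bir (δ := δ) ha hb) y 0
  unfold fdS
  rw [h]
  obtain ⟨s, q⟩ := y
  cases s <;> by_cases hq : p q <;> simp [lb, Ot, hq]

lemma fd_s1 (y : Lt Q) : (fdS (δ := δ) ha hb).ls (FreeGroup.of 1) y =
    if p y.2 then FreeGroup.of 0 else FreeGroup.of 1 := by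
  have h := ls_of (Dt δ a b) (Ot p) (fd_bir (δ := δ) ha hb) y 1
  unfold fdS
  rw [h]
  obtain ⟨s, q⟩ := y
  cases s <;> by_cases hq : p q <;> simp [lb, Ot, hq]

/-- the word `κ` -/
def kap : FreeGroup (Fin 2) := (FreeGroup.of 0)⁻¹ * FreeGroup.of 1

/-- the word `r` -/
def rr : FreeGroup (Fin 2) := FreeGroup.of 1 * (FreeGroup.of 0)⁻¹

lemma fd_kap (s : Bool) : (fdS (δ := δ) ha hb).ρ s kap = if s then a * b else a⁻¹ * b := by
  unfold kap
  rw [map_mul, map_inv, fd_r0, fd_r1]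
  cases s
  · simp only [Bool.false_eq_true, if_false]; group
  · simp only [if_true]; group

lemma fd_rr (s : Bool) :
    (fdS (δ := δ) ha hb).ρ s rr = if s then δ * (a * b) * δ⁻¹ else δ * (b * a⁻¹) * δ⁻¹ := by
  unfold rr
  rw [map_mul, map_inv, fd_r0, fd_r1]
  cases s
  · simp only [Bool.false_eq_true, if_false]; group
  · simp only [if_true]

include ha hb in
lemma fd_pinv (s : Bool) (q : Q) : p ((fdS (δ := δ) ha hb).ρ s kap q) ↔ p q := by
  rw [fd_kap]
  cases s
  · simp only [Bool.false_eq_true, if_false, Perm.mul_apply]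
    rw [← fd_pa ha (a⁻¹ (b q)), fd_ai, fd_pb hb]
  · simp only [if_true, Perm.mul_apply]
    rw [fd_pa ha, fd_pb hb]

lemma fd_kap_eps (s : Bool) (q : Q) : eps p ((fdS (δ := δ) ha hb).ρ s kap q) = eps p q := by
  unfold eps
  simp only [fd_pinv ha hb s q]

lemma fd_kap_ls (y : Lt Q) : (fdS (δ := δ) ha hb).ls kap y = kap ^ (eps p y.2) := by
  set S := fdS (δ := δ) ha hb with hS
  have h1 : S.ls kap y = (S.ls (FreeGroup.of 0) (S.la kap y))⁻¹ * S.ls (FreeGroup.of 1) y := by
    conv_lhs => unfold kap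
    rw [S.ls_mul, fd_ls_inv, ← S.la_mul]
    rfl
  rw [h1, hS, fd_s0, fd_s1]
  simp only [la_snd, fd_pinv ha hb]
  unfold eps
  by_cases h : p y.2
  · simp only [h, if_true]
    unfold kap
    group
  · simp only [h, if_false]
    unfold kap
    group

lemma fd_rr_eps (s : Bool) (q : Q) :
    eps p (δ⁻¹ ((fdS (δ := δ) ha hb).ρ s rr q)) = eps p (δ⁻¹ q) := by
  rw [fd_rr]
  have h1 : ∀ q', p (a⁻¹ q') ↔ p q' := by
    intro q'
    rw [← fd_pa ha (a⁻¹ q'), fd_ai]
  unfold eps
  cases s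
  · simp only [Bool.false_eq_true, if_false, Perm.mul_apply, fd_ia, fd_pb hb, h1]
  · simp only [if_true, Perm.mul_apply, fd_ia, fd_pa ha, fd_pb hb]

lemma fd_rr_ls (y : Lt Q) : (fdS (δ := δ) ha hb).ls rr y = rr ^ (eps p (δ⁻¹ y.2)) := by
  set S := fdS (δ := δ) ha hb with hS
  have h1 : S.ls rr y = S.ls (FreeGroup.of 1) (S.la (FreeGroup.of 0)⁻¹ y) *
      (S.ls (FreeGroup.of 0) (S.la (FreeGroup.of 0)⁻¹ y))⁻¹ := by
    conv_lhs => unfold rr
    rw [S.ls_mul, fd_ls_inv]
  have h2 : p ((S.la (FreeGroup.of 0)⁻¹ y).2) ↔ p (δ⁻¹ y.2) := by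
    simp only [la_snd, map_inv, hS, fd_r0]
    cases y.1
    · simp only [Bool.false_eq_true, if_false, mul_inv_rev, Perm.mul_apply]
      rw [← fd_pa ha (a⁻¹ (δ⁻¹ y.2)), fd_ai]
    · simp only [if_true]
  rw [h1, hS, fd_s0, fd_s1, ← hS]
  simp only [h2]
  unfold eps
  by_cases h : p (δ⁻¹ y.2)
  · simp only [h, if_true]
    unfold rr
    group
  · simp only [h, if_false]
    unfold rr
    group

/-- The events imply the two hypotheses of the criterion. -/
theorem fd_H2 (h6 : 6 ≤ Fintype.card Q) (hE : Evt p δ a b) : (fdS (δ := δ) ha hb).H2 := by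
  obtain ⟨N, x, hbN, hcard, hCp, hCδ, hx2, hj1, hj2, hM1, hM2, hP1, hP2⟩ := hE
  set S := fdS (δ := δ) ha hb with hS
  set K : FreeGroup (Fin 2) := kap ^ N with hK
  have hcomm := fd_comm ha hb
  have hKt : S.ρ true K = a ^ N := by
    rw [hK, map_pow, hS, fd_kap]
    simp only [if_true]
    rw [hcomm.mul_pow, hbN, mul_one]
  have hKf : S.ρ false K = (a ^ N)⁻¹ := by
    rw [hK, map_pow, hS, fd_kap]
    simp only [Bool.false_eq_true, if_false]
    rw [(hcomm.inv_left).mul_pow, hbN, mul_one, inv_pow]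
  set C := (a ^ N).support with hC
  have haC : ∀ q, a q ∈ C ↔ q ∈ C := by
    intro q
    rw [hC, Perm.mem_support, Perm.mem_support]
    have e1 : (a ^ N) (a q) = a ((a ^ N) q) := by
      rw [← Perm.mul_apply, ← Perm.mul_apply, ← pow_succ, ← pow_succ']
    rw [e1]
    exact (a.injective.ne_iff)
  have hvt : ∀ i : ℤ, S.ρ true (FreeGroup.of 0 * kap ^ i * FreeGroup.of 0) =
      δ * (a * b) ^ i * δ := by
    intro i
    rw [map_mul, map_mul, map_zpow, hS, fd_kap, fd_r0]
    simp only [if_true]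
  have hvf : ∀ i : ℤ, S.ρ false (FreeGroup.of 0 * kap ^ i * FreeGroup.of 0) =
      δ * (a ^ (1 - i) * b ^ i) * (δ * a) := by
    intro i
    rw [map_mul, map_mul, map_zpow, hS, fd_kap, fd_r0]
    simp only [Bool.false_eq_true, if_false]
    rw [(hcomm.inv_left).mul_zpow]
    have : a * (a⁻¹ ^ i * b ^ i) = a ^ (1 - i) * b ^ i := by
      rw [← mul_assoc, inv_zpow', ← zpow_one_add]
      rfl
    rw [mul_assoc δ a, this]
  -- supports of conjugates
  have hsupp : ∀ (v g : Perm Q) (z : Q), z ∈ (v * g * v⁻¹).support ↔ v⁻¹ z ∈ g.support := by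
    intro v g z
    rw [Perm.mem_support, Perm.mem_support]
    rw [Perm.mul_apply, Perm.mul_apply]
    constructor
    · intro h h'
      apply h
      rw [h', fd_ai]
    · intro h h'
      apply h
      apply v.injective
      rw [h', fd_ai]
  intro s
  cases s
  · -- minus side: second intersection event
    obtain ⟨i, hi1, hi2⟩ := hM2
    obtain ⟨y, hy⟩ := Finset.card_eq_one.1 hi1
    set v : FreeGroup (Fin 2) := FreeGroup.of 0 * kap ^ i * FreeGroup.of 0 with hv
    have h1 : ∀ z, z ∈ (S.ρ false (v * K * v⁻¹)).support ↔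
        ∃ c ∈ C, δ ((a ^ (1 - i) * b ^ i) (δ c)) = z := by
      intro z
      rw [map_mul, map_mul, map_inv, hsupp, hKf, Perm.support_inv, ← hC, hv, hvf]
      constructor
      · intro h
        refine ⟨a ((δ * (a ^ (1 - i) * b ^ i) * (δ * a))⁻¹ z), (haC _).2 h, ?_⟩
        have := fd_ai (δ * (a ^ (1 - i) * b ^ i) * (δ * a)) z
        simpa only [Perm.mul_apply] using this
      · rintro ⟨c, hc, rfl⟩
        rw [← haC]
        have : (δ * (a ^ (1 - i) * b ^ i) * (δ * a))⁻¹ (δ ((a ^ (1 - i) * b ^ i) (δ c))) = a⁻¹ c := by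
          rw [Perm.inv_eq_iff_eq]
          simp only [Perm.mul_apply, fd_ai]
        rw [this, fd_ai]
        exact hc
    have h2 : ∀ z, z ∈ (S.ρ true (v * K * v⁻¹)).support ↔
        ∃ c ∈ C, δ (((a * b) ^ i) (δ c)) = z := by
      intro z
      rw [map_mul, map_mul, map_inv, hsupp, hKt, ← hC, hv, hvt]
      constructor
      · intro h
        refine ⟨_, h, ?_⟩
        have := fd_ai (δ * (a * b) ^ i * δ) z
        simpa only [Perm.mul_apply] using this
      · rintro ⟨c, hc, rfl⟩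
        have : (δ * (a * b) ^ i * δ)⁻¹ (δ (((a * b) ^ i) (δ c))) = c := by
          rw [Perm.inv_eq_iff_eq]
          simp only [Perm.mul_apply]
        rw [this]
        exact hc
    apply fd_H2_aux h6 S false K v (δ y)
      (Subgroup.closure ({δ * a, a⁻¹ * b} : Set (Perm Q))) _ hP2
    · rw [hKf]
      have h4 : (a ^ N)⁻¹ = (a⁻¹ * b) ^ N := by
        rw [(hcomm.inv_left).mul_pow, hbN, mul_one, inv_pow]
      rw [h4]
      exact Subgroup.pow_mem _ (Subgroup.subset_closure (by simp)) N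
    · rw [hv, map_mul, map_mul, map_zpow, hS, fd_kap, fd_r0]
      simp only [Bool.false_eq_true, if_false]
      exact Subgroup.mul_mem _ (Subgroup.mul_mem _ (Subgroup.subset_closure (by simp))
        (Subgroup.zpow_mem _ (Subgroup.subset_closure (by simp)) i))
        (Subgroup.subset_closure (by simp))
    · ext z
      rw [Finset.mem_inter, h1, hKf, Perm.support_inv, ← hC, Finset.mem_singleton]
      constructor
      · rintro ⟨hz, c, hc, hcz⟩
        have h4 : δ⁻¹ z ∈ C.image (fun q => (a ^ (1 - i) * b ^ i) (δ q)) ∩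
            C.image (fun q => δ⁻¹ q) := by
          rw [Finset.mem_inter, Finset.mem_image, Finset.mem_image]
          refine ⟨⟨c, hc, ?_⟩, ⟨z, hz, rfl⟩⟩
          rw [← hcz, fd_ia]
        rw [hy, Finset.mem_singleton] at h4
        rw [← h4, fd_ai]
      · rintro rfl
        have h4 : y ∈ C.image (fun q => (a ^ (1 - i) * b ^ i) (δ q)) ∩
            C.image (fun q => δ⁻¹ q) := by
          rw [hy]; exact Finset.mem_singleton_self y
        rw [Finset.mem_inter, Finset.mem_image, Finset.mem_image] at h4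
        obtain ⟨⟨c, hc, hcy⟩, ⟨z, hz, hzy⟩⟩ := h4
        refine ⟨?_, c, hc, by rw [hcy]⟩
        rw [← hzy, fd_ai]
        exact hz
    · rw [Perm.disjoint_iff_disjoint_support, Finset.disjoint_left]
      intro z hz hz'
      simp only [Bool.not_false] at hz hz'
      rw [hKt, ← hC] at hz
      rw [h2] at hz'
      obtain ⟨c, hc, hcz⟩ := hz'
      have h4 : δ⁻¹ z ∈ C.image (fun q => ((a * b) ^ i) (δ q)) := by
        rw [Finset.mem_image]
        exact ⟨c, hc, by rw [← hcz, fd_ia]⟩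
      exact (Finset.disjoint_left.1 hi2) h4 (Finset.mem_image.2 ⟨z, hz, rfl⟩)
    · rw [Subgroup.closure_le]
      intro s hs
      rcases hs with hs | hs
      · exact ⟨FreeGroup.of 0, by rw [hS, fd_r0, hs]; simp⟩
      · exact ⟨kap, by rw [hS, fd_kap, hs]; simp⟩
  · obtain ⟨i, hi1, hi2⟩ := hM1
    obtain ⟨y, hy⟩ := Finset.card_eq_one.1 hi1
    set v : FreeGroup (Fin 2) := FreeGroup.of 0 * kap ^ i * FreeGroup.of 0 with hv
    have h1 : ∀ z, z ∈ (S.ρ false (v * K * v⁻¹)).support ↔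
        ∃ c ∈ C, δ ((a ^ (1 - i) * b ^ i) (δ c)) = z := by
      intro z
      rw [map_mul, map_mul, map_inv, hsupp, hKf, Perm.support_inv, ← hC, hv, hvf]
      constructor
      · intro h
        refine ⟨a ((δ * (a ^ (1 - i) * b ^ i) * (δ * a))⁻¹ z), (haC _).2 h, ?_⟩
        have := fd_ai (δ * (a ^ (1 - i) * b ^ i) * (δ * a)) z
        simpa only [Perm.mul_apply] using this
      · rintro ⟨c, hc, rfl⟩
        rw [← haC]
        have : (δ * (a ^ (1 - i) * b ^ i) * (δ * a))⁻¹ (δ ((a ^ (1 - i) * b ^ i) (δ c))) = a⁻¹ c := by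
          rw [Perm.inv_eq_iff_eq]
          simp only [Perm.mul_apply, fd_ai]
        rw [this, fd_ai]
        exact hc
    have h2 : ∀ z, z ∈ (S.ρ true (v * K * v⁻¹)).support ↔
        ∃ c ∈ C, δ (((a * b) ^ i) (δ c)) = z := by
      intro z
      rw [map_mul, map_mul, map_inv, hsupp, hKt, ← hC, hv, hvt]
      constructor
      · intro h
        refine ⟨_, h, ?_⟩
        have := fd_ai (δ * (a * b) ^ i * δ) z
        simpa only [Perm.mul_apply] using this
      · rintro ⟨c, hc, rfl⟩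
        have : (δ * (a * b) ^ i * δ)⁻¹ (δ (((a * b) ^ i) (δ c))) = c := by
          rw [Perm.inv_eq_iff_eq]
          simp only [Perm.mul_apply]
        rw [this]
        exact hc
    apply fd_H2_aux h6 S true K v (δ y)
      (Subgroup.closure ({δ, a * b} : Set (Perm Q))) _ hP1
    · rw [hKt]
      have h4 : a ^ N = (a * b) ^ N := by
        rw [hcomm.mul_pow, hbN, mul_one]
      rw [h4]
      exact Subgroup.pow_mem _ (Subgroup.subset_closure (by simp)) N
    · rw [hv, map_mul, map_mul, map_zpow, hS, fd_kap, fd_r0]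
      simp only [if_true]
      exact Subgroup.mul_mem _ (Subgroup.mul_mem _ (Subgroup.subset_closure (by simp))
        (Subgroup.zpow_mem _ (Subgroup.subset_closure (by simp)) i))
        (Subgroup.subset_closure (by simp))
    · ext z
      rw [Finset.mem_inter, h2, hKt, ← hC, Finset.mem_singleton]
      constructor
      · rintro ⟨hz, c, hc, hcz⟩
        have h4 : δ⁻¹ z ∈ C.image (fun q => ((a * b) ^ i) (δ q)) ∩
            C.image (fun q => δ⁻¹ q) := by
          rw [Finset.mem_inter, Finset.mem_image, Finset.mem_image]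
          refine ⟨⟨c, hc, ?_⟩, ⟨z, hz, rfl⟩⟩
          rw [← hcz, fd_ia]
        rw [hy, Finset.mem_singleton] at h4
        rw [← h4, fd_ai]
      · rintro rfl
        have h4 : y ∈ C.image (fun q => ((a * b) ^ i) (δ q)) ∩
            C.image (fun q => δ⁻¹ q) := by
          rw [hy]; exact Finset.mem_singleton_self y
        rw [Finset.mem_inter, Finset.mem_image, Finset.mem_image] at h4
        obtain ⟨⟨c, hc, hcy⟩, ⟨z, hz, hzy⟩⟩ := h4
        refine ⟨?_, c, hc, by rw [hcy]⟩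
        rw [← hzy, fd_ai]
        exact hz
    · rw [Perm.disjoint_iff_disjoint_support, Finset.disjoint_left]
      intro z hz hz'
      simp only [Bool.not_true] at hz hz'
      rw [hKf, Perm.support_inv, ← hC] at hz
      rw [h1] at hz'
      obtain ⟨c, hc, hcz⟩ := hz'
      have h4 : δ⁻¹ z ∈ C.image (fun q => (a ^ (1 - i) * b ^ i) (δ q)) := by
        rw [Finset.mem_image]
        exact ⟨c, hc, by rw [← hcz, fd_ia]⟩
      exact (Finset.disjoint_left.1 hi2) h4 (Finset.mem_image.2 ⟨z, hz, rfl⟩)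
    · rw [Subgroup.closure_le]
      intro s hs
      rcases hs with hs | hs
      · exact ⟨FreeGroup.of 0, by rw [hS, fd_r0, hs]; simp⟩
      · exact ⟨kap, by rw [hS, fd_kap, hs]; simp⟩

lemma fd_exists_step (P : ℕ → Prop) (h1 : ∃ j, P j) (h2 : ∃ j, ¬ P j) :
    ∃ j, (P j ↔ ¬ P (j + 1)) := by
  by_contra hcon
  push Not at hcon
  have h3 : ∀ j, (P j ↔ P (j + 1)) := by
    intro j
    have := hcon j
    tauto
  have h4 : ∀ j, (P j ↔ P 0) := by
    intro j
    induction j with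
    | zero => exact Iff.rfl
    | succ j ih => rw [← h3 j]; exact ih
  obtain ⟨j, hj⟩ := h1
  obtain ⟨i, hi⟩ := h2
  exact hi ((h4 i).2 ((h4 j).1 hj))

theorem fd_H3 (hE : Evt p δ a b) : (fdS (δ := δ) ha hb).H3 := by
  obtain ⟨N, x, hbN, hcard, hCp, hCδ, hx2, hj1, hj2, -, -, -, -⟩ := hE
  set S := fdS (δ := δ) ha hb with hS
  set K : FreeGroup (Fin 2) := kap ^ N with hK
  set R : FreeGroup (Fin 2) := rr ^ N with hR
  have hcomm := fd_comm ha hb
  set g := a ^ N with hg
  set C := g.support with hC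
  -- actions
  have hKρ : ∀ s : Bool, S.ρ s K = if s then g else g⁻¹ := by
    intro s
    rw [hK, map_pow, hS, fd_kap]
    cases s
    · simp only [Bool.false_eq_true, if_false]
      rw [(hcomm.inv_left).mul_pow, hbN, mul_one, inv_pow]
    · simp only [if_true]
      rw [hcomm.mul_pow, hbN, mul_one]
  have hRρ : ∀ s : Bool, S.ρ s R = δ * (S.ρ s K) * δ⁻¹ := by
    intro s
    rw [hKρ, hR, map_pow, hS, fd_rr]
    cases s
    · simp only [Bool.false_eq_true, if_false]
      rw [conj_pow, (hcomm.symm.inv_right).mul_pow, hbN, one_mul, inv_pow]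
    · simp only [if_true]
      rw [conj_pow, hcomm.mul_pow, hbN, mul_one]
  -- sections
  have hKl := fd_pow S kap (eps p) (fun y => fd_kap_ls ha hb y) (fun s q => fd_kap_eps ha hb s q) N
  have hRl := fd_pow S rr (fun q => eps p (δ⁻¹ q)) (fun y => fd_rr_ls ha hb y)
    (fun s q => fd_rr_eps ha hb s q) N
  rw [← hK] at hKl
  rw [← hR] at hRl
  obtain ⟨hKl, hKe⟩ := hKl
  obtain ⟨hRl, hRe⟩ := hRl
  -- supports
  have hKs : ∀ (s : Bool) (q : Q), S.ρ s K q ≠ q ↔ q ∈ C := by
    intro s q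
    rw [hKρ, hC, Perm.mem_support]
    cases s
    · simp only [Bool.false_eq_true, if_false]
      rw [not_iff_not, Perm.inv_eq_iff_eq]
      exact eq_comm
    · simp only [if_true]
  have hRs : ∀ (s : Bool) (q : Q), S.ρ s R q ≠ q ↔ δ⁻¹ q ∈ C := by
    intro s q
    rw [hRρ, ← hKs s, not_iff_not]
    simp only [Perm.mul_apply]
    constructor
    · intro h
      apply δ.injective
      rw [h, fd_ai]
    · intro h
      rw [h, fd_ai]
  have hKC : ∀ (s : Bool) (q : Q), q ∈ C → S.ρ s K⁻¹ q ∈ C := by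
    intro s q hq
    rw [← hKs s] at hq ⊢
    intro h
    apply hq
    rw [map_inv, fd_ai] at h
    have h2 : S.ρ s K q = S.ρ s K ((S.ρ s K)⁻¹ q) := by rw [← h]
    rw [fd_ai] at h2
    exact h2
  have hdisj : ∀ q, q ∈ C → δ⁻¹ q ∉ C := by
    intro q hq h
    have := hCδ _ h
    rw [fd_ai] at this
    exact this hq
  have hcommKR : ∀ s : Bool, Commute (S.ρ s K) (S.ρ s R) := by
    intro s
    apply Perm.Disjoint.commute
    intro q
    by_cases h : S.ρ s K q = q
    · left; exact h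
    · right
      by_contra h'
      exact hdisj q ((hKs s q).1 h) ((hRs s q).1 h')
  -- the element
  set h := K * (R * (K⁻¹ * R⁻¹)) with hh
  have hN : h ∈ S.N := by
    rw [S.mem_N]
    intro s
    rw [hh, map_mul, map_mul, map_mul, map_inv, map_inv]
    rw [← mul_assoc, ← mul_assoc, (hcommKR s).eq]
    group
  have hKi : ∀ y : Lt Q, S.ls K⁻¹ y = K ^ (-(eps p y.2)) := fun y =>
    fd_pow_inv S K (eps p) hKl hKe y
  have hRi : ∀ y : Lt Q, S.ls R⁻¹ y = R ^ (-(eps p (δ⁻¹ y.2))) := fun y =>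
    fd_pow_inv S R (fun q => eps p (δ⁻¹ q)) hRl hRe y
  have hsec : ∀ (s : Bool) (q : Q), S.ls h (s, q) =
      K ^ (eps p (S.ρ s R (S.ρ s K⁻¹ (S.ρ s R⁻¹ q)))) *
      (R ^ (eps p (δ⁻¹ (S.ρ s K⁻¹ (S.ρ s R⁻¹ q)))) *
      (K ^ (-(eps p (S.ρ s R⁻¹ q))) * R ^ (-(eps p (δ⁻¹ q))))) := by
    intro s q
    rw [hh, S.ls_mul, S.ls_mul, S.ls_mul, hKl, hRl, hKi, hRi]
    simp only [S.la_mul, la_snd, la_fst]
  intro s e
  refine ⟨h, hN, ?_⟩
  -- a state outside both supports
  obtain ⟨q1, hq1, hq1'⟩ : ∃ q, q ∉ C ∧ δ⁻¹ q ∉ C := by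
    by_contra hcon
    push Not at hcon
    have h1 : (Finset.univ : Finset Q) ⊆ C ∪ C.image δ := by
      intro q _
      rw [Finset.mem_union]
      by_cases hq : q ∈ C
      · left; exact hq
      · right
        exact Finset.mem_image.2 ⟨δ⁻¹ q, hcon q hq, fd_ai _ _⟩
    have h2 := Finset.card_le_card h1
    have h4 := Finset.card_union_le C (C.image δ)
    have h5 : (C.image δ).card ≤ C.card := Finset.card_image_le
    rw [Finset.card_univ] at h2
    omega
  -- a state of the support where the side changes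
  obtain ⟨q2, hq2, hside⟩ : ∃ q ∈ C, (p (δ⁻¹ q) ↔ ¬ p (δ⁻¹ (S.ρ s K⁻¹ q))) := by
    obtain ⟨j, hj⟩ := fd_exists_step (fun j => p (δ⁻¹ ((g ^ j) x))) hj1 hj2
    have hxC : x ∈ C := by
      rw [hC, Perm.mem_support]
      intro hx
      apply hx2
      rw [hx, hx]
    have hjC : ∀ j : ℕ, (g ^ j) x ∈ C := by
      intro j
      rw [hC, Perm.pow_apply_mem_support]
      exact hxC
    cases s
    · refine ⟨(g ^ j) x, hjC j, ?_⟩
      rw [map_inv, hKρ]
      simp only [Bool.false_eq_true, if_false, inv_inv]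
      have h1 : g ((g ^ j) x) = (g ^ (j + 1)) x := by
        rw [← Perm.mul_apply, ← pow_succ']
      rw [h1]
      exact hj
    · refine ⟨(g ^ (j + 1)) x, hjC (j + 1), ?_⟩
      rw [map_inv, hKρ]
      simp only [if_true]
      have h1 : g⁻¹ ((g ^ (j + 1)) x) = (g ^ j) x := by
        rw [pow_succ', Perm.mul_apply, fd_ia]
      rw [h1]
      tauto
  refine ⟨q1, q2, ?_, ?_⟩
  · have hr : S.ρ s R⁻¹ q1 = q1 := by
      rw [map_inv, Perm.inv_eq_iff_eq]
      by_contra h'
      exact hq1' ((hRs s q1).1 (fun h'' => h' h''.symm))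
    have hr' : S.ρ s R q1 = q1 := by
      by_contra h'
      exact hq1' ((hRs s q1).1 h')
    have hk : S.ρ s K⁻¹ q1 = q1 := by
      rw [map_inv, Perm.inv_eq_iff_eq]
      by_contra h'
      exact hq1 ((hKs s q1).1 (fun h'' => h' h''.symm))
    have h1 := hsec s q1
    rw [hr, hk, hr'] at h1
    have h2 : S.sc s h q1 = S.ls h (s, q1) := rfl
    rw [h2, h1, map_mul, map_mul, map_mul, map_zpow, map_zpow, map_zpow, map_zpow]
    have hc := ((hcommKR e).zpow_left (eps p q1)).zpow_right (eps p (δ⁻¹ q1))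
    rw [← mul_assoc, ← mul_assoc, hc.eq, zpow_neg, zpow_neg]
    group
  · have hr : S.ρ s R⁻¹ q2 = q2 := by
      rw [map_inv, Perm.inv_eq_iff_eq]
      by_contra h'
      exact hdisj q2 hq2 ((hRs s q2).1 (fun h'' => h' h''.symm))
    set q3 := S.ρ s K⁻¹ q2 with hq3
    have hq3C : q3 ∈ C := hKC s q2 hq2
    have hr' : S.ρ s R q3 = q3 := by
      by_contra h'
      exact hdisj q3 hq3C ((hRs s q3).1 h')
    have h1 := hsec s q2
    rw [hr, ← hq3, hr'] at h1
    have hp2 : eps p q2 = -1 := by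
      unfold eps
      rw [if_pos (hCp q2 hq2)]
    have hp3 : eps p q3 = -1 := by
      unfold eps
      rw [if_pos (hCp q3 hq3C)]
    have h2 : S.sc s h q2 = S.ls h (s, q2) := rfl
    rw [h2, h1, hp2, hp3, map_mul, map_mul, map_mul, map_zpow, map_zpow, map_zpow, map_zpow]
    -- the value is `ρ e R ^ (e2 - e1)`
    set e2 := eps p (δ⁻¹ q3) with he2
    set e1 := eps p (δ⁻¹ q2) with he1
    have hc := ((hcommKR e).zpow_left (-1)).zpow_right e2
    have h3 : S.ρ e K ^ (-1 : ℤ) * (S.ρ e R ^ e2 * (S.ρ e K ^ (-(-1 : ℤ)) * S.ρ e R ^ (-e1))) =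
        S.ρ e R ^ (e2 - e1) := by
      rw [← mul_assoc, ← mul_assoc, hc.eq, sub_eq_add_neg, zpow_add]
      group
    rw [h3]
    -- the square of `g` is not trivial
    have hsq : ∀ e : Bool, S.ρ e R ^ (2 : ℤ) ≠ 1 := by
      intro e hone
      have h4 : (S.ρ e K) ^ (2 : ℤ) = 1 := by
        rw [hRρ, conj_zpow] at hone
        have h5 := congrArg (fun t => δ⁻¹ * t * δ) hone
        simpa [mul_assoc] using h5
      have h5 : g * g = 1 := by
        rw [hKρ] at h4
        cases e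
        · simp only [Bool.false_eq_true, if_false] at h4
          have h6 : (g * g)⁻¹ = 1 := by
            rw [mul_inv_rev, ← h4, zpow_ofNat, pow_two]
          exact inv_eq_one.1 h6
        · simp only [if_true] at h4
          rw [← h4, zpow_ofNat, pow_two]
      apply hx2
      rw [← Perm.mul_apply, h5, Perm.one_apply]
    have hcases : e2 - e1 = 2 ∨ e2 - e1 = -2 := by
      by_cases h4 : p (δ⁻¹ q2)
      · have h5 : ¬ p (δ⁻¹ q3) := hside.1 h4
        left
        rw [he1, he2]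
        unfold eps
        rw [if_pos h4, if_neg h5]
        norm_num
      · have h5 : p (δ⁻¹ q3) := by
          by_contra h5
          exact h4 (hside.2 h5)
        right
        rw [he1, he2]
        unfold eps
        rw [if_neg h4, if_pos h5]
        norm_num
    rcases hcases with h4 | h4
    · rw [h4]; exact hsq e
    · rw [h4]
      intro h5
      apply hsq e
      have h6 : S.ρ e R ^ (-2 : ℤ) = (S.ρ e R ^ (2 : ℤ))⁻¹ := by
        rw [← zpow_neg]
      rw [h6] at h5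
      exact inv_eq_one.1 h5

end main

end RNF40
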