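import Mathlib
import Pool.Agent.Lib_helper40.RNF.Defs
import Pool.Agent.Lib_helper40.RND.RE2
import Pool.Agent.Lib_helper40.RND.TT
import Pool.Agent.Lib_helper40.RND.RB
import Pool.Agent.Lib_helper40.RNF.FA
import Pool.Agent.Lib_helper40.RNF.FB

set_option autoImplicit false

namespace RNF40

open Equiv Equiv.Perm RND40

section general

variable {α : Type*} [Fintype α] [DecidableEq α]

/-! ### stubs of the blocks FA, FB -/


/-! ### block FE -/

private theorem FE_ncyc_sum (n : ℕ) (h : Fintype.card α ≤ n) (hn : 1 ≤ n) :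
    ∑ s : Perm α, (ncyc s : ℝ) ≤
      ((Fintype.card α).factorial : ℝ) * (1 + Real.log (n : ℝ)) := by
  have hlog : 0 ≤ Real.log (n : ℝ) := Real.log_nonneg (by exact_mod_cast hn)
  rcases Nat.eq_zero_or_pos (Fintype.card α) with h0 | h0
  · have hE : IsEmpty α := Fintype.card_eq_zero_iff.1 h0
    have h1 : ∀ s : Perm α, (ncyc s : ℝ) = 0 := by
      intro s
      rw [ncyc_eq_sum]
      exact Finset.sum_eq_zero fun x _ => (hE.false x).elim
    rw [Finset.sum_congr rfl fun s _ => h1 s, Finset.sum_const_zero]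
    positivity
  · refine (sum_ncyc_le h0).trans ?_
    have h2 : Real.log (Fintype.card α : ℝ) ≤ Real.log (n : ℝ) :=
      Real.log_le_log (by exact_mod_cast h0) (by exact_mod_cast h)
    gcongr

private theorem FE_dvd (q w n : ℕ) (hw : 1 ≤ w) (hq : w ≤ q) (h : Fintype.card α ≤ n)
    (hn : 1 ≤ n) :
    (Nat.card {s : Perm α // ∃ y, q ∣ len s y} : ℝ) ≤
      ((Fintype.card α).factorial : ℝ) * ((1 + Real.log (n : ℝ)) / (w : ℝ)) := by
  have hlog : 0 ≤ Real.log (n : ℝ) := Real.log_nonneg (by exact_mod_cast hn)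
  rcases Nat.eq_zero_or_pos (Fintype.card α) with h0 | h0
  · have hE : IsEmpty α := Fintype.card_eq_zero_iff.1 h0
    have h1 : IsEmpty {s : Perm α // ∃ y, q ∣ len s y} :=
      ⟨fun s => by
        obtain ⟨y, -⟩ := s.2
        exact hE.false y⟩
    rw [Nat.card_eq_zero.2 (Or.inl h1)]
    push_cast
    positivity
  · refine (card_dvd_len q w hw hq h0).trans ?_
    have h2 : Real.log (Fintype.card α : ℝ) ≤ Real.log (n : ℝ) :=
      Real.log_le_log (by exact_mod_cast h0) (by exact_mod_cast h)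
    gcongr

private theorem FE_card {γ : Type*} [Fintype γ] (Q : γ → Prop) [DecidablePred Q] :
    (Nat.card {s : γ // Q s} : ℝ) = ∑ s : γ, if Q s then (1 : ℝ) else 0 := by
  rw [Nat.card_eq_fintype_card, Fintype.card_subtype, Finset.sum_boole]

/-- the counting argument -/
private theorem FE_count {β : Type*} [Fintype β] [DecidableEq β]
    (Good : Perm α → Perm β → Prop) (S : Perm α → Prop) (Q : Perm α → ℕ) (c w n : ℕ)
    (hc : 1 ≤ c) (hw : 1 ≤ w) (hn : 1 ≤ n) (ha : Fintype.card α ≤ n) (hb : Fintype.card β ≤ n)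
    (hQ : ∀ s, S s → w ≤ Q s)
    (hG : ∀ s1 s2, S s1 → ncyc s1 + ncyc s2 ≤ c → (∀ y, ¬ Q s1 ∣ len s2 y) → Good s1 s2)
    (δ : ℝ) (hδ : (Nat.card {s : Perm α // ¬ S s} : ℝ) ≤ ((Fintype.card α).factorial : ℝ) * δ) :
    (Nat.card {s : Perm α × Perm β // ¬ Good s.1 s.2} : ℝ) ≤
      (((Fintype.card α).factorial : ℝ) * ((Fintype.card β).factorial : ℝ)) *
        (2 * (1 + Real.log (n : ℝ)) / (c : ℝ) + δ + (1 + Real.log (n : ℝ)) / (w : ℝ)) := by
  classical
  have hlog : 0 ≤ Real.log (n : ℝ) := Real.log_nonneg (by exact_mod_cast hn)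
  have hc0 : (0 : ℝ) < c := by exact_mod_cast hc
  have hw0 : (0 : ℝ) < w := by exact_mod_cast hw
  rw [FE_card]
  have key : ∀ s : Perm α × Perm β, (if ¬ Good s.1 s.2 then (1 : ℝ) else 0) ≤
      ((ncyc s.1 : ℝ) / c + (ncyc s.2 : ℝ) / c) + (if ¬ S s.1 then (1 : ℝ) else 0) +
        (if S s.1 ∧ ∃ y, Q s.1 ∣ len s.2 y then (1 : ℝ) else 0) := by
    rintro ⟨s1, s2⟩
    dsimp only
    have h1 : (0 : ℝ) ≤ (ncyc s1 : ℝ) / c + (ncyc s2 : ℝ) / c := by positivity
    have h2 : (0 : ℝ) ≤ (if ¬ S s1 then (1 : ℝ) else 0) := by split_ifs <;> norm_num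
    have h3 : (0 : ℝ) ≤ (if S s1 ∧ ∃ y, Q s1 ∣ len s2 y then (1 : ℝ) else 0) := by
      split_ifs <;> norm_num
    by_cases hg : Good s1 s2
    · rw [if_neg (not_not.2 hg)]
      linarith
    · rw [if_pos hg]
      by_cases hs : S s1
      · by_cases hq : ∃ y, Q s1 ∣ len s2 y
        · rw [if_pos (⟨hs, hq⟩ : S s1 ∧ ∃ y, Q s1 ∣ len s2 y)]
          linarith
        · have h4 : c < ncyc s1 + ncyc s2 := by
            by_contra hcon
            push Not at hcon hq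
            exact hg (hG s1 s2 hs hcon hq)
          have h5 : (c : ℝ) ≤ (ncyc s1 : ℝ) + ncyc s2 := by exact_mod_cast h4.le
          have h6 : (1 : ℝ) ≤ (ncyc s1 : ℝ) / c + (ncyc s2 : ℝ) / c := by
            rw [← add_div, one_le_div hc0]
            exact h5
          linarith
      · rw [if_pos hs]
        linarith
  refine (Finset.sum_le_sum fun s _ => key s).trans ?_
  rw [Finset.sum_add_distrib, Finset.sum_add_distrib, Finset.sum_add_distrib]
  set a : ℝ := ((Fintype.card α).factorial : ℝ) with ha'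
  set b : ℝ := ((Fintype.card β).factorial : ℝ) with hb'
  have ha0 : 0 ≤ a := by positivity
  have hb0 : 0 ≤ b := by positivity
  have hcA : (Fintype.card (Perm α) : ℝ) = a := by rw [Fintype.card_perm]
  have hcB : (Fintype.card (Perm β) : ℝ) = b := by rw [Fintype.card_perm]
  have e1 : ∑ s : Perm α × Perm β, (ncyc s.1 : ℝ) / c ≤
      (a * b) * ((1 + Real.log (n : ℝ)) / c) := by
    rw [Fintype.sum_prod_type]
    simp only [Finset.sum_const, Finset.card_univ, nsmul_eq_mul]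
    rw [hcB, ← Finset.mul_sum, ← Finset.sum_div]
    have := FE_ncyc_sum (α := α) n ha hn
    calc b * ((∑ i : Perm α, (ncyc i : ℝ)) / c) ≤ b * ((a * (1 + Real.log n)) / c) := by gcongr
      _ = _ := by ring
  have e2 : ∑ s : Perm α × Perm β, (ncyc s.2 : ℝ) / c ≤
      (a * b) * ((1 + Real.log (n : ℝ)) / c) := by
    rw [Fintype.sum_prod_type]
    simp only [Finset.sum_const, Finset.card_univ, nsmul_eq_mul]
    rw [hcA, ← Finset.sum_div]
    have := FE_ncyc_sum (α := β) n hb hn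
    calc a * ((∑ i : Perm β, (ncyc i : ℝ)) / c) ≤ a * ((b * (1 + Real.log n)) / c) := by gcongr
      _ = _ := by ring
  have e3 : ∑ s : Perm α × Perm β, (if ¬ S s.1 then (1 : ℝ) else 0) ≤ (a * b) * δ := by
    rw [Fintype.sum_prod_type]
    have h1 : ∀ s1 : Perm α, ∑ s2 : Perm β, (if ¬ S (s1, s2).1 then (1 : ℝ) else 0) ≤
        b * (if ¬ S s1 then (1 : ℝ) else 0) := by
      intro s1
      by_cases hs : S s1
      · simp [hs]
      · simp only [hs, not_false_eq_true, if_true, Finset.sum_const, Finset.card_univ,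
          nsmul_eq_mul]
        rw [hcB]
    refine (Finset.sum_le_sum fun s1 _ => h1 s1).trans ?_
    rw [← Finset.mul_sum, ← FE_card]
    calc b * (Nat.card {s : Perm α // ¬ S s} : ℝ) ≤ b * (a * δ) := by gcongr
      _ = _ := by ring
  have e4 : ∑ s : Perm α × Perm β, (if S s.1 ∧ ∃ y, Q s.1 ∣ len s.2 y then (1 : ℝ) else 0) ≤
      (a * b) * ((1 + Real.log (n : ℝ)) / w) := by
    rw [Fintype.sum_prod_type]
    have h1 : ∀ s1 : Perm α, ∑ s2 : Perm β,
        (if S s1 ∧ ∃ y, Q s1 ∣ len s2 y then (1 : ℝ) else 0) ≤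
        b * ((1 + Real.log (n : ℝ)) / w) := by
      intro s1
      by_cases hs : S s1
      · simp only [hs, true_and]
        rw [← FE_card]
        exact FE_dvd (Q s1) w n hw (hQ s1 hs) hb hn
      · simp only [hs, false_and, if_false, Finset.sum_const_zero]
        positivity
    refine (Finset.sum_le_sum fun s _ => h1 s).trans ?_
    rw [Finset.sum_const, Finset.card_univ, nsmul_eq_mul, hcA]
    exact le_of_eq (by ring)
  refine (add_le_add (add_le_add (add_le_add e1 e2) e3) e4).trans (le_of_eq ?_)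
  ring

end general

private theorem FE_log (n K t : ℕ) (hn1 : 1 ≤ n) (hpow2 : n < 2 ^ (K + 1))
    (hKt : K < (t + 1) ^ 4) : Real.log (n : ℝ) ≤ ((t : ℝ) + 1) ^ 4 + 1 := by
  have h2 : Real.log (n : ℝ) ≤ Real.log ((2 : ℝ) ^ (K + 1)) := by
    apply Real.log_le_log
    · exact_mod_cast hn1
    · exact_mod_cast hpow2.le
  rw [Real.log_pow] at h2
  have h3 : Real.log 2 ≤ 1 := by
    have := Real.log_two_lt_d9
    linarith
  have h4 : ((K + 1 : ℕ) : ℝ) * Real.log 2 ≤ ((K + 1 : ℕ) : ℝ) * 1 := by gcongr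
  have h5 : ((K + 1 : ℕ) : ℝ) ≤ ((t : ℝ) + 1) ^ 4 + 1 := by
    have h6 : K + 1 ≤ (t + 1) ^ 4 + 1 := by omega
    exact_mod_cast h6
  linarith

theorem good_sigma (ε : ℝ) (hε : 0 < ε) (η : ℝ) (hη : 0 < η) : ∃ n0 : ℕ, ∀ n ≥ n0,
    ∀ (p : Fin n → Prop) [DecidablePred p],
    ε * (n : ℝ) ≤ (Fintype.card {q // p q} : ℝ) →
    (Nat.card {s : Perm {q // p q} × Perm {q // ¬ p q} //
      ¬ GoodSig p (tt n ^ 6) (2 ^ (Nat.log 2 n / 8)) (tt n ^ 5) s.1 s.2} : ℝ) ≤
      η * (((Fintype.card {q // p q}).factorial : ℝ) *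
        ((Fintype.card {q // ¬ p q}).factorial : ℝ)) := by
  classical
  -- asymptotics in t
  have hA : ∀ᶠ t : ℕ in Filter.atTop, (t : ℝ) ^ 3 + 8 ≤ ((t : ℝ) ^ 4 / 8 - 1) * Real.log 2 -
      2 * (t : ℝ) ^ 3 := by
    have hlog : (1 : ℝ) / 2 ≤ Real.log 2 := by
      have := Real.log_two_gt_d9
      linarith
    filter_upwards [Filter.eventually_ge_atTop 100] with t ht
    have ht' : (100 : ℝ) ≤ t := by exact_mod_cast ht
    have h1 : (100 : ℝ) ^ 3 ≤ (t : ℝ) ^ 3 := by gcongr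
    have h2 : (t : ℝ) ^ 4 = t * (t : ℝ) ^ 3 := by ring
    have h3 : 100 * (t : ℝ) ^ 3 ≤ (t : ℝ) ^ 4 := by
      rw [h2]
      gcongr
    have h4 : (0 : ℝ) ≤ (t : ℝ) ^ 4 / 8 - 1 := by nlinarith
    nlinarith
  have hB : ∀ᶠ t : ℕ in Filter.atTop, 4 / ((t : ℝ) ^ 3 + 8) ≤ η / 6 := by
    obtain ⟨m, hm⟩ := exists_nat_ge (24 / η)
    filter_upwards [Filter.eventually_ge_atTop (m + 1)] with t ht
    have ht' : (m : ℝ) + 1 ≤ t := by exact_mod_cast ht
    have hm0 : (0 : ℝ) ≤ m := Nat.cast_nonneg m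
    have h1 : (t : ℝ) ≤ (t : ℝ) ^ 3 := by
      have : (1 : ℝ) ≤ t := by linarith
      nlinarith [sq_nonneg ((t : ℝ) - 1), mul_pos (by linarith : (0 : ℝ) < t) (by linarith : (0 : ℝ) < t)]
    rw [div_le_iff₀ (by positivity)]
    rw [div_le_iff₀ hη] at hm
    nlinarith
  have hC : ∀ᶠ t : ℕ in Filter.atTop, 4 * (2 + ((t : ℝ) + 1) ^ 4) / (t : ℝ) ^ 6 ≤ η / 6 := by
    obtain ⟨m, hm⟩ := exists_nat_ge (600 / η)
    filter_upwards [Filter.eventually_ge_atTop (m + 1)] with t ht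
    have ht' : (m : ℝ) + 1 ≤ t := by exact_mod_cast ht
    have hm0 : (0 : ℝ) ≤ m := Nat.cast_nonneg m
    have ht1 : (1 : ℝ) ≤ t := by linarith
    have h1 : (t : ℝ) + 1 ≤ 2 * t := by linarith
    have h2 : ((t : ℝ) + 1) ^ 4 ≤ (2 * t) ^ 4 := by gcongr
    have h3 : (1 : ℝ) ≤ (t : ℝ) ^ 4 := one_le_pow₀ ht1
    have h4 : 4 * (2 + ((t : ℝ) + 1) ^ 4) ≤ 100 * (t : ℝ) ^ 4 := by nlinarith
    have h5 : (t : ℝ) ≤ (t : ℝ) ^ 2 := by nlinarith
    have h6 : 600 / η ≤ (t : ℝ) ^ 2 := by linarith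
    rw [div_le_iff₀ hη] at h6
    rw [div_le_iff₀ (by positivity)]
    refine h4.trans ?_
    have h7 : η / 6 * (t : ℝ) ^ 6 = (t : ℝ) ^ 4 * ((t : ℝ) ^ 2 * η) / 6 := by ring
    rw [h7]
    nlinarith [mul_le_mul_of_nonneg_left h6 (by positivity : (0 : ℝ) ≤ (t : ℝ) ^ 4)]
  obtain ⟨t1, ht1⟩ := Filter.eventually_atTop.1 hA
  obtain ⟨t2, ht2⟩ := Filter.eventually_atTop.1 hB
  obtain ⟨t3, ht3⟩ := Filter.eventually_atTop.1 hC
  obtain ⟨n5, hn5⟩ := tt_pow5 (2 * (3 / η))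
  obtain ⟨e, he⟩ := pow_unbounded_of_one_lt (1 / ε) (one_lt_two : (1 : ℝ) < 2)
  set t0 : ℕ := t1 + t2 + t3 + 2 * e + 1 with ht0
  refine ⟨max (2 ^ (t0 ^ 4)) n5, fun n hn' p _ hp => ?_⟩
  have hn : 2 ^ (t0 ^ 4) ≤ n := le_trans (le_max_left _ _) hn'
  have h5' := hn5 n (le_trans (le_max_right _ _) hn')
  have hn1 : 1 ≤ n := le_trans Nat.one_le_two_pow hn
  set K : ℕ := Nat.log 2 n with hK
  have hK0 : t0 ^ 4 ≤ K := Nat.le_log_of_pow_le one_lt_two hn
  have hpow1 : 2 ^ K ≤ n := Nat.pow_log_le_self 2 (by omega)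
  have hpow2 : n < 2 ^ (K + 1) := Nat.lt_pow_succ_log_self one_lt_two n
  set t : ℕ := tt n with ht
  have htt0 : t0 ≤ t := RE2_le_tt n t0 hK0
  have htK : t ^ 4 ≤ K := RE2_tt_le n
  have hKt : K < (t + 1) ^ 4 := RE2_lt_tt n
  have ht1' : 1 ≤ t := by omega
  set w : ℕ := t ^ 6 with hw
  set z : ℕ := 2 ^ (K / 8) with hz
  have hw1 : 1 ≤ w := Nat.one_le_pow _ _ (by omega)
  have hz1 : 1 ≤ z := Nat.one_le_two_pow
  have hct0 : t0 ≤ t0 ^ 4 := Nat.le_self_pow (by norm_num) _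
  have hza : z ≤ Fintype.card {q // p q} := by
    have h1 : (z : ℝ) ≤ ε * (n : ℝ) := by
      have h2 : K / 8 + e ≤ K := by omega
      have h3 : 2 ^ (K / 8) * 2 ^ e ≤ n := by
        rw [← pow_add]
        exact (Nat.pow_le_pow_right (by norm_num) h2).trans hpow1
      have h4 : (z : ℝ) * 2 ^ e ≤ n := by
        rw [hz]
        exact_mod_cast h3
      have h5 : 1 ≤ ε * 2 ^ e := by
        rw [div_lt_iff₀ hε] at he
        linarith
      calc (z : ℝ) = z * 1 := by ring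
        _ ≤ z * (ε * 2 ^ e) := by gcongr
        _ = ε * (z * 2 ^ e) := by ring
        _ ≤ ε * n := by gcongr
    exact_mod_cast h1.trans hp
  have hza0 : 1 ≤ Fintype.card {q // p q} := hz1.trans hza
  have han : Fintype.card {q // p q} ≤ n := by
    have := Fintype.card_subtype_le p
    rwa [Fintype.card_fin] at this
  have hbn : Fintype.card {q // ¬ p q} ≤ n := by
    have := Fintype.card_subtype_le (fun q => ¬ p q)
    rwa [Fintype.card_fin] at this
  set L : Finset ℕ := (Finset.Icc 1 z).filter (fun l => ∃ p, p.Prime ∧ w ≤ p ∧ p ∣ l) with hL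
  set q : ℕ → ℕ := fun l => if h : ∃ p, p.Prime ∧ w ≤ p ∧ p ∣ l then h.choose else 0 with hq
  have hqL : ∀ l ∈ L, (q l).Prime ∧ w ≤ q l ∧ q l ∣ l := by
    intro l hl
    rw [hL, Finset.mem_filter] at hl
    have h1 : q l = hl.2.choose := by
      simp only [hq]
      rw [dif_pos hl.2]
    rw [h1]
    exact hl.2.choose_spec
  have hLz : ∀ l ∈ L, 1 ≤ l ∧ l ≤ z := by
    intro l hl
    rw [hL, Finset.mem_filter, Finset.mem_Icc] at hl
    exact hl.1
  set μ : ℝ := ∑ l ∈ L, (1 : ℝ) / (l : ℝ) with hμ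
  have hμ1 : (t : ℝ) ^ 3 + 8 ≤ μ := by
    have h1 := euler_bound w z hw1 hz1
    have h2 : Real.log (z : ℝ) = (K / 8 : ℕ) * Real.log 2 := by
      rw [hz]
      push_cast
      rw [Real.log_pow]
    have h3 : Real.sqrt (w : ℝ) = (t : ℝ) ^ 3 := by
      rw [hw]
      push_cast
      have : (t : ℝ) ^ 6 = ((t : ℝ) ^ 3) ^ 2 := by ring
      rw [this, Real.sqrt_sq (by positivity)]
    rw [h2, h3] at h1
    have h4 := ht1 t (by omega)
    have h5 : (t : ℝ) ^ 4 / 8 - 1 ≤ ((K / 8 : ℕ) : ℝ) := by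
      have h6 : K < 8 * (K / 8 + 1) := by omega
      have h7 : (K : ℝ) < 8 * (((K / 8 : ℕ) : ℝ) + 1) := by exact_mod_cast h6
      have h8 : (t : ℝ) ^ 4 ≤ K := by exact_mod_cast htK
      linarith
    have h9 : ((t : ℝ) ^ 4 / 8 - 1) * Real.log 2 ≤ ((K / 8 : ℕ) : ℝ) * Real.log 2 :=
      mul_le_mul_of_nonneg_right h5 (Real.log_nonneg (by norm_num))
    refine le_trans ?_ (le_trans h1 ?_)
    · linarith
    · convert le_refl μ
  have hcount := two_private (α := {q // p q}) L (fun l hl => ⟨(hLz l hl).1,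
    (hLz l hl).2.trans hza⟩) q w hw1 (fun l hl => (hqL l hl).2.1) μ hμ
    (by
      have : (0 : ℝ) ≤ (t : ℝ) ^ 3 := by positivity
      linarith)
  -- the good set
  set S : Perm {q // p q} → Prop := fun s => ∃ x, Priv s L q x with hS
  set Q : Perm {q // p q} → ℕ := fun s => if h : ∃ x, Priv s L q x then q (len s h.choose) else 0
    with hQ
  have hQS : ∀ s (h : S s), Q s = q (len s h.choose) := by
    intro s h
    simp only [hQ]
    rw [dif_pos h]
  have hδ : (Nat.card {s : Perm {q // p q} // ¬ S s} : ℝ) ≤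
      ((Fintype.card {q // p q}).factorial : ℝ) *
        (4 / μ + 4 * (1 + Real.log (Fintype.card {q // p q} : ℝ)) / (w : ℝ)) := by
    refine le_trans ?_ hcount
    have h1 : Nat.card {s : Perm {q // p q} // ¬ S s} ≤ Nat.card {s : Perm {q // p q} //
        ¬ ∃ x y, ¬ SameCycle s x y ∧ Priv s L q x ∧ Priv s L q y} := by
      apply Nat.card_le_card_of_injective
        (fun s => (⟨s.1, fun h => s.2 (by
          obtain ⟨x, y, -, hx, -⟩ := h
          exact ⟨x, hx⟩)⟩ : {s : Perm {q // p q} //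
          ¬ ∃ x y, ¬ SameCycle s x y ∧ Priv s L q x ∧ Priv s L q y}))
      intro s s' h
      simp only [Subtype.mk.injEq] at h
      exact Subtype.ext h
    exact_mod_cast h1
  have hmain := FE_count (α := {q // p q}) (β := {q // ¬ p q})
    (fun s1 s2 => GoodSig p w z (t ^ 5) s1 s2) S Q (t ^ 5) w n (Nat.one_le_pow _ _ (by omega)) hw1
    hn1 han hbn (fun s hs => by
      rw [hQS s hs]
      exact (hqL _ hs.choose_spec.1).2.1) (fun s1 s2 hs hnc hy => by
      have hx := hs.choose_spec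
      have hq' := hqL _ hx.1
      have hQ' := hQS s1 hs
      rw [hQ'] at hy
      obtain ⟨N, hN1, hN2, hN3⟩ := exists_pow2 s1 s2 hs.choose (q (len s1 hs.choose)) hq'.1
        hq'.2.2 hx.2 hy
      exact ⟨hnc, N, hs.choose, hN1, hN2, (hLz _ hx.1).2, hq'.2.1.trans hN3⟩) _ hδ
  refine hmain.trans ?_
  rw [mul_comm η]
  apply mul_le_mul_of_nonneg_left _ (by positivity)
  have hlogn := FE_log n K t hn1 hpow2 hKt
  have hlog0 : 0 ≤ Real.log (n : ℝ) := Real.log_nonneg (by exact_mod_cast hn1)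
  have hloga : Real.log (Fintype.card {q // p q} : ℝ) ≤ Real.log (n : ℝ) :=
    Real.log_le_log (by exact_mod_cast hza0) (by exact_mod_cast han)
  have hμ0 : (0 : ℝ) < (t : ℝ) ^ 3 + 8 := by positivity
  have hw' : (w : ℝ) = (t : ℝ) ^ 6 := by rw [hw]; push_cast; ring
  have ht0' : (0 : ℝ) < t := by exact_mod_cast ht1'
  have e1 : 4 / μ ≤ η / 6 := by
    refine le_trans ?_ (ht2 t (by omega))
    gcongr
  have e2 : 4 * (1 + Real.log (n : ℝ)) / (w : ℝ) ≤ η / 6 := by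
    refine le_trans ?_ (ht3 t (by omega))
    rw [hw']
    have h7 : 4 * (1 + Real.log (n : ℝ)) ≤ 4 * (2 + ((t : ℝ) + 1) ^ 4) := by linarith
    exact div_le_div_of_nonneg_right h7 (by positivity)
  have e3 : 4 * (1 + Real.log (Fintype.card {q // p q} : ℝ)) / (w : ℝ) ≤ η / 6 := by
    refine le_trans ?_ e2
    gcongr
  have e4 : (1 + Real.log (n : ℝ)) / (w : ℝ) ≤ η / 6 := by
    refine le_trans ?_ e2
    gcongr
    linarith
  have e5 : 2 * (1 + Real.log (n : ℝ)) / ((t ^ 5 : ℕ) : ℝ) ≤ η / 3 := by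
    push_cast
    rw [div_le_iff₀ (by positivity)]
    have h8 : 2 * (3 / η) * (1 + Real.log (n : ℝ)) = (2 * (1 + Real.log (n : ℝ))) * (3 / η) := by
      ring
    rw [h8] at h5'
    calc 2 * (1 + Real.log (n : ℝ)) = (2 * (1 + Real.log (n : ℝ))) * (3 / η) * (η / 3) := by
          field_simp
      _ ≤ (t : ℝ) ^ 5 * (η / 3) := by gcongr
      _ = η / 3 * (t : ℝ) ^ 5 := by ring
  linarith

end RNF40
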