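import Mathlib
import Pool.Agent.Lib_helper40.RNF.Defs
import Pool.Agent.Lib_helper40.RND.RB
import Pool.Agent.Lib_helper40.RND.RD
import Pool.Agent.Lib_helper40.RND.RI
import Pool.Agent.Lib_helper40.RND.RK2
import Pool.Agent.Lib_helper40.RND.TT
import Pool.Agent.Lib_helper40.RNF.FB
import Pool.Agent.Lib_helper40.RNF.FC
import Pool.Agent.Lib_helper40.RNF.FC2

set_option autoImplicit false

/-! Block FF (helper97): assembly for `δ`. -/

namespace RNF40

open Equiv Equiv.Perm RND40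


section FF

variable {α : Type*}

private theorem FF_mul (p : α → Prop) [DecidablePred p] (s1 t1 : Perm {q // p q})
    (s2 t2 : Perm {q // ¬ p q}) : Perm.subtypeCongr s1 s2 * Perm.subtypeCongr t1 t2 =
      Perm.subtypeCongr (s1 * t1) (s2 * t2) :=
  (map_mul (Perm.subtypeCongrHom p) (s1, s2) (t1, t2)).symm

private theorem FF_pow (p : α → Prop) [DecidablePred p] (s1 : Perm {q // p q})
    (s2 : Perm {q // ¬ p q}) (k : ℕ) : Perm.subtypeCongr s1 s2 ^ k =
      Perm.subtypeCongr (s1 ^ k) (s2 ^ k) :=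
  (map_pow (Perm.subtypeCongrHom p) (s1, s2) k).symm

private theorem FF_inv (p : α → Prop) [DecidablePred p] (s1 : Perm {q // p q})
    (s2 : Perm {q // ¬ p q}) : (Perm.subtypeCongr s1 s2)⁻¹ =
      Perm.subtypeCongr s1⁻¹ s2⁻¹ :=
  (map_inv (Perm.subtypeCongrHom p) (s1, s2)).symm

private theorem FF_one (p : α → Prop) [DecidablePred p] :
    Perm.subtypeCongr (1 : Perm {q // p q}) (1 : Perm {q // ¬ p q}) = 1 :=
  Perm.subtypeCongr.refl

private theorem FF_iff (s : Perm α) (x : α) (k : ℕ) :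
    Function.IsPeriodicPt s k x ↔ (s ^ k) x = x := by
  rw [← Equiv.Perm.iterate_eq_pow]
  exact Iff.rfl

private theorem FF_len (p : α → Prop) [DecidablePred p] (s1 : Perm {q // p q})
    (s2 : Perm {q // ¬ p q}) (x : {q // p q}) :
    len (Perm.subtypeCongr s1 s2) (x : α) = len s1 x := by
  unfold len
  rw [Function.minimalPeriod_eq_minimalPeriod_iff]
  intro k
  rw [FF_iff, FF_iff, FF_pow, Perm.subtypeCongr.left_apply_subtype, Subtype.val_inj]

private theorem FF_len_pow [Fintype α] [DecidableEq α] (s : Perm α) (x : α) (N : ℕ) :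
    len (s ^ N) x ≤ len s x := by
  have h1 : 1 ≤ len s x := by
    rw [← card_sameCycle]
    have : Nonempty {y // SameCycle s x y} := ⟨⟨x, SameCycle.refl s x⟩⟩
    exact Nat.card_pos
  apply Nat.le_of_dvd h1
  unfold len
  apply Function.IsPeriodicPt.minimalPeriod_dvd
  rw [FF_iff, ← pow_mul, mul_comm, pow_mul]
  have h2 : (s ^ Function.minimalPeriod s x) x = x := by
    rw [← FF_iff]
    exact Function.isPeriodicPt_minimalPeriod s x
  have h3 : ∀ k : ℕ, ((s ^ Function.minimalPeriod s x) ^ k) x = x := by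
    intro k
    induction k with
    | zero => simp
    | succ k ih => rw [pow_succ, Perm.mul_apply, h2, ih]
  exact h3 N

/-- union bound -/
private theorem FF_union {β : Type*} [Finite β] {P Q R : β → Prop} (h : ∀ x, P x → Q x ∨ R x)
    (a b : ℝ) (hQ : (Nat.card {x // Q x} : ℝ) ≤ a) (hR : (Nat.card {x // R x} : ℝ) ≤ b) :
    (Nat.card {x // P x} : ℝ) ≤ a + b := by
  classical
  have h1 : Nat.card {x // P x} ≤ Nat.card {x // Q x} + Nat.card {x // R x} := by
    have e1 : ∀ S : β → Prop, Nat.card {x // S x} = Set.ncard {x | S x} := fun S => rfl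
    rw [e1, e1, e1]
    refine le_trans (Set.ncard_le_ncard (t := {x | Q x} ∪ {x | R x}) ?_ (Set.toFinite _))
      (Set.ncard_union_le _ _)
    intro x hx
    exact h x hx
  have h2 : (Nat.card {x // P x} : ℝ) ≤ (Nat.card {x // Q x} : ℝ) + (Nat.card {x // R x} : ℝ) := by
    exact_mod_cast h1
  linarith

private theorem FF_supp [Fintype α] [DecidableEq α] (p : α → Prop) [DecidablePred p]
    (s1 : Perm {q // p q}) (N : ℕ) (x : {q // p q})
    (hx : ∀ y, (s1 ^ N) y ≠ y ↔ SameCycle s1 x y) :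
    (∀ q, q ∈ (Perm.subtypeCongr s1 (1 : Perm {q // ¬ p q}) ^ N).support ↔
      ∃ h : p q, SameCycle s1 x ⟨q, h⟩) ∧
    (Perm.subtypeCongr s1 (1 : Perm {q // ¬ p q}) ^ N).support.card = len s1 x := by
  have h1 : ∀ q, q ∈ (Perm.subtypeCongr s1 (1 : Perm {q // ¬ p q}) ^ N).support ↔
      ∃ h : p q, SameCycle s1 x ⟨q, h⟩ := by
    intro q
    rw [mem_support, FF_pow]
    by_cases hq : p q
    · rw [Perm.subtypeCongr.left_apply _ _ hq]
      constructor
      · intro h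
        refine ⟨hq, (hx _).1 ?_⟩
        intro h'
        apply h
        rw [h']
      · rintro ⟨_, h⟩ h'
        exact (hx _).2 h (Subtype.ext h')
    · rw [Perm.subtypeCongr.right_apply _ _ hq]
      constructor
      · intro h
        exact absurd (by simp) h
      · rintro ⟨h, _⟩
        exact absurd h hq
  refine ⟨h1, ?_⟩
  rw [← card_sameCycle]
  have e : {q // q ∈ (Perm.subtypeCongr s1 (1 : Perm {q // ¬ p q}) ^ N).support} ≃
      {y // SameCycle s1 x y} :=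
    { toFun := fun q => ⟨⟨q.1, ((h1 q.1).1 q.2).choose⟩, ((h1 q.1).1 q.2).choose_spec⟩
      invFun := fun y => ⟨y.1.1, (h1 _).2 ⟨y.1.2, y.2⟩⟩
      left_inv := fun q => rfl
      right_inv := fun y => rfl }
  rw [← Nat.card_congr e, Nat.card_eq_fintype_card, Fintype.card_coe]

end FF

/-! ### FF -/

theorem good_delta (ε : ℝ) (hε : 0 < ε) (η : ℝ) (hη : 0 < η) : ∃ n0 : ℕ, ∀ n ≥ n0,
    ∀ (p : Fin n → Prop) [DecidablePred p],
    ε * (n : ℝ) ≤ (Fintype.card {q // p q} : ℝ) →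
    ε * (n : ℝ) ≤ (Fintype.card {q // ¬ p q} : ℝ) →
    ∀ (s1 : Perm {q // p q}) (s2 : Perm {q // ¬ p q}),
    GoodSig p (tt n ^ 6) (2 ^ (Nat.log 2 n / 8)) (tt n ^ 5) s1 s2 →
    (Nat.card {δ : Perm (Fin n) // ¬ Evt p δ (Perm.subtypeCongr s1 1) (Perm.subtypeCongr 1 s2)} : ℝ)
      ≤ η * (n.factorial : ℝ) := by
  classical
  obtain ⟨n1, hn1⟩ := card_not_primitive (η / 6) (by positivity)
  obtain ⟨m, hm⟩ := exists_nat_gt (max (6 * (4 / ε + 12) / η) (6 * (1 / ε) / η))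
  obtain ⟨n2, hn2⟩ := tt_ge (max m 12)
  refine ⟨max n1 n2, fun n hn p _ hp hnp s1 s2 hG => ?_⟩
  have hnn1 := hn1 n (le_trans (le_max_left _ _) hn)
  have htm := hn2 n (le_trans (le_max_right _ _) hn)
  obtain ⟨hcyc, N, x, hN2, hN1, hz, hw⟩ := hG
  -- sizes
  set t : ℕ := tt n with ht
  have ht12 : 12 ≤ t := le_trans (le_max_right _ _) htm
  have htm' : m ≤ t := le_trans (le_max_left _ _) htm
  obtain ⟨hn6, hz4⟩ := RK2_last n (by omega : 2 ≤ tt n)
  rw [← ht] at hz4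
  have hz4' : (((2 ^ (Nat.log 2 n / 8) : ℕ) : ℝ)) ^ 4 / ((n : ℝ) - 3) ≤ 2 / (t : ℝ) := by
    push_cast
    exact hz4
  have htR : (12 : ℝ) ≤ t := by exact_mod_cast ht12
  have ht0 : (0 : ℝ) < t := by linarith
  have hn3 : (0 : ℝ) < (n : ℝ) - 3 := by linarith
  have hn0 : (0 : ℝ) < n := by linarith
  have hz1 : (1 : ℝ) ≤ ((2 ^ (Nat.log 2 n / 8) : ℕ) : ℝ) := by
    exact_mod_cast Nat.one_le_two_pow
  generalize hzz : 2 ^ (Nat.log 2 n / 8) = z at hz hz4' hz1
  have hz4n : (z : ℝ) ^ 4 ≤ n - 3 := by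
    have h1 : 2 / (t : ℝ) ≤ 1 := by
      rw [div_le_one ht0]
      linarith
    have h2 := hz4'.trans h1
    rwa [div_le_one hn3] at h2
  have hη6 : (4 / ε + 12) / (t : ℝ) ≤ η / 6 := by
    have h1 : 6 * (4 / ε + 12) / η < (t : ℝ) :=
      lt_of_lt_of_le (lt_of_le_of_lt (le_max_left _ _) hm) (by exact_mod_cast htm')
    rw [div_lt_iff₀ hη] at h1
    rw [div_le_iff₀ ht0]
    linarith
  have hε4 : 0 < 4 / ε := by positivity
  have hfac : (0 : ℝ) ≤ (n.factorial : ℝ) := Nat.cast_nonneg _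
  have hcardn : Fintype.card (Fin n) = n := Fintype.card_fin n
  have hn4 : 4 ≤ n := by
    have : (4 : ℝ) ≤ n := by linarith
    exact_mod_cast this
  set a : Perm (Fin n) := Perm.subtypeCongr s1 1 with ha
  set b : Perm (Fin n) := Perm.subtypeCongr 1 s2 with hb
  obtain ⟨hCm, hCc⟩ := FF_supp p s1 N x hN1
  rw [← ha] at hCm hCc
  set C : Finset (Fin n) := (a ^ N).support with hCdef
  have hlenN : len (a ^ N) (x : Fin n) = len (s1 ^ N) x := by
    rw [ha, FF_pow, FF_len]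
  have hCz : (C.card : ℝ) ≤ z := by
    rw [hCc]
    exact_mod_cast hz
  have hCw : t ^ 6 ≤ C.card := by
    rw [hCc]
    exact hw.trans (FF_len_pow s1 x N)
  have ht6 : t ≤ t ^ 6 := Nat.le_self_pow (by norm_num) t
  have hCw' : (t : ℝ) ^ 6 ≤ C.card := by exact_mod_cast hCw
  have hCpos : 0 < C.card := by omega
  have hCne : C.Nonempty := Finset.card_pos.1 hCpos
  set D : Finset (Fin n) := Finset.univ.filter (fun q => SameCycle (a ^ N) (x : Fin n) q) with hD
  have hDc : D.card = len (s1 ^ N) x := by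
    rw [← hlenN, ← card_sameCycle, Nat.card_eq_fintype_card, Fintype.card_subtype]
  have hDw : (t : ℝ) ^ 6 ≤ D.card := by
    rw [hDc]
    exact_mod_cast hw
  have hDpos : 0 < D.card := by
    rw [hDc]
    omega
  have hDj : ∀ q ∈ D, ∃ j : ℕ, ((a ^ N) ^ j) (x : Fin n) = q := by
    intro q hq
    rw [hD, Finset.mem_filter] at hq
    obtain ⟨j, _, hj⟩ := hq.2.exists_pow_eq'
    exact ⟨j, hj⟩
  -- the long cycle
  have hcp : 1 ≤ Fintype.card {q // p q} := Fintype.card_pos_iff.2 ⟨x⟩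
  obtain ⟨x0, hx0⟩ := exists_long s1 hcp
  have hlong : ε * (n : ℝ) ≤ (t : ℝ) ^ 5 * (len a (x0 : Fin n) : ℝ) := by
    have h1 : len a (x0 : Fin n) = len s1 x0 := by rw [ha, FF_len]
    have h2 : ncyc s1 ≤ t ^ 5 := by omega
    have h3 : Fintype.card {q // p q} ≤ t ^ 5 * len s1 x0 :=
      hx0.trans (Nat.mul_le_mul_right _ h2)
    rw [h1]
    have h4 : (Fintype.card {q // p q} : ℝ) ≤ (t : ℝ) ^ 5 * (len s1 x0 : ℝ) := by
      exact_mod_cast h3
    linarith
  -- the six bad events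
  have E1 : (Nat.card {δ : Perm (Fin n) // ¬ ∀ q ∈ C, δ q ∉ C} : ℝ) ≤ η / 6 * n.factorial := by
    have h1 := card_image_meets C (by omega : 1 ≤ Fintype.card (Fin n))
    rw [hcardn] at h1
    refine h1.trans ?_
    rw [mul_comm]
    apply mul_le_mul_of_nonneg_right _ hfac
    have h2 : (C.card : ℝ) ^ 2 ≤ (z : ℝ) ^ 4 := by
      have h3 : (C.card : ℝ) ^ 2 ≤ (z : ℝ) ^ 2 := pow_le_pow_left₀ (Nat.cast_nonneg _) hCz 2
      have h4 : (z : ℝ) ^ 2 ≤ (z : ℝ) ^ 4 := pow_le_pow_right₀ hz1 (by norm_num)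
      linarith
    calc (C.card : ℝ) ^ 2 / (n : ℝ) ≤ (z : ℝ) ^ 4 / ((n : ℝ) - 3) :=
          div_le_div₀ (by positivity) h2 hn3 (by linarith)
      _ ≤ 2 / (t : ℝ) := hz4'
      _ ≤ (4 / ε + 12) / (t : ℝ) := div_le_div_of_nonneg_right (by linarith) ht0.le
      _ ≤ η / 6 := hη6
  have hhit : ∀ Z : Finset (Fin n), ε * (n : ℝ) ≤ Z.card →
      (Nat.card {δ : Perm (Fin n) // ∀ q ∈ D, δ⁻¹ q ∉ Z} : ℝ) ≤ η / 6 * n.factorial := by
    intro Z hZ
    have hZ0 : (0 : ℝ) < Z.card := lt_of_lt_of_le (by positivity) hZ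
    have hZne : Z.Nonempty := Finset.card_pos.1 (by exact_mod_cast hZ0)
    have h1 := hit D Z (Finset.card_pos.1 hDpos) hZne
    rw [hcardn] at h1
    refine h1.trans ?_
    rw [mul_comm]
    apply mul_le_mul_of_nonneg_right _ hfac
    have h2 : (t : ℝ) ≤ D.card := by
      have h3 : (t : ℝ) ≤ (t : ℝ) ^ 6 := by exact_mod_cast ht6
      linarith
    have h4 : (t : ℝ) * (ε * n) ≤ (D.card : ℝ) * (Z.card : ℝ) :=
      mul_le_mul h2 hZ (by positivity) (Nat.cast_nonneg _)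
    calc (n : ℝ) / ((D.card : ℝ) * (Z.card : ℝ)) ≤ (n : ℝ) / ((t : ℝ) * (ε * n)) :=
          div_le_div_of_nonneg_left hn0.le (by positivity) h4
      _ = (1 / ε) / (t : ℝ) := by field_simp
      _ ≤ (4 / ε + 12) / (t : ℝ) := by
          apply div_le_div_of_nonneg_right _ ht0.le
          have : 1 / ε ≤ 4 / ε := div_le_div_of_nonneg_right (by norm_num) hε.le
          linarith
      _ ≤ η / 6 := hη6
  have E2 := hhit (Finset.univ.filter (fun q => p q)) (by
    rw [← Fintype.card_subtype]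
    exact hp)
  have E3 := hhit (Finset.univ.filter (fun q => ¬ p q)) (by
    rw [← Fintype.card_subtype]
    exact hnp)
  have E4 : (Nat.card {δ : Perm (Fin n) // (∀ q ∈ C, δ q ∉ C) ∧
      ¬ (Meets δ C (fun i => (a * b) ^ i) (fun i => a ^ (1 - i) * b ^ i) ∧
         Meets δ C (fun i => a ^ (1 - i) * b ^ i) (fun i => (a * b) ^ i))} : ℝ) ≤
      η / 6 * n.factorial := by
    have h1 := meets_ab p a b
      (fun q hq => by rw [ha, Perm.subtypeCongr.right_apply _ _ hq]; simp)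
      (fun q hq => by rw [hb, Perm.subtypeCongr.left_apply _ _ hq]; simp)
      (x0 : Fin n) x0.2 C hCne (by omega : 4 ≤ Fintype.card (Fin n))
    rw [hcardn] at h1
    refine h1.trans ?_
    have h2 : (t : ℝ) * (ε * n) ≤ (C.card : ℝ) * (len a (x0 : Fin n) : ℝ) := by
      calc (t : ℝ) * (ε * n) ≤ (t : ℝ) * ((t : ℝ) ^ 5 * (len a (x0 : Fin n) : ℝ)) :=
            mul_le_mul_of_nonneg_left hlong ht0.le
        _ = (t : ℝ) ^ 6 * (len a (x0 : Fin n) : ℝ) := by ring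
        _ ≤ (C.card : ℝ) * (len a (x0 : Fin n) : ℝ) :=
            mul_le_mul_of_nonneg_right hCw' (Nat.cast_nonneg _)
    have h3 : 2 * (n : ℝ) / ((C.card : ℝ) * (len a (x0 : Fin n) : ℝ)) ≤ 2 / ε / (t : ℝ) := by
      calc 2 * (n : ℝ) / ((C.card : ℝ) * (len a (x0 : Fin n) : ℝ)) ≤
            2 * (n : ℝ) / ((t : ℝ) * (ε * n)) :=
            div_le_div_of_nonneg_left (by positivity) (by positivity) h2
        _ = 2 / ε / (t : ℝ) := by field_simp
    have h4 : (2 * (C.card : ℝ) ^ 4 + (C.card : ℝ) ^ 2) / ((n : ℝ) - 3) ≤ 6 / (t : ℝ) := by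
      have h5 : 2 * (C.card : ℝ) ^ 4 + (C.card : ℝ) ^ 2 ≤ 3 * (z : ℝ) ^ 4 := by
        have h6 : (C.card : ℝ) ^ 2 ≤ (z : ℝ) ^ 2 := pow_le_pow_left₀ (Nat.cast_nonneg _) hCz 2
        have h7 : (z : ℝ) ^ 2 ≤ (z : ℝ) ^ 4 := pow_le_pow_right₀ hz1 (by norm_num)
        have h8 : (C.card : ℝ) ^ 4 ≤ (z : ℝ) ^ 4 := pow_le_pow_left₀ (Nat.cast_nonneg _) hCz 4
        linarith
      calc (2 * (C.card : ℝ) ^ 4 + (C.card : ℝ) ^ 2) / ((n : ℝ) - 3) ≤
            3 * (z : ℝ) ^ 4 / ((n : ℝ) - 3) := div_le_div_of_nonneg_right h5 hn3.le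
        _ = 3 * ((z : ℝ) ^ 4 / ((n : ℝ) - 3)) := by ring
        _ ≤ 3 * (2 / (t : ℝ)) := mul_le_mul_of_nonneg_left hz4' (by norm_num)
        _ = 6 / (t : ℝ) := by ring
    calc 2 * (n.factorial : ℝ) * (2 * (n : ℝ) / ((C.card : ℝ) * (len a (x0 : Fin n) : ℝ)) +
          (2 * (C.card : ℝ) ^ 4 + (C.card : ℝ) ^ 2) / ((n : ℝ) - 3)) ≤
          2 * (n.factorial : ℝ) * (2 / ε / (t : ℝ) + 6 / (t : ℝ)) :=
          mul_le_mul_of_nonneg_left (add_le_add h3 h4) (by positivity)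
      _ = (4 / ε + 12) / (t : ℝ) * n.factorial := by ring
      _ ≤ η / 6 * n.factorial := mul_le_mul_of_nonneg_right hη6 hfac
  have hab : a * b = Perm.subtypeCongr s1 s2 := by
    rw [ha, hb, FF_mul, mul_one, one_mul]
  have hab' : a⁻¹ * b = Perm.subtypeCongr s1⁻¹ s2 := by
    rw [ha, hb, FF_inv, FF_mul, mul_one, inv_one, one_mul]
  have E5 : (Nat.card {δ : Perm (Fin n) //
      ¬ MulAction.IsPreprimitive (Subgroup.closure ({δ, a * b} : Set (Perm (Fin n)))) (Fin n)} : ℝ) ≤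
      η / 6 * n.factorial := by
    apply hnn1
    rw [hab]
    exact (ncyc_congr p s1 s2).trans hcyc
  have E6 : (Nat.card {δ : Perm (Fin n) //
      ¬ MulAction.IsPreprimitive (Subgroup.closure ({δ * a, a⁻¹ * b} : Set (Perm (Fin n))))
        (Fin n)} : ℝ) ≤ η / 6 * n.factorial := by
    have h1 := hnn1 (a⁻¹ * b) (by
      rw [hab']
      refine (ncyc_congr p s1⁻¹ s2).trans ?_
      rw [ncyc_inv]
      exact hcyc)
    have e : {δ : Perm (Fin n) //
        ¬ MulAction.IsPreprimitive (Subgroup.closure ({δ * a, a⁻¹ * b} : Set (Perm (Fin n))))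
          (Fin n)} ≃ {δ : Perm (Fin n) //
        ¬ MulAction.IsPreprimitive (Subgroup.closure ({δ, a⁻¹ * b} : Set (Perm (Fin n))))
          (Fin n)} := (Equiv.mulRight a).subtypeEquiv (fun δ => Iff.rfl)
    rw [Nat.card_congr e]
    exact h1
  have hfin : η * (n.factorial : ℝ) = η / 6 * n.factorial + (η / 6 * n.factorial +
      (η / 6 * n.factorial + (η / 6 * n.factorial + (η / 6 * n.factorial +
        η / 6 * n.factorial)))) := by ring
  rw [hfin]
  refine FF_union (Q := fun δ => ¬ ∀ q ∈ C, δ q ∉ C) (R := fun δ =>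
    (∀ q ∈ D, δ⁻¹ q ∉ Finset.univ.filter (fun q => p q)) ∨
    (∀ q ∈ D, δ⁻¹ q ∉ Finset.univ.filter (fun q => ¬ p q)) ∨
    ((∀ q ∈ C, δ q ∉ C) ∧
      ¬ (Meets δ C (fun i => (a * b) ^ i) (fun i => a ^ (1 - i) * b ^ i) ∧
         Meets δ C (fun i => a ^ (1 - i) * b ^ i) (fun i => (a * b) ^ i))) ∨
    (¬ MulAction.IsPreprimitive (Subgroup.closure ({δ, a * b} : Set (Perm (Fin n)))) (Fin n)) ∨
    (¬ MulAction.IsPreprimitive (Subgroup.closure ({δ * a, a⁻¹ * b} : Set (Perm (Fin n))))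
        (Fin n))) ?_ _ _ E1 ?_
  · intro δ hδ
    by_contra hcon
    push Not at hcon
    obtain ⟨c1, c2, c3, c4, c5, c6⟩ := hcon
    apply hδ
    refine ⟨N, (x : Fin n), ?_, ?_, ?_, c1, ?_, ?_, ?_, ?_, ?_, c5, c6⟩
    · rw [hb, FF_pow, one_pow, hN2, FF_one]
    · rw [hcardn]
      have h1 : 2 * (C.card : ℝ) < n := by
        have h2 : (z : ℝ) ≤ (z : ℝ) ^ 2 := by nlinarith
        have h3 : 2 * (z : ℝ) ^ 2 ≤ (z : ℝ) ^ 4 + 1 := by nlinarith [sq_nonneg ((z : ℝ) ^ 2 - 1)]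
        linarith
      exact_mod_cast h1
    · intro q hq
      exact ((hCm q).1 hq).choose
    · intro h2
      have h3 : len (a ^ N) (x : Fin n) ≤ 2 := by
        apply Nat.le_of_dvd (by norm_num)
        unfold len
        apply Function.IsPeriodicPt.minimalPeriod_dvd
        rw [FF_iff, pow_two, Perm.mul_apply]
        exact h2
      rw [hlenN] at h3
      omega
    · obtain ⟨q, hq, hq2⟩ := c2
      obtain ⟨j, hj⟩ := hDj q hq
      refine ⟨j, ?_⟩
      rw [hj]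
      simpa using hq2
    · obtain ⟨q, hq, hq2⟩ := c3
      obtain ⟨j, hj⟩ := hDj q hq
      refine ⟨j, ?_⟩
      rw [hj]
      simpa using hq2
    · exact (c4 c1).1
    · exact (c4 c1).2
  · refine FF_union (fun δ h => h) _ _ E2 ?_
    refine FF_union (fun δ h => h) _ _ E3 ?_
    refine FF_union (fun δ h => h) _ _ E4 ?_
    exact FF_union (fun δ h => h) _ _ E5 E6

end RNF40
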