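import Mathlib
import Pool.Agent.Lib_helper40.RNF.Defs

set_option autoImplicit false

namespace RNF40

open Equiv Equiv.Perm RND40

/-- the transducer of `(S, δ, s1, s2)` -/
private def FG_F {n : ℕ} (S : Finset (Fin n))
    (t : Perm (Fin n) × Perm {q // q ∈ S} × Perm {q // ¬ q ∈ S}) :
    (Fin n → Fin 2 → Fin n) × (Fin n → Fin 2 → Fin 2) :=
  (fun q x => if x = 0 then t.1 q else t.1 ((Perm.subtypeCongr t.2.1 t.2.2) q),
    fun q x => if q ∈ S then Equiv.swap 0 1 x else x)

private def FG_Bir {n : ℕ} (A : (Fin n → Fin 2 → Fin n) × (Fin n → Fin 2 → Fin 2)) : Prop :=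
  (∀ q, Function.Bijective (A.2 q)) ∧ (∀ x, Function.Bijective (fun q => A.1 q x)) ∧
    Function.Bijective (fun s : Fin n × Fin 2 => (A.1 s.1 s.2, A.2 s.1 s.2))

private theorem FG_mem {n : ℕ} (S : Finset (Fin n)) (s1 : Perm {q // q ∈ S})
    (s2 : Perm {q // ¬ q ∈ S}) (q : Fin n) : (Perm.subtypeCongr s1 s2) q ∈ S ↔ q ∈ S := by
  by_cases h : q ∈ S
  · rw [Perm.subtypeCongr.left_apply _ _ h]
    exact ⟨fun _ => h, fun _ => (s1 ⟨q, h⟩).2⟩
  · rw [Perm.subtypeCongr.right_apply _ _ h]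
    exact ⟨fun h' => absurd h' (s2 ⟨q, h⟩).2, fun h' => absurd h' h⟩

private theorem FG_bir {n : ℕ} (S : Finset (Fin n))
    (t : Perm (Fin n) × Perm {q // q ∈ S} × Perm {q // ¬ q ∈ S}) : FG_Bir (FG_F S t) := by
  obtain ⟨δ, s1, s2⟩ := t
  refine ⟨fun q => ?_, fun x => ?_, ?_⟩
  · unfold FG_F
    by_cases h : q ∈ S
    · simp only [h, if_true]
      exact (Equiv.swap (0 : Fin 2) 1).bijective
    · simp only [h, if_false]
      exact Function.bijective_id
  · unfold FG_F
    by_cases h : x = 0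
    · simp only [h, if_true]
      exact δ.bijective
    · simp only [h, if_false]
      exact δ.bijective.comp (Perm.subtypeCongr s1 s2).bijective
  · rw [← Finite.injective_iff_bijective]
    rintro ⟨q, x⟩ ⟨r, y⟩ h
    unfold FG_F at h
    simp only [Prod.mk.injEq] at h
    obtain ⟨h1, h2⟩ := h
    have hx : x = 0 ∨ x = 1 := by omega
    have hy : y = 0 ∨ y = 1 := by omega
    rcases hx with rfl | rfl <;> rcases hy with rfl | rfl
    · rw [if_pos rfl, if_pos rfl] at h1
      rw [δ.injective h1]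
    · rw [if_pos rfl, if_neg one_ne_zero] at h1
      have h3 := δ.injective h1
      have h4 : q ∈ S ↔ r ∈ S := by rw [h3]; exact FG_mem S s1 s2 r
      by_cases h5 : r ∈ S
      · rw [if_pos (h4.2 h5), if_pos h5] at h2
        simp at h2
      · rw [if_neg (fun h => h5 (h4.1 h)), if_neg h5] at h2
        exact absurd h2 (by decide)
    · rw [if_pos rfl, if_neg one_ne_zero] at h1
      have h3 := δ.injective h1
      have h4 : r ∈ S ↔ q ∈ S := by rw [← h3]; exact FG_mem S s1 s2 q
      by_cases h5 : q ∈ S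
      · rw [if_pos (h4.2 h5), if_pos h5] at h2
        simp at h2
      · rw [if_neg (fun h => h5 (h4.1 h)), if_neg h5] at h2
        exact absurd h2 (by decide)
    · rw [if_neg one_ne_zero, if_neg one_ne_zero] at h1
      rw [(Perm.subtypeCongr s1 s2).injective (δ.injective h1)]

private theorem FG_memO {n : ℕ} (S : Finset (Fin n))
    (t : Perm (Fin n) × Perm {q // q ∈ S} × Perm {q // ¬ q ∈ S}) (q : Fin n) :
    (FG_F S t).2 q 0 = 1 ↔ q ∈ S := by
  unfold FG_F
  by_cases h : q ∈ S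
  · simp [h]
  · simp [h]

private theorem FG_inj {n : ℕ} : Function.Injective
    (fun z : (Σ S : Finset (Fin n), Perm (Fin n) × Perm {q // q ∈ S} × Perm {q // ¬ q ∈ S}) =>
      FG_F z.1 z.2) := by
  rintro ⟨S, δ, s1, s2⟩ ⟨S', δ', s1', s2'⟩ h
  dsimp only at h
  have hS : S = S' := by
    ext q
    rw [← FG_memO S (δ, s1, s2) q, ← FG_memO S' (δ', s1', s2') q, h]
  subst hS
  have h1 : ∀ q x, (FG_F S (δ, s1, s2)).1 q x = (FG_F S (δ', s1', s2')).1 q x := fun q x => by
    rw [h]
  have hδ : δ = δ' := by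
    ext q
    have := h1 q 0
    simp only [FG_F, if_true] at this
    rw [this]
  subst hδ
  have hσ : Perm.subtypeCongr s1 s2 = Perm.subtypeCongr s1' s2' := by
    ext q
    have := h1 q 1
    simp only [FG_F, one_ne_zero, if_false] at this
    rw [δ.injective this]
  have h2 := Perm.subtypeCongrHom_injective (fun q => q ∈ S)
    (show Perm.subtypeCongrHom (fun q => q ∈ S) (s1, s2) =
      Perm.subtypeCongrHom (fun q => q ∈ S) (s1', s2') from hσ)
  rw [Prod.mk.injEq] at h2
  rw [h2.1, h2.2]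

private theorem FG_back {n : ℕ} (σ : Perm (Fin n)) (S : Finset (Fin n))
    (h : ∀ q, q ∈ S → σ q ∈ S) (q : Fin n) (hq : σ q ∈ S) : q ∈ S := by
  have h1 : S.map σ.toEmbedding = S := by
    apply Finset.eq_of_subset_of_card_le
    · intro x hx
      obtain ⟨y, hy, rfl⟩ := Finset.mem_map.1 hx
      exact h y hy
    · rw [Finset.card_map]
  rw [← h1, Finset.mem_map] at hq
  obtain ⟨y, hy, he⟩ := hq
  rw [← σ.injective he]
  exact hy

private theorem FG_surj {n : ℕ} (A : (Fin n → Fin 2 → Fin n) × (Fin n → Fin 2 → Fin 2))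
    (hA : FG_Bir A) : ∃ S t, FG_F S t = A := by
  obtain ⟨D, O⟩ := A
  obtain ⟨h1, h2, h3⟩ := hA
  dsimp only at h1 h2 h3
  set S : Finset (Fin n) := Finset.univ.filter (fun q => O q 0 = 1) with hS
  set δ : Perm (Fin n) := Equiv.ofBijective _ (h2 0) with hδ
  set τ : Perm (Fin n) := Equiv.ofBijective _ (h2 1) with hτ
  have hδa : ∀ q, δ q = D q 0 := fun q => rfl
  have hτa : ∀ q, τ q = D q 1 := fun q => rfl
  have hm : ∀ q, q ∈ S ↔ O q 0 = 1 := fun q => by simp [hS]
  have hO : ∀ q, q ∈ S → O q 1 = 0 := by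
    intro q hq
    have h4 := (hm q).1 hq
    have h5 : O q 1 ≠ O q 0 := fun h => absurd ((h1 q).1 h) (by decide)
    rw [h4] at h5
    omega
  have hO' : ∀ q, ¬ q ∈ S → O q 0 = 0 ∧ O q 1 = 1 := by
    intro q hq
    have h4 : O q 0 ≠ 1 := fun h => hq ((hm q).2 h)
    have h5 : O q 1 ≠ O q 0 := fun h => absurd ((h1 q).1 h) (by decide)
    omega
  set σ : Perm (Fin n) := τ.trans δ.symm with hσ
  have hσa : ∀ q, δ (σ q) = τ q := fun q => by simp [hσ]
  have hmap : ∀ q, q ∈ S → σ q ∈ S := by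
    intro q hq
    by_contra hr
    have h4 : (fun s : Fin n × Fin 2 => (D s.1 s.2, O s.1 s.2)) (σ q, 0) =
        (fun s : Fin n × Fin 2 => (D s.1 s.2, O s.1 s.2)) (q, 1) := by
      dsimp only
      rw [(hO' _ hr).1, hO q hq, ← hδa, ← hτa, hσa]
    have h5 := h3.1 h4
    rw [Prod.mk.injEq] at h5
    exact absurd h5.2 (by decide)
  have hiff : ∀ q, q ∈ S ↔ σ q ∈ S := by
    intro q
    refine ⟨hmap q, fun hq => ?_⟩
    exact FG_back σ S hmap q hq
  refine ⟨S, (δ, σ.subtypePerm (fun q => (hiff q).symm), σ.subtypePerm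
    (fun q => not_congr (hiff q).symm)), ?_⟩
  have hcongr : ∀ q, (Perm.subtypeCongr (σ.subtypePerm (fun q => (hiff q).symm))
      (σ.subtypePerm (fun q => not_congr (hiff q).symm))) q = σ q := by
    intro q
    by_cases h : q ∈ S
    · rw [Perm.subtypeCongr.left_apply _ _ h]
      rfl
    · rw [Perm.subtypeCongr.right_apply _ _ h]
      rfl
  unfold FG_F
  refine Prod.ext ?_ ?_
  · funext q x
    dsimp only
    by_cases hx : x = 0
    · rw [if_pos hx, hδa, hx]
    · rw [if_neg hx, hcongr, hσa, hτa, show x = 1 by omega]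
  · funext q x
    dsimp only
    have hx : x = 0 ∨ x = 1 := by omega
    by_cases h : q ∈ S
    · rw [if_pos h]
      rcases hx with rfl | rfl
      · rw [Equiv.swap_apply_left, (hm q).1 h]
      · rw [Equiv.swap_apply_right, hO q h]
    · rw [if_neg h]
      rcases hx with rfl | rfl
      · rw [(hO' q h).1]
      · rw [(hO' q h).2]

open Classical in
private theorem FG_card {n : ℕ} (P : (Fin n → Fin 2 → Fin n) × (Fin n → Fin 2 → Fin 2) → Prop) :
    Nat.card {A : (Fin n → Fin 2 → Fin n) × (Fin n → Fin 2 → Fin 2) // FG_Bir A ∧ P A} =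
      ∑ S : Finset (Fin n), Nat.card {t // P (FG_F S t)} := by
  have h1 : {A : (Fin n → Fin 2 → Fin n) × (Fin n → Fin 2 → Fin 2) // FG_Bir A ∧ P A} ≃
      (Σ S : Finset (Fin n), {t // P (FG_F S t)}) := by
    symm
    refine Equiv.ofBijective (fun z => ⟨FG_F z.1 z.2.1, FG_bir _ _, z.2.2⟩) ⟨?_, ?_⟩
    · rintro ⟨S, t, ht⟩ ⟨S', t', ht'⟩ h
      simp only [Subtype.mk.injEq] at h
      have h2 := FG_inj (a₁ := ⟨S, t⟩) (a₂ := ⟨S', t'⟩) h
      obtain ⟨rfl, h3⟩ := Sigma.mk.inj_iff.1 h2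
      rw [heq_iff_eq] at h3
      subst h3
      rfl
    · rintro ⟨A, hA, hP⟩
      obtain ⟨S, t, rfl⟩ := FG_surj A hA
      exact ⟨⟨S, t, hP⟩, rfl⟩
  rw [Nat.card_congr h1, Nat.card_sigma]

private theorem FG_cardS {n : ℕ} (S : Finset (Fin n)) :
    Fintype.card {q // q ∈ S} = S.card ∧ Fintype.card {q // ¬ q ∈ S} = n - S.card := by
  have h1 : Fintype.card {q // q ∈ S} = S.card := by
    rw [Fintype.card_subtype]
    congr 1
    ext q
    simp
  refine ⟨h1, ?_⟩
  rw [Fintype.card_subtype_compl, h1, Fintype.card_fin]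

private theorem FG_cardI {n : ℕ} (S : Finset (Fin n)) (i1 : Fintype {q // q ∈ S})
    (i2 : Fintype {q // ¬ q ∈ S}) :
    @Fintype.card {q // q ∈ S} i1 = S.card ∧ @Fintype.card {q // ¬ q ∈ S} i2 = n - S.card := by
  have h1 := (FG_cardS S).1
  have h2 := (FG_cardS S).2
  rw [Fintype.card_eq_nat_card] at h1 h2 ⊢
  rw [Fintype.card_eq_nat_card]
  exact ⟨h1, h2⟩

private theorem FG_all {n : ℕ} (S : Finset (Fin n)) :
    Nat.card (Perm (Fin n) × Perm {q // q ∈ S} × Perm {q // ¬ q ∈ S}) =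
      n.factorial * (S.card.factorial * (n - S.card).factorial) := by
  rw [Nat.card_prod, Nat.card_prod, Nat.card_eq_fintype_card, Nat.card_eq_fintype_card,
    Nat.card_eq_fintype_card, Fintype.card_perm, Fintype.card_perm, Fintype.card_perm,
    Fintype.card_fin, (FG_cardS S).1, (FG_cardS S).2]

private theorem FG_sum {n : ℕ} (g : ℕ → ℝ) :
    ∑ S : Finset (Fin n), ((n.factorial : ℝ) *
      ((S.card.factorial : ℝ) * ((n - S.card).factorial : ℝ))) * g S.card =
    (n.factorial : ℝ) ^ 2 * ∑ k ∈ Finset.range (n + 1), g k := by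
  have h1 := Finset.sum_powerset_apply_card (x := (Finset.univ : Finset (Fin n)))
    (fun k => ((n.factorial : ℝ) * ((k.factorial : ℝ) * ((n - k).factorial : ℝ))) * g k)
  rw [Finset.powerset_univ, Finset.card_univ, Fintype.card_fin] at h1
  rw [h1, Finset.mul_sum]
  refine Finset.sum_congr rfl fun k hk => ?_
  have hk' : k ≤ n := by
    rw [Finset.mem_range] at hk
    omega
  have h2 : ((n.choose k : ℕ) : ℝ) * (k.factorial : ℝ) * ((n - k).factorial : ℝ) =
      (n.factorial : ℝ) := by exact_mod_cast Nat.choose_mul_factorial_mul_factorial hk'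
  rw [nsmul_eq_mul]
  calc ((n.choose k : ℕ) : ℝ) * ((n.factorial : ℝ) *
        ((k.factorial : ℝ) * ((n - k).factorial : ℝ)) * g k) =
      (n.factorial : ℝ) * (((n.choose k : ℕ) : ℝ) * (k.factorial : ℝ) *
        ((n - k).factorial : ℝ)) * g k := by ring
    _ = _ := by rw [h2]; ring

private theorem FG_small (n : ℕ) (u : ℝ) (hu : 0 ≤ u) :
    ∑ k ∈ Finset.range (n + 1), (if (k : ℝ) < u then (1 : ℝ) else 0) ≤ u + 1 := by
  classical
  rw [Finset.sum_boole]
  have h1 : (Finset.range (n + 1)).filter (fun k : ℕ => (k : ℝ) < u) ⊆ Finset.range ⌈u⌉₊ := by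
    intro k hk
    rw [Finset.mem_filter] at hk
    rw [Finset.mem_range]
    exact Nat.lt_ceil.2 hk.2
  have h2 := Finset.card_le_card h1
  rw [Finset.card_range] at h2
  have h3 := Nat.ceil_lt_add_one hu
  have h4 : (((Finset.range (n + 1)).filter (fun k : ℕ => (k : ℝ) < u)).card : ℝ) ≤
      (⌈u⌉₊ : ℝ) := by
    exact_mod_cast h2
  linarith

/-- bireversible transducers with two letters: `(δ, out)` as functions -/
theorem count_two (n : ℕ) (Bad : (Fin n → Fin 2 → Fin n) × (Fin n → Fin 2 → Fin 2) → Prop)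
    (ε η : ℝ) (hε : 0 < ε) (hη : 0 < η) (hn : 1 ≤ n)
    (h : ∀ (p : Fin n → Prop) [DecidablePred p],
      ε * (n : ℝ) ≤ (Fintype.card {q // p q} : ℝ) →
      ε * (n : ℝ) ≤ (Fintype.card {q // ¬ p q} : ℝ) →
      (Nat.card {t : Perm (Fin n) × Perm {q // p q} × Perm {q // ¬ p q} //
        Bad (fun q x => if x = 0 then t.1 q else
            t.1 ((Perm.subtypeCongr t.2.1 t.2.2) q),
          fun q x => if p q then Equiv.swap 0 1 x else x)} : ℝ) ≤
        η * ((n.factorial : ℝ) * (((Fintype.card {q // p q}).factorial : ℝ) *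
          ((Fintype.card {q // ¬ p q}).factorial : ℝ)))) :
    (Nat.card {A : (Fin n → Fin 2 → Fin n) × (Fin n → Fin 2 → Fin 2) //
      ((∀ q, Function.Bijective (A.2 q)) ∧ (∀ x, Function.Bijective (fun q => A.1 q x)) ∧
        Function.Bijective (fun s : Fin n × Fin 2 => (A.1 s.1 s.2, A.2 s.1 s.2))) ∧ Bad A} : ℝ) ≤
      (2 * ε + 2 / ((n : ℝ) + 1) + η) *
      (Nat.card {A : (Fin n → Fin 2 → Fin n) × (Fin n → Fin 2 → Fin 2) //
        (∀ q, Function.Bijective (A.2 q)) ∧ (∀ x, Function.Bijective (fun q => A.1 q x)) ∧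
        Function.Bijective (fun s : Fin n × Fin 2 => (A.1 s.1 s.2, A.2 s.1 s.2))} : ℝ) := by
  classical
  have hn0 : (0 : ℝ) ≤ n := Nat.cast_nonneg n
  -- the total number
  have htot : (Nat.card {A : (Fin n → Fin 2 → Fin n) × (Fin n → Fin 2 → Fin 2) //
        (∀ q, Function.Bijective (A.2 q)) ∧ (∀ x, Function.Bijective (fun q => A.1 q x)) ∧
        Function.Bijective (fun s : Fin n × Fin 2 => (A.1 s.1 s.2, A.2 s.1 s.2))} : ℝ) =
      (n.factorial : ℝ) ^ 2 * ((n : ℝ) + 1) := by
    have h1 := FG_card (n := n) (fun _ => True)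
    have h2 : Nat.card {A : (Fin n → Fin 2 → Fin n) × (Fin n → Fin 2 → Fin 2) //
        (∀ q, Function.Bijective (A.2 q)) ∧ (∀ x, Function.Bijective (fun q => A.1 q x)) ∧
        Function.Bijective (fun s : Fin n × Fin 2 => (A.1 s.1 s.2, A.2 s.1 s.2))} =
        Nat.card {A : (Fin n → Fin 2 → Fin n) × (Fin n → Fin 2 → Fin 2) //
          FG_Bir A ∧ True} :=
      Nat.card_congr (Equiv.subtypeEquivRight fun A => by rw [and_true]; rfl)
    rw [h2, h1]
    push_cast
    have h3 : ∀ S : Finset (Fin n), (Nat.card {t : Perm (Fin n) × Perm {q // q ∈ S} ×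
        Perm {q // ¬ q ∈ S} // True} : ℝ) = ((n.factorial : ℝ) *
          ((S.card.factorial : ℝ) * ((n - S.card).factorial : ℝ))) * (fun _ : ℕ => (1 : ℝ)) S.card := by
      intro S
      rw [Nat.card_congr (Equiv.subtypeUnivEquiv fun _ => trivial), FG_all]
      push_cast
      ring
    rw [Finset.sum_congr rfl fun S _ => h3 S, FG_sum (fun _ => (1 : ℝ)), Finset.sum_const, Finset.card_range,
      nsmul_eq_mul]
    push_cast
    ring
  rw [htot]
  -- the bad ones
  have hbad := FG_card (n := n) Bad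
  have hbad' : (Nat.card {A : (Fin n → Fin 2 → Fin n) × (Fin n → Fin 2 → Fin 2) //
      ((∀ q, Function.Bijective (A.2 q)) ∧ (∀ x, Function.Bijective (fun q => A.1 q x)) ∧
        Function.Bijective (fun s : Fin n × Fin 2 => (A.1 s.1 s.2, A.2 s.1 s.2))) ∧ Bad A} : ℝ) =
      ∑ S : Finset (Fin n), (Nat.card {t // Bad (FG_F S t)} : ℝ) := by
    have : Nat.card {A : (Fin n → Fin 2 → Fin n) × (Fin n → Fin 2 → Fin 2) //
      ((∀ q, Function.Bijective (A.2 q)) ∧ (∀ x, Function.Bijective (fun q => A.1 q x)) ∧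
        Function.Bijective (fun s : Fin n × Fin 2 => (A.1 s.1 s.2, A.2 s.1 s.2))) ∧ Bad A} =
      ∑ S : Finset (Fin n), Nat.card {t // Bad (FG_F S t)} := hbad
    rw [this]
    push_cast
    rfl
  rw [hbad']
  set g : ℕ → ℝ := fun k => η + (if (k : ℝ) < ε * n then (1 : ℝ) else 0) +
    (if ((n - k : ℕ) : ℝ) < ε * n then (1 : ℝ) else 0) with hg
  have key : ∀ S : Finset (Fin n), (Nat.card {t // Bad (FG_F S t)} : ℝ) ≤
      ((n.factorial : ℝ) * ((S.card.factorial : ℝ) * ((n - S.card).factorial : ℝ))) *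
        g S.card := by
    intro S
    have hall : (Nat.card {t // Bad (FG_F S t)} : ℝ) ≤
        (n.factorial : ℝ) * ((S.card.factorial : ℝ) * ((n - S.card).factorial : ℝ)) := by
      have h1 : Nat.card {t // Bad (FG_F S t)} ≤
          n.factorial * (S.card.factorial * (n - S.card).factorial) := by
        rw [← FG_all]
        exact Nat.card_le_card_of_injective _ Subtype.val_injective
      exact_mod_cast h1
    have hpos : (0 : ℝ) ≤ (n.factorial : ℝ) * ((S.card.factorial : ℝ) *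
        ((n - S.card).factorial : ℝ)) := by positivity
    have i1 : (0 : ℝ) ≤ (if (S.card : ℝ) < ε * n then (1 : ℝ) else 0) := by
      split_ifs <;> norm_num
    have i2 : (0 : ℝ) ≤ (if ((n - S.card : ℕ) : ℝ) < ε * n then (1 : ℝ) else 0) := by
      split_ifs <;> norm_num
    by_cases c1 : (S.card : ℝ) < ε * n
    · refine hall.trans (le_mul_of_one_le_right hpos ?_)
      simp only [hg]
      rw [if_pos c1]
      linarith
    · by_cases c2 : ((n - S.card : ℕ) : ℝ) < ε * n
      · refine hall.trans (le_mul_of_one_le_right hpos ?_)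
        simp only [hg]
        rw [if_pos c2]
        linarith
      · push Not at c1 c2
        have h2 := h (fun q => q ∈ S) (by rw [(FG_cardI S _ inferInstance).1]; exact c1)
          (by rw [(FG_cardI S inferInstance _).2]; exact c2)
        rw [(FG_cardI S _ inferInstance).1, (FG_cardI S inferInstance _).2] at h2
        have h3 : g S.card = η := by
          simp only [hg]
          rw [if_neg (not_lt.2 c1), if_neg (not_lt.2 c2), add_zero, add_zero]
        rw [h3, mul_comm _ η]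
        exact h2
  refine (Finset.sum_le_sum fun S _ => key S).trans ?_
  rw [FG_sum g]
  have hsum : ∑ k ∈ Finset.range (n + 1), g k ≤ η * ((n : ℝ) + 1) + 2 * (ε * n + 1) := by
    simp only [hg]
    rw [Finset.sum_add_distrib, Finset.sum_add_distrib, Finset.sum_const, Finset.card_range,
      nsmul_eq_mul]
    have h1 := FG_small n (ε * n) (by positivity)
    have h2 : ∑ k ∈ Finset.range (n + 1), (if ((n - k : ℕ) : ℝ) < ε * n then (1 : ℝ) else 0) =
        ∑ k ∈ Finset.range (n + 1), (if (k : ℝ) < ε * n then (1 : ℝ) else 0) := by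
      have h3 := Finset.sum_range_reflect (fun k => (if (k : ℝ) < ε * n then (1 : ℝ) else 0))
        (n + 1)
      rw [← h3]
      refine Finset.sum_congr rfl fun k _ => ?_
      rw [show n + 1 - 1 - k = n - k by omega]
    rw [h2]
    push_cast
    linarith
  calc (n.factorial : ℝ) ^ 2 * ∑ k ∈ Finset.range (n + 1), g k ≤
        (n.factorial : ℝ) ^ 2 * (η * ((n : ℝ) + 1) + 2 * (ε * n + 1)) := by gcongr
    _ ≤ (n.factorial : ℝ) ^ 2 * ((2 * ε + 2 / ((n : ℝ) + 1) + η) * ((n : ℝ) + 1)) := by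
        apply mul_le_mul_of_nonneg_left _ (by positivity)
        have : 2 / ((n : ℝ) + 1) * ((n : ℝ) + 1) = 2 := by field_simp
        nlinarith
    _ = _ := by ring

end RNF40
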