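import Pool.Agent.Lib_helper40.RNF.Stmt2
import Pool.Agent.Lib_helper40.RNF.FE
import Pool.Agent.Lib_helper40.RNF.FF
import Pool.Agent.Lib_helper40.RNF.FG

set_option autoImplicit false

namespace RNF40

open Filter Topology

/-- Asymptotically almost all bireversible transducers with two letters generate a free group
with basis the states. -/
theorem generic_free : Tendsto (fun n : ℕ =>
      (Nat.card {A : (Fin n → Fin 2 → Fin n) × (Fin n → Fin 2 → Fin 2) //
        Bireversible A.1 A.2 ∧ FreeOnStates A.1 A.2} : ℝ) /
      (Nat.card {A : (Fin n → Fin 2 → Fin n) × (Fin n → Fin 2 → Fin 2) //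
        Bireversible A.1 A.2} : ℝ)) atTop (𝓝 1) :=
  final_of_bad (fun ε hε => mn_main (fun ε hε η hη => good_sigma ε hε η hη)
    (fun ε hε η hη => good_delta ε hε η hη)
    (fun n Bad ε η hε hη hn h => count_two n Bad ε η hε hη hn h) ε hε)

end RNF40
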