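import Pool.Agent.Lib_helper40.RNF.FD

set_option autoImplicit false
set_option linter.unusedSectionVars false

/-! Assembly of the generic freeness theorem. -/

namespace RNF40

open Equiv Equiv.Perm RND40 GF40

/-- The states generate a free group with basis the states, and the group is torsion free. -/
def FreeOn {n m : ℕ} (δ : Fin n → Fin m → Fin n) (out : Fin n → Fin m → Fin m) : Prop :=
  ∀ f : Fin n → Perm (List (Fin m)), (∀ q, f q [] = []) →
    (∀ q a w, f q (a :: w) = out q a :: f (δ q a) w) →
    Function.Injective (FreeGroup.lift f) ∧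
      ∀ g ∈ Subgroup.closure (Set.range f), IsOfFinOrder g → g = 1

lemma mn_torsion {n : ℕ} {G : Type*} [Group G] (f : Fin n → G)
    (h : Function.Injective (FreeGroup.lift f)) :
    ∀ g ∈ Subgroup.closure (Set.range f), IsOfFinOrder g → g = 1 := by
  intro g hg hfin
  rw [← FreeGroup.range_lift_eq_closure] at hg
  obtain ⟨u, rfl⟩ := hg
  have h1 : IsOfFinOrder u := by
    rw [isOfFinOrder_iff_pow_eq_one] at hfin ⊢
    obtain ⟨m, hm, hm1⟩ := hfin
    refine ⟨m, hm, h ?_⟩
    rw [map_pow, map_one]
    exact hm1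
  have h2 : u = 1 := by
    by_contra hne
    exact (not_isOfFinOrder_of_isMulTorsionFree hne) h1
  rw [h2, map_one]

lemma mn_congr_mul {n : ℕ} (p : Fin n → Prop) [DecidablePred p] (s1 : Perm {q // p q})
    (s2 : Perm {q // ¬ p q}) :
    Perm.subtypeCongr s1 1 * Perm.subtypeCongr 1 s2 = Perm.subtypeCongr s1 s2 := by
  ext q
  rw [Perm.mul_apply]
  by_cases h : p q
  · rw [Perm.subtypeCongr.left_apply _ _ h, Perm.subtypeCongr.left_apply _ _ h]
    simp
    rw [Perm.subtypeCongr.left_apply _ _ h]
  · rw [Perm.subtypeCongr.right_apply _ _ h, Perm.subtypeCongr.right_apply _ _ h]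
    rw [Perm.subtypeCongr.right_apply _ _ (s2 ⟨q, h⟩).2]
    simp

lemma mn_free_of_Evt {n : ℕ} (h6 : 6 ≤ n) (p : Fin n → Prop) [DecidablePred p]
    (δ : Perm (Fin n)) (s1 : Perm {q // p q}) (s2 : Perm {q // ¬ p q})
    (hE : Evt p δ (Perm.subtypeCongr s1 1) (Perm.subtypeCongr 1 s2)) :
    FreeOn (fun q x => if x = 0 then δ q else δ ((Perm.subtypeCongr s1 s2) q))
      (fun q (x : Fin 2) => if p q then Equiv.swap 0 1 x else x) := by
  intro f hf0 hf
  set a := Perm.subtypeCongr s1 (1 : Perm {q // ¬ p q}) with ha'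
  set b := Perm.subtypeCongr (1 : Perm {q // p q}) s2 with hb'
  have ha : ∀ q, ¬ p q → a q = q := by
    intro q hq
    rw [ha', Perm.subtypeCongr.right_apply _ _ hq]
    simp
  have hb : ∀ q, p q → b q = q := by
    intro q hq
    rw [hb', Perm.subtypeCongr.left_apply _ _ hq]
    simp
  have hc : 6 ≤ Fintype.card (Fin n) := by rwa [Fintype.card_fin]
  have h2 := fd_H2 (δ := δ) ha hb hc hE
  have h3 := fd_H3 (δ := δ) ha hb hE
  have hf2 : ∀ (q : Fin n) (x : Fin 2) (w : List (Fin 2)), f q (x :: w) =
      (if p q then Equiv.swap 0 1 x else x) ::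
        f (if x = 0 then δ q else δ ((Perm.subtypeCongr s1 s2) q)) w := hf
  have hO : ∀ (q : Fin n) (x : Fin 2), (if p q then Equiv.swap 0 1 x else x) = Ot p q x := by
    intro q x
    unfold Ot
    by_cases h : p q
    · rw [if_pos h, if_pos h]
    · rw [if_neg h, if_neg h]; rfl
  have hD : ∀ (q : Fin n) (x : Fin 2),
      (if x = 0 then δ q else δ ((Perm.subtypeCongr s1 s2) q)) = Dt δ a b x q := by
    intro q x
    unfold Dt
    by_cases h : x = 0
    · rw [if_pos h, if_pos h]
    · rw [if_neg h, if_neg h, Perm.mul_apply, ha', hb', mn_congr_mul]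
  have hf' : ∀ q x w, f q (x :: w) = Ot p q x :: f (Dt δ a b x q) w := by
    intro q x w
    rw [hf2 q x w, hO, hD]
  have hinj := free_of_H (Dt δ a b) (Ot p) (fd_bir (δ := δ) ha hb) f hf' hc h2 h3
  exact ⟨hinj, mn_torsion f hinj⟩

/-- bireversible transducer, all three conditions -/
def BirF {n k : ℕ} (δ : Fin n → Fin k → Fin n) (out : Fin n → Fin k → Fin k) : Prop :=
  (∀ q, Function.Bijective (out q)) ∧ (∀ x, Function.Bijective (fun q => δ q x)) ∧
    Function.Bijective (fun s : Fin n × Fin k => (δ s.1 s.2, out s.1 s.2))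

theorem mn_main
    (good_sigma : ∀ (ε : ℝ), 0 < ε → ∀ (η : ℝ), 0 < η → ∃ n0 : ℕ, ∀ n ≥ n0,
      ∀ (p : Fin n → Prop) [DecidablePred p],
      ε * (n : ℝ) ≤ (Fintype.card {q // p q} : ℝ) →
      (Nat.card {s : Perm {q // p q} × Perm {q // ¬ p q} //
        ¬ GoodSig p (tt n ^ 6) (2 ^ (Nat.log 2 n / 8)) (tt n ^ 5) s.1 s.2} : ℝ) ≤
        η * (((Fintype.card {q // p q}).factorial : ℝ) *
          ((Fintype.card {q // ¬ p q}).factorial : ℝ)))
    (good_delta : ∀ (ε : ℝ), 0 < ε → ∀ (η : ℝ), 0 < η → ∃ n0 : ℕ, ∀ n ≥ n0,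
      ∀ (p : Fin n → Prop) [DecidablePred p],
      ε * (n : ℝ) ≤ (Fintype.card {q // p q} : ℝ) →
      ε * (n : ℝ) ≤ (Fintype.card {q // ¬ p q} : ℝ) →
      ∀ (s1 : Perm {q // p q}) (s2 : Perm {q // ¬ p q}),
      GoodSig p (tt n ^ 6) (2 ^ (Nat.log 2 n / 8)) (tt n ^ 5) s1 s2 →
      (Nat.card {δ : Perm (Fin n) // ¬ Evt p δ (Perm.subtypeCongr s1 1)
        (Perm.subtypeCongr 1 s2)} : ℝ) ≤ η * (n.factorial : ℝ))
    (count_two : ∀ (n : ℕ) (Bad : (Fin n → Fin 2 → Fin n) × (Fin n → Fin 2 → Fin 2) → Prop)
      (ε η : ℝ), 0 < ε → 0 < η → 1 ≤ n →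
      (∀ (p : Fin n → Prop) [DecidablePred p],
        ε * (n : ℝ) ≤ (Fintype.card {q // p q} : ℝ) →
        ε * (n : ℝ) ≤ (Fintype.card {q // ¬ p q} : ℝ) →
        (Nat.card {t : Perm (Fin n) × Perm {q // p q} × Perm {q // ¬ p q} //
          Bad (fun q x => if x = 0 then t.1 q else
              t.1 ((Perm.subtypeCongr t.2.1 t.2.2) q),
            fun q x => if p q then Equiv.swap 0 1 x else x)} : ℝ) ≤
          η * ((n.factorial : ℝ) * (((Fintype.card {q // p q}).factorial : ℝ) *
            ((Fintype.card {q // ¬ p q}).factorial : ℝ)))) →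
      (Nat.card {A : (Fin n → Fin 2 → Fin n) × (Fin n → Fin 2 → Fin 2) //
        BirF A.1 A.2 ∧ Bad A} : ℝ) ≤
        (2 * ε + 2 / ((n : ℝ) + 1) + η) *
        (Nat.card {A : (Fin n → Fin 2 → Fin n) × (Fin n → Fin 2 → Fin 2) //
          BirF A.1 A.2} : ℝ))
    (ε : ℝ) (hε : 0 < ε) : ∃ n0 : ℕ, ∀ n ≥ n0,
    (Nat.card {A : (Fin n → Fin 2 → Fin n) × (Fin n → Fin 2 → Fin 2) //
      BirF A.1 A.2 ∧ ¬ FreeOn A.1 A.2} : ℝ) ≤
      ε * (Nat.card {A : (Fin n → Fin 2 → Fin n) × (Fin n → Fin 2 → Fin 2) //
        BirF A.1 A.2} : ℝ) := by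
  classical
  obtain ⟨n1, h1⟩ := good_sigma (ε / 8) (by positivity) (ε / 8) (by positivity)
  obtain ⟨n2, h2⟩ := good_delta (ε / 8) (by positivity) (ε / 8) (by positivity)
  obtain ⟨n3, h3⟩ := exists_nat_gt (8 / ε)
  refine ⟨max (max n1 n2) (max n3 6), fun n hn => ?_⟩
  have hn1 : n1 ≤ n := le_trans (le_trans (le_max_left _ _) (le_max_left _ _)) hn
  have hn2 : n2 ≤ n := le_trans (le_trans (le_max_right _ _) (le_max_left _ _)) hn
  have hn3 : n3 ≤ n := le_trans (le_trans (le_max_left _ _) (le_max_right _ _)) hn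
  have hn6 : 6 ≤ n := le_trans (le_trans (le_max_right _ _) (le_max_right _ _)) hn
  have key := count_two n (fun A => ¬ FreeOn A.1 A.2) (ε / 8) (ε / 4) (by positivity)
    (by positivity) (by omega) (by
      intro p _ hp hp'
      set FP : ℝ := ((Fintype.card {q // p q}).factorial : ℝ) with hFP
      set FN : ℝ := ((Fintype.card {q // ¬ p q}).factorial : ℝ) with hFN
      have e1 := h1 n hn1 p hp
      have e2 := h2 n hn2 p hp hp'
      let T := Perm (Fin n) × Perm {q // p q} × Perm {q // ¬ p q}
      let GS : Perm {q // p q} × Perm {q // ¬ p q} → Prop := fun s =>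
        GoodSig p (tt n ^ 6) (2 ^ (Nat.log 2 n / 8)) (tt n ^ 5) s.1 s.2
      let EV : T → Prop := fun t => Evt p t.1 (Perm.subtypeCongr t.2.1 1)
        (Perm.subtypeCongr 1 t.2.2)
      have hsub : (Finset.univ.filter (fun t : T => ¬ FreeOn
          (fun q x => if x = 0 then t.1 q else t.1 ((Perm.subtypeCongr t.2.1 t.2.2) q))
          (fun q (x : Fin 2) => if p q then Equiv.swap 0 1 x else x))) ⊆
          (Finset.univ.filter (fun t : T => ¬ GS t.2)) ∪
          (Finset.univ.filter (fun t : T => GS t.2 ∧ ¬ EV t)) := by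
        intro t ht
        rw [Finset.mem_filter] at ht
        rw [Finset.mem_union, Finset.mem_filter, Finset.mem_filter]
        by_cases hg : GS t.2
        · right
          refine ⟨Finset.mem_univ _, hg, fun hE => ht.2 ?_⟩
          exact mn_free_of_Evt hn6 p t.1 t.2.1 t.2.2 hE
        · left
          exact ⟨Finset.mem_univ _, hg⟩
      have hA : ((Finset.univ.filter (fun t : T => ¬ GS t.2)).card : ℝ) ≤
          (n.factorial : ℝ) * (ε / 8 * (FP * FN)) := by
        have e3 : (Finset.univ.filter (fun t : T => ¬ GS t.2)).card =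
            n.factorial * (Finset.univ.filter (fun s => ¬ GS s)).card := by
          have e4 : Finset.univ.filter (fun t : T => ¬ GS t.2) =
              (Finset.univ : Finset (Perm (Fin n))) ×ˢ (Finset.univ.filter (fun s => ¬ GS s)) := by
            ext t
            constructor
            · intro h
              exact Finset.mem_product.2 ⟨Finset.mem_univ _, Finset.mem_filter.2
                ⟨Finset.mem_univ _, (Finset.mem_filter.1 h).2⟩⟩
            · intro h
              exact Finset.mem_filter.2 ⟨Finset.mem_univ _,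
                (Finset.mem_filter.1 (Finset.mem_product.1 h).2).2⟩
          rw [e4, Finset.card_product, Finset.card_univ, Fintype.card_perm, Fintype.card_fin]
        have e5 : ((Finset.univ.filter (fun s => ¬ GS s)).card : ℝ) ≤ ε / 8 * (FP * FN) := by
          have := e1
          rw [Nat.card_eq_fintype_card, Fintype.card_subtype] at this
          exact this
        rw [e3]
        push_cast
        exact mul_le_mul_of_nonneg_left e5 (by positivity)
      have hBc : ((Finset.univ.filter (fun t : T => GS t.2 ∧ ¬ EV t)).card : ℝ) ≤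
          (FP * FN) * (ε / 8 * (n.factorial : ℝ)) := by
        have e3 : ((Finset.univ.filter (fun t : T => GS t.2 ∧ ¬ EV t)).card : ℝ) =
            ∑ s : Perm {q // p q} × Perm {q // ¬ p q}, ∑ d : Perm (Fin n),
              (if GS s ∧ ¬ EV (d, s) then (1 : ℝ) else 0) := by
          rw [Finset.card_filter]
          push_cast
          rw [Fintype.sum_prod_type_right]
        rw [e3]
        calc _ ≤ ∑ _s : Perm {q // p q} × Perm {q // ¬ p q}, ε / 8 * (n.factorial : ℝ) := by
              apply Finset.sum_le_sum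
              intro s _
              by_cases hg : GS s
              · have e4 := e2 s.1 s.2 hg
                rw [Nat.card_eq_fintype_card, Fintype.card_subtype] at e4
                have e5 : ∑ d : Perm (Fin n), (if GS s ∧ ¬ EV (d, s) then (1 : ℝ) else 0) =
                    ((Finset.univ.filter (fun d : Perm (Fin n) => ¬ EV (d, s))).card : ℝ) := by
                  rw [Finset.card_filter]
                  push_cast
                  apply Finset.sum_congr rfl
                  intro d _
                  simp only [hg, true_and]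
                rw [e5]
                exact e4
              · simp only [hg, false_and, if_false, Finset.sum_const_zero]
                positivity
          _ = _ := by
              rw [Finset.sum_const, nsmul_eq_mul, Finset.card_univ, Fintype.card_prod,
                Fintype.card_perm, Fintype.card_perm]
              push_cast
              rfl
      rw [Nat.card_eq_fintype_card, Fintype.card_subtype]
      have e6 := Finset.card_le_card hsub
      have e7 := Finset.card_union_le (Finset.univ.filter (fun t : T => ¬ GS t.2))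
          (Finset.univ.filter (fun t : T => GS t.2 ∧ ¬ EV t))
      have e8 := e6.trans e7
      have e9 : ((Finset.univ.filter (fun t : T => ¬ FreeOn
          (fun q x => if x = 0 then t.1 q else t.1 ((Perm.subtypeCongr t.2.1 t.2.2) q))
          (fun q (x : Fin 2) => if p q then Equiv.swap 0 1 x else x))).card : ℝ) ≤
          ((Finset.univ.filter (fun t : T => ¬ GS t.2)).card : ℝ) +
          ((Finset.univ.filter (fun t : T => GS t.2 ∧ ¬ EV t)).card : ℝ) := by
        exact_mod_cast e8
      calc _ ≤ ((Finset.univ.filter (fun t : T => ¬ GS t.2)).card : ℝ) +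
          ((Finset.univ.filter (fun t : T => GS t.2 ∧ ¬ EV t)).card : ℝ) := e9
        _ ≤ (n.factorial : ℝ) * (ε / 8 * (FP * FN)) + (FP * FN) * (ε / 8 * (n.factorial : ℝ)) :=
          add_le_add hA hBc
        _ = _ := by ring)
  refine key.trans ?_
  apply mul_le_mul_of_nonneg_right _ (by positivity)
  have h4 : 2 / ((n : ℝ) + 1) ≤ ε / 4 := by
    rw [div_le_iff₀ (by positivity)]
    have h5 : 8 / ε < (n : ℝ) := lt_of_lt_of_le h3 (by exact_mod_cast hn3)
    rw [div_lt_iff₀ hε] at h5
    nlinarith
  linarith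

end RNF40
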