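import Pool.Agent.Lib_helper40.RNF.Main

set_option autoImplicit false
set_option linter.unusedSectionVars false

/-! Final form of the statement. -/

namespace RNF40

open Equiv Equiv.Perm RND40 GF40 Filter Topology

section ex

variable {Q X : Type*} (δ : Q → X → Q) (out : Q → X → X)

/-- the transformation of a state -/
def run : Q → List X → List X
  | _, [] => []
  | q, a :: w => out q a :: run (δ q a) w

lemma run_inj (h : ∀ q, Function.Bijective (out q)) :
    ∀ (u v : List X) (q : Q), run δ out q u = run δ out q v → u = v := by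
  intro u
  induction u with
  | nil =>
    intro v q hv
    cases v with
    | nil => rfl
    | cons b v => simp [run] at hv
  | cons a u ih =>
    intro v q hv
    cases v with
    | nil => simp [run] at hv
    | cons b v =>
      simp only [run, List.cons.injEq] at hv
      have hab : a = b := (h q).1 hv.1
      subst hab
      rw [ih v _ hv.2]

lemma run_surj (h : ∀ q, Function.Bijective (out q)) :
    ∀ (v : List X) (q : Q), ∃ u, run δ out q u = v := by
  intro v
  induction v with
  | nil => intro q; exact ⟨[], rfl⟩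
  | cons b v ih =>
    intro q
    obtain ⟨a, ha⟩ := (h q).2 b
    obtain ⟨u, hu⟩ := ih (δ q a)
    exact ⟨a :: u, by simp [run, ha, hu]⟩

lemma exists_f (h : ∀ q, Function.Bijective (out q)) :
    ∃ f : Q → Perm (List X), (∀ q, f q [] = []) ∧
      (∀ q a w, f q (a :: w) = out q a :: f (δ q a) w) := by
  refine ⟨fun q => Equiv.ofBijective (run δ out q)
    ⟨fun u v huv => run_inj δ out h u v q huv, fun v => run_surj δ out h v q⟩, ?_, ?_⟩
  · intro q; rfl
  · intro q a w; rfl

end ex

/-- the literal condition on the inverse transducer -/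
lemma inverse_iff {n k : ℕ} (δ : Fin n → Fin k → Fin n) (out : Fin n → Fin k → Fin k)
    (hout : ∀ q, Function.Bijective (out q)) :
    (∀ (b : Fin k) (a : Fin n → Fin k), (∀ q, out q (a q) = b) →
      Function.Bijective (fun q => δ q (a q))) ↔
    Function.Bijective (fun s : Fin n × Fin k => (δ s.1 s.2, out s.1 s.2)) := by
  constructor
  · intro h
    rw [← Finite.injective_iff_bijective]
    rintro ⟨q, x⟩ ⟨q', x'⟩ hs
    simp only [Prod.mk.injEq] at hs
    obtain ⟨h1, h2⟩ := hs
    choose g hg using fun q => (hout q).2 (out q' x')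
    have h3 := (h (out q' x') g hg).1
    have e1 : g q = x := (hout q).1 ((hg q).trans h2.symm)
    have e2 : g q' = x' := (hout q').1 (hg q')
    have h4 : q = q' := h3 (by simp only [e1, e2, h1])
    subst h4
    have h5 : x = x' := e1.symm.trans e2
    rw [h5]
  · intro h b a ha
    rw [← Finite.injective_iff_bijective]
    intro q q' hq
    have : ((q, a q) : Fin n × Fin k) = (q', a q') := by
      apply h.1
      simp only [Prod.mk.injEq]
      exact ⟨hq, by rw [ha, ha]⟩
    exact congrArg Prod.fst this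

/-- limit form -/
lemma tendsto_of_bad (B G : ℕ → ℕ) (T : ℕ → ℕ) (hT : ∀ n, 1 ≤ n → 0 < T n)
    (hsum : ∀ n, G n + B n = T n)
    (h : ∀ ε : ℝ, 0 < ε → ∃ n0 : ℕ, ∀ n ≥ n0, (B n : ℝ) ≤ ε * (T n : ℝ)) :
    Tendsto (fun n => (G n : ℝ) / (T n : ℝ)) atTop (𝓝 1) := by
  rw [Metric.tendsto_atTop]
  intro ε hε
  obtain ⟨n0, h0⟩ := h (ε / 2) (by positivity)
  refine ⟨max n0 1, fun n hn => ?_⟩
  have h1 := h0 n (le_trans (le_max_left _ _) hn)
  have h2 : (0 : ℝ) < (T n : ℝ) := by
    exact_mod_cast hT n (le_trans (le_max_right _ _) hn)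
  have h3 : (G n : ℝ) = (T n : ℝ) - (B n : ℝ) := by
    have := hsum n
    have h4 : (G n : ℝ) + (B n : ℝ) = (T n : ℝ) := by exact_mod_cast this
    linarith
  rw [Real.dist_eq, h3, sub_div, div_self (ne_of_gt h2)]
  have h5 : (1 : ℝ) - (B n : ℝ) / (T n : ℝ) - 1 = -((B n : ℝ) / (T n : ℝ)) := by ring
  rw [h5, abs_neg, abs_of_nonneg (by positivity)]
  have h6 : (B n : ℝ) / (T n : ℝ) ≤ ε / 2 := by
    rw [div_le_iff₀ h2]
    exact h1
  linarith

end RNF40
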