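import Pool.Agent.Lib_helper40.RNF.Stmt

set_option autoImplicit false
set_option linter.unusedSectionVars false

namespace RNF40

open Filter Topology

/-- A transducer with states `Fin n` and letters `Fin 2`, given by its transition map `δ` and its
output map `out`, is bireversible: it is invertible, it is reversible, and its inverse transducer
is reversible (for every letter `b`, the map `q ↦ δ q (a q)` is a permutation, where `a q` is the
letter with output `b`). -/
def Bireversible {n : ℕ} (δ : Fin n → Fin 2 → Fin n) (out : Fin n → Fin 2 → Fin 2) : Prop :=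
  (∀ q, Function.Bijective (out q)) ∧ (∀ x, Function.Bijective (fun q => δ q x)) ∧
    ∀ (b : Fin 2) (a : Fin n → Fin 2), (∀ q, out q (a q) = b) →
      Function.Bijective (fun q => δ q (a q))

/-- The states act on the words by the permutations `f q`; these freely generate the group
`G(A)`, which has no nontrivial element of finite order. -/
def FreeOnStates {n : ℕ} (δ : Fin n → Fin 2 → Fin n) (out : Fin n → Fin 2 → Fin 2) : Prop :=
  ∃ f : Fin n → Equiv.Perm (List (Fin 2)), (∀ q, f q [] = []) ∧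
    (∀ q a w, f q (a :: w) = out q a :: f (δ q a) w) ∧
    Function.Injective (FreeGroup.lift f) ∧
    ∀ g ∈ Subgroup.closure (Set.range f), IsOfFinOrder g → g = 1

theorem final_of_bad
    (hbad : ∀ ε : ℝ, 0 < ε → ∃ n0 : ℕ, ∀ n ≥ n0,
      (Nat.card {A : (Fin n → Fin 2 → Fin n) × (Fin n → Fin 2 → Fin 2) //
        BirF A.1 A.2 ∧ ¬ FreeOn A.1 A.2} : ℝ) ≤
        ε * (Nat.card {A : (Fin n → Fin 2 → Fin n) × (Fin n → Fin 2 → Fin 2) //
          BirF A.1 A.2} : ℝ)) :
    Tendsto (fun n : ℕ =>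
      (Nat.card {A : (Fin n → Fin 2 → Fin n) × (Fin n → Fin 2 → Fin 2) //
        Bireversible A.1 A.2 ∧ FreeOnStates A.1 A.2} : ℝ) /
      (Nat.card {A : (Fin n → Fin 2 → Fin n) × (Fin n → Fin 2 → Fin 2) //
        Bireversible A.1 A.2} : ℝ)) atTop (𝓝 1) := by
  classical
  have hB : ∀ (n : ℕ) (A : (Fin n → Fin 2 → Fin n) × (Fin n → Fin 2 → Fin 2)),
      Bireversible A.1 A.2 ↔ BirF A.1 A.2 := by
    intro n A
    unfold Bireversible BirF
    constructor
    · rintro ⟨h1, h2, h3⟩
      exact ⟨h1, h2, (inverse_iff A.1 A.2 h1).1 h3⟩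
    · rintro ⟨h1, h2, h3⟩
      exact ⟨h1, h2, (inverse_iff A.1 A.2 h1).2 h3⟩
  have hF : ∀ (n : ℕ) (A : (Fin n → Fin 2 → Fin n) × (Fin n → Fin 2 → Fin 2)),
      BirF A.1 A.2 → FreeOn A.1 A.2 → FreeOnStates A.1 A.2 := by
    intro n A hA h
    obtain ⟨f, hf0, hf⟩ := exists_f A.1 A.2 hA.1
    obtain ⟨h1, h2⟩ := h f hf0 hf
    exact ⟨f, hf0, hf, h1, h2⟩
  refine tendsto_of_bad
    (fun n => Nat.card {A : (Fin n → Fin 2 → Fin n) × (Fin n → Fin 2 → Fin 2) //
        Bireversible A.1 A.2 ∧ ¬ FreeOnStates A.1 A.2})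
    (fun n => Nat.card {A : (Fin n → Fin 2 → Fin n) × (Fin n → Fin 2 → Fin 2) //
        Bireversible A.1 A.2 ∧ FreeOnStates A.1 A.2})
    (fun n => Nat.card {A : (Fin n → Fin 2 → Fin n) × (Fin n → Fin 2 → Fin 2) //
        Bireversible A.1 A.2}) ?_ ?_ ?_
  · intro n _
    have : Nonempty {A : (Fin n → Fin 2 → Fin n) × (Fin n → Fin 2 → Fin 2) //
        Bireversible A.1 A.2} := by
      refine ⟨⟨(fun q _ => q, fun _ a => a), ?_, ?_, ?_⟩⟩
      · intro q; exact Function.bijective_id
      · intro x; exact Function.bijective_id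
      · intro b a _; exact Function.bijective_id
    exact Nat.card_pos
  · intro n
    rw [Nat.card_eq_fintype_card, Nat.card_eq_fintype_card, Nat.card_eq_fintype_card,
      Fintype.card_subtype, Fintype.card_subtype, Fintype.card_subtype,
      ← Finset.card_union_of_disjoint]
    · congr 1
      ext A
      simp only [Finset.mem_union, Finset.mem_filter, Finset.mem_univ, true_and]
      tauto
    · rw [Finset.disjoint_left]
      intro A h1 h2
      rw [Finset.mem_filter] at h1 h2
      exact h2.2.2 h1.2.2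
  · intro ε hε
    obtain ⟨n0, h0⟩ := hbad ε hε
    refine ⟨n0, fun n hn => ?_⟩
    have h1 := h0 n hn
    have h2 : Nat.card {A : (Fin n → Fin 2 → Fin n) × (Fin n → Fin 2 → Fin 2) //
        Bireversible A.1 A.2 ∧ ¬ FreeOnStates A.1 A.2} ≤
        Nat.card {A : (Fin n → Fin 2 → Fin n) × (Fin n → Fin 2 → Fin 2) //
        BirF A.1 A.2 ∧ ¬ FreeOn A.1 A.2} := by
      rw [Nat.card_eq_fintype_card, Nat.card_eq_fintype_card, Fintype.card_subtype,
        Fintype.card_subtype]
      apply Finset.card_le_card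
      intro A hA
      rw [Finset.mem_filter] at hA ⊢
      exact ⟨hA.1, (hB n A).1 hA.2.1, fun h => hA.2.2 (hF n A ((hB n A).1 hA.2.1) h)⟩
    have h3 : Nat.card {A : (Fin n → Fin 2 → Fin n) × (Fin n → Fin 2 → Fin 2) //
        Bireversible A.1 A.2} =
        Nat.card {A : (Fin n → Fin 2 → Fin n) × (Fin n → Fin 2 → Fin 2) //
        BirF A.1 A.2} := by
      apply Nat.card_congr
      exact Equiv.subtypeEquivRight (fun A => hB n A)
    calc (Nat.card {A : (Fin n → Fin 2 → Fin n) × (Fin n → Fin 2 → Fin 2) //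
        Bireversible A.1 A.2 ∧ ¬ FreeOnStates A.1 A.2} : ℝ) ≤
        (Nat.card {A : (Fin n → Fin 2 → Fin n) × (Fin n → Fin 2 → Fin 2) //
        BirF A.1 A.2 ∧ ¬ FreeOn A.1 A.2} : ℝ) := by exact_mod_cast h2
      _ ≤ _ := h1
      _ = _ := by rw [h3]

end RNF40
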